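import Mathlib

/-! # Orderable matrices, matrices of rank at most 2 -/

set_option autoImplicit false

open Finset
open scoped Classical

namespace TPB

/-- Rows and columns of `A` can be ordered, independently of each other, in such a way that all
2 x 2 minors are nonnegative. -/
def Orderable {q : ℕ} (A : Matrix (Fin q) (Fin q) ℝ) : Prop :=
  ∃ ρ κ : Equiv.Perm (Fin q), ∀ i i' j j' : Fin q, i ≤ i' → j ≤ j' →
    A (ρ i) (κ j') * A (ρ i') (κ j) ≤ A (ρ i) (κ j) * A (ρ i') (κ j')

variable {q : ℕ}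

/-- two independent rows span all rows -/
theorem RankTwo_span (A : Matrix (Fin q) (Fin q) ℝ) (hr : A.rank ≤ 2) (i1 i2 j1 j2 : Fin q)
    (h : A i1 j1 * A i2 j2 ≠ A i1 j2 * A i2 j1) (i : Fin q) :
    ∃ x y : ℝ, ∀ j, A i j = x * A i1 j + y * A i2 j := by
  have hli : LinearIndependent ℝ ![A i1, A i2] := by
    rw [LinearIndependent.pair_iff]
    intro s t hst
    have e1 : s * A i1 j1 + t * A i2 j1 = 0 := congrFun hst j1
    have e2 : s * A i1 j2 + t * A i2 j2 = 0 := congrFun hst j2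
    have h' : A i1 j1 * A i2 j2 - A i1 j2 * A i2 j1 ≠ 0 := sub_ne_zero.2 h
    constructor
    · have h1 : s * (A i1 j1 * A i2 j2 - A i1 j2 * A i2 j1) = 0 := by
        linear_combination A i2 j2 * e1 - A i2 j1 * e2
      exact (mul_eq_zero.1 h1).resolve_right h'
    · have h1 : t * (A i1 j1 * A i2 j2 - A i1 j2 * A i2 j1) = 0 := by
        linear_combination A i1 j1 * e2 - A i1 j2 * e1
      exact (mul_eq_zero.1 h1).resolve_right h'
  have h1 := finrank_span_eq_card hli
  rw [Fintype.card_fin] at h1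
  have h2 : Submodule.span ℝ (Set.range ![A i1, A i2]) ≤
      Submodule.span ℝ (Set.range A.row) := by
    apply Submodule.span_mono
    rintro _ ⟨k, rfl⟩
    fin_cases k
    · exact ⟨i1, rfl⟩
    · exact ⟨i2, rfl⟩
  have h3 : Module.finrank ℝ (Submodule.span ℝ (Set.range A.row)) ≤
      Module.finrank ℝ (Submodule.span ℝ (Set.range ![A i1, A i2])) := by
    rw [h1, ← Matrix.rank_eq_finrank_span_row]
    exact hr
  have h4 := Submodule.eq_of_le_of_finrank_le h2 h3
  have h5 : A i ∈ Submodule.span ℝ (Set.range ![A i1, A i2]) := by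
    rw [h4]
    exact Submodule.subset_span ⟨i, rfl⟩
  rw [Matrix.range_cons, Matrix.range_cons, Matrix.range_empty, Set.union_empty,
    Set.singleton_union, Submodule.mem_span_pair] at h5
  obtain ⟨x, y, hxy⟩ := h5
  refine ⟨x, y, fun j => ?_⟩
  rw [← hxy]
  rfl

/-- MATRICES OF RANK AT MOST 2.
PROOF. Let `s i = ∑ j, A i j`. Rows with `s i = 0` are zero. If all nonzero rows are proportional, all minors are zero. Otherwise take two nonzero rows `i1, i2` with
`A i1 / s i1 ≠ A i2 / s i2`: `u = A i1 / s i1`, `w = A i2 / s i2 - u`; as the rank is at most 2 every row is a combination of `u` and `u + w`, and comparing the sums of the coordinates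
(`∑ u = 1`, `∑ w = 0`) `A i = s i • (u + t i • w)`. So `A i j A i' j' - A i j' A i' j = s i s i' (t i' - t i) (u j w j' - u j' w j)`. Let `c j = ∑ i, A i j = S u j + T w j`, `S = ∑ s i > 0`,
`T = ∑ s i t i`; then `S (u j w j' - u j' w j) = c j w j' - c j' w j`; columns with `c j = 0` are zero (and then `u j = w j = 0`). Sort the rows by `t i` and the columns by `w j / c j`
(`Tuple.sort`). -/
theorem rank_two (A : Matrix (Fin q) (Fin q) ℝ) (h0 : ∀ i j, 0 ≤ A i j) (hr : A.rank ≤ 2) :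
    Orderable A := by
  by_cases h : ∀ i1 i2 j1 j2, A i1 j1 * A i2 j2 = A i1 j2 * A i2 j1
  · exact ⟨1, 1, fun i i' j j' _ _ => (h _ _ _ _).ge⟩
  push Not at h
  obtain ⟨i1, i2, j1, j2, h⟩ := h
  choose x y hxy using RankTwo_span A hr i1 i2 j1 j2 h
  obtain ⟨p, hp⟩ : ∃ p : ℝ, p = ∑ j, A i1 j := ⟨_, rfl⟩
  obtain ⟨r, hr'⟩ : ∃ r : ℝ, r = ∑ j, A i2 j := ⟨_, rfl⟩
  have hp0 : 0 < p := by
    rw [hp]
    apply lt_of_le_of_ne (Finset.sum_nonneg fun j _ => h0 i1 j)
    intro hz
    rw [eq_comm, Finset.sum_eq_zero_iff_of_nonneg (fun j _ => h0 i1 j)] at hz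
    apply h
    rw [hz j1 (Finset.mem_univ _), hz j2 (Finset.mem_univ _), zero_mul, zero_mul]
  obtain ⟨s, hs⟩ : ∃ s : Fin q → ℝ, ∀ i, s i = ∑ j, A i j := ⟨_, fun _ => rfl⟩
  have hs1 : ∀ i, s i = x i * p + y i * r := by
    intro i
    rw [hs, hp, hr', Finset.mul_sum, Finset.mul_sum, ← Finset.sum_add_distrib]
    exact Finset.sum_congr rfl fun j _ => hxy i j
  obtain ⟨c, hc⟩ : ∃ c : Fin q → ℝ, ∀ j, c j = ∑ i, A i j := ⟨_, fun _ => rfl⟩
  have hc1 : ∀ j, c j = (∑ i, x i) * A i1 j + (∑ i, y i) * A i2 j := by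
    intro j
    rw [hc, Finset.sum_mul, Finset.sum_mul, ← Finset.sum_add_distrib]
    exact Finset.sum_congr rfl fun i _ => hxy i j
  obtain ⟨S, hS⟩ : ∃ S : ℝ, S = (∑ i, x i) * p + (∑ i, y i) * r := ⟨_, rfl⟩
  have hS0 : 0 < S := by
    have e1 : S = ∑ i, s i := by
      rw [hS, Finset.sum_mul, Finset.sum_mul, ← Finset.sum_add_distrib]
      exact Finset.sum_congr rfl fun i _ => (hs1 i).symm
    rw [e1]
    have e2 : s i1 ≤ ∑ i, s i := by
      apply Finset.single_le_sum (f := s) (fun i _ => ?_) (Finset.mem_univ i1)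
      rw [hs]
      exact Finset.sum_nonneg fun j _ => h0 i j
    have e3 : s i1 = p := by rw [hs, hp]
    rw [← e3] at hp0
    exact lt_of_lt_of_le hp0 e2
  obtain ⟨w, hw⟩ : ∃ w : Fin q → ℝ, ∀ j, w j = A i2 j * p - A i1 j * r := ⟨_, fun _ => rfl⟩
  have hs00 : ∀ i, 0 ≤ s i := fun i => by
    rw [hs]
    exact Finset.sum_nonneg fun j _ => h0 i j
  have hc00 : ∀ j, 0 ≤ c j := fun j => by
    rw [hc]
    exact Finset.sum_nonneg fun i _ => h0 i j
  have hrow : ∀ i, s i = 0 → ∀ j, A i j = 0 := by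
    intro i hi j
    rw [hs, Finset.sum_eq_zero_iff_of_nonneg (fun j _ => h0 i j)] at hi
    exact hi j (Finset.mem_univ _)
  have hcol : ∀ j, c j = 0 → ∀ i, A i j = 0 := by
    intro j hj i
    rw [hc, Finset.sum_eq_zero_iff_of_nonneg (fun i _ => h0 i j)] at hj
    exact hj i (Finset.mem_univ _)
  -- the main inequality
  have key : ∀ a a' b b' : Fin q, y a / s a ≤ y a' / s a' → w b / c b ≤ w b' / c b' →
      A a b' * A a' b ≤ A a b * A a' b' := by
    intro a a' b b' h1 h2
    by_cases e1 : s a = 0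
    · rw [hrow a e1, hrow a e1, zero_mul, zero_mul]
    by_cases e2 : s a' = 0
    · rw [hrow a' e2, hrow a' e2, mul_zero, mul_zero]
    by_cases e3 : c b = 0
    · rw [hcol b e3, hcol b e3, mul_zero, zero_mul]
    by_cases e4 : c b' = 0
    · rw [hcol b' e4, hcol b' e4, mul_zero, zero_mul]
    have p1 : 0 < s a := lt_of_le_of_ne (hs00 a) (Ne.symm e1)
    have p2 : 0 < s a' := lt_of_le_of_ne (hs00 a') (Ne.symm e2)
    have p3 : 0 < c b := lt_of_le_of_ne (hc00 b) (Ne.symm e3)
    have p4 : 0 < c b' := lt_of_le_of_ne (hc00 b') (Ne.symm e4)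
    rw [div_le_div_iff₀ p1 p2] at h1
    rw [div_le_div_iff₀ p3 p4] at h2
    have q1 : 0 ≤ p * (x a * y a' - x a' * y a) := by
      have q2 : p * (x a * y a' - x a' * y a) = y a' * s a - y a * s a' := by
        rw [hs1 a, hs1 a']
        ring
      rw [q2]
      linarith
    have q3 : 0 ≤ S * (A i1 b * A i2 b' - A i1 b' * A i2 b) := by
      have q4 : S * (A i1 b * A i2 b' - A i1 b' * A i2 b) = w b' * c b - w b * c b' := by
        rw [hS, hw, hw, hc1 b, hc1 b']
        ring
      rw [q4]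
      linarith
    have q5 := nonneg_of_mul_nonneg_right q1 hp0
    have q6 := nonneg_of_mul_nonneg_right q3 hS0
    have q7 : A a b * A a' b' - A a b' * A a' b =
        (x a * y a' - x a' * y a) * (A i1 b * A i2 b' - A i1 b' * A i2 b) := by
      rw [hxy a b, hxy a' b', hxy a b', hxy a' b]
      ring
    have q8 := mul_nonneg q5 q6
    linarith
  refine ⟨Tuple.sort (fun i => y i / s i), Tuple.sort (fun j => w j / c j),
    fun i i' j j' hi hj => ?_⟩
  exact key _ _ _ _ (Tuple.monotone_sort (fun i => y i / s i) hi)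
    (Tuple.monotone_sort (fun j => w j / c j) hj)

end TPB
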