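import Pool.Agent.W_5dd92e_h55.Zero
import Pool.Agent.W_5dd92e_h55.RankTwo

/-! # The limit theorem -/

set_option autoImplicit false

open Finset Filter Topology
open scoped Classical

namespace TPB

universe u

/-- The partition function `Z(G, A)` of the problem: the sum over all maps `σ : V → {1, ..., q}` of the
product over the edges `uv` of `G` of `A (σ u) (σ v)`. -/
noncomputable def Zpart {V : Type u} [Fintype V] {q : ℕ} (G : SimpleGraph V)
    (A : Matrix (Fin q) (Fin q) ℝ) (hA : A.IsSymm) : ℝ :=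
  ∑ σ : V → Fin q, ∏ e ∈ G.edgeFinset,
    Sym2.lift ⟨fun u v => A (σ u) (σ v), fun u v => (hA.apply (σ u) (σ v)).symm⟩ e

variable {q : ℕ}

/-- from edges to ordered edges -/
theorem Zpart_eq {V : Type u} [Fintype V] (G : SimpleGraph V) (c : V → Bool) (hc : Prp G c)
    (A : Matrix (Fin q) (Fin q) ℝ) (hA : A.IsSymm) : Zpart G A hA = ZB G c A := by
  unfold Zpart ZB wt
  refine Finset.sum_congr rfl fun σ _ => ?_
  symm
  refine Finset.prod_bij (fun e _ => s(e.1, e.2)) ?_ ?_ ?_ ?_
  · intro e he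
    unfold ed at he
    rw [mem_filter] at he
    rw [SimpleGraph.mem_edgeFinset, SimpleGraph.mem_edgeSet]
    exact he.2.1
  · intro e he e' he' h
    unfold ed at he he'
    rw [mem_filter] at he he'
    rw [Sym2.eq_iff] at h
    rcases h with ⟨h1, h2⟩ | ⟨h1, h2⟩
    · exact Prod.ext h1 h2
    · exfalso
      have h3 := hc _ _ he.2.1
      rw [he.2.2, h2, he'.2.2] at h3
      exact h3 rfl
  · intro e he
    induction e using Sym2.ind with
    | _ x y =>
      rw [SimpleGraph.mem_edgeFinset, SimpleGraph.mem_edgeSet] at he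
      by_cases hx : c x = true
      · refine ⟨(x, y), ?_, rfl⟩
        unfold ed
        rw [mem_filter]
        exact ⟨mem_univ _, he, hx⟩
      · refine ⟨(y, x), ?_, Sym2.eq_swap⟩
        unfold ed
        rw [mem_filter]
        refine ⟨mem_univ _, he.symm, ?_⟩
        have h3 := hc _ _ he
        rw [Bool.not_eq_true] at hx
        rw [hx] at h3
        cases hy : c y
        · rw [hy] at h3; exact absurd rfl h3
        · rfl
  · intro e _
    rfl

/-- reordering rows and columns does not change the partition function of a bipartite graph -/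
theorem ZB_perm {V : Type u} [Fintype V] (G : SimpleGraph V) (c : V → Bool) (hc : Prp G c)
    (A : Fin q → Fin q → ℝ) (ρ κ : Equiv.Perm (Fin q)) :
    ZB G c A = ZB G c (fun i j => A (ρ i) (κ j)) := by
  unfold ZB
  symm
  refine Fintype.sum_equiv
    (Equiv.piCongrRight (fun v : V => if c v = true then ρ else κ)) _ _ (fun σ => ?_)
  unfold wt
  refine Finset.prod_congr rfl fun e he => ?_
  unfold ed at he
  rw [mem_filter] at he
  have h3 := hc _ _ he.2.1
  have h4 : c e.2 = false := by
    cases h : c e.2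
    · rfl
    · rw [he.2.2, h] at h3; exact absurd rfl h3
  simp [Equiv.piCongrRight, he.2.2, h4]

/-- reordering does not change the norm -/
theorem NN_perm (d : ℕ) (A : Fin q → Fin q → ℝ) (ρ κ : Equiv.Perm (Fin q)) :
    NN d A = NN d (fun i j => A (ρ i) (κ j)) := by
  have hf : ∀ p p' : Fin q → ℝ, form d (fun i j => A (ρ i) (κ j)) (fun i => p (ρ i))
      (fun j => p' (κ j)) = form d A p p' := by
    intro p p'
    unfold form
    rw [← Equiv.sum_comp ρ (fun i => ∑ j, A i j * (p i * p' j) ^ (((d : ℝ) - 1) / d))]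
    refine Finset.sum_congr rfl fun i _ => ?_
    rw [← Equiv.sum_comp κ (fun j => A (ρ i) j * (p (ρ i) * p' j) ^ (((d : ℝ) - 1) / d))]
  have hP : ∀ (p : Fin q → ℝ) (τ : Equiv.Perm (Fin q)), Pv p → Pv (fun i => p (τ i)) := by
    intro p τ hp
    refine ⟨fun i => hp.1 _, ?_⟩
    rw [Equiv.sum_comp τ p]
    exact hp.2
  unfold NN
  congr 1
  ext x
  constructor
  · rintro ⟨p, p', hp, hp', rfl⟩
    exact ⟨_, _, hP p ρ hp, hP p' κ hp', (hf p p').symm⟩
  · rintro ⟨p, p', hp, hp', rfl⟩
    refine ⟨fun i => p (ρ.symm i), fun j => p' (κ.symm j), hP p _ hp, hP p' _ hp', ?_⟩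
    rw [← hf]
    simp

/-- a proper colouring by `Bool` from bipartiteness -/
theorem exists_col {V : Type u} (G : SimpleGraph V) (h : G.IsBipartite) :
    ∃ c : V → Bool, Prp G c := by
  obtain ⟨C⟩ := h
  refine ⟨fun v => decide (C v = 0), fun u v huv => ?_⟩
  have h1 := C.valid huv
  intro h2
  apply h1
  have h3 := decide_eq_decide.mp h2
  by_cases h4 : C u = 0
  · rw [h4, h3.mp h4]
  · have h5 : C v ≠ 0 := fun h => h4 (h3.mpr h)
    omega

theorem rgl_of {V : Type u} [Fintype V] (G : SimpleGraph V) (d : ℕ)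
    (h : G.IsRegularOfDegree d) : Rgl G d := by
  intro v
  rw [← h v, ← SimpleGraph.card_neighborFinset_eq_degree]
  congr 1
  ext w
  simp

/-- THE LIMIT THEOREM -/
theorem limit_thm (d : ℕ) (hd : 1 ≤ d) (A : Matrix (Fin q) (Fin q) ℝ)
    (hA : A.IsSymm) (h0 : ∀ i j, 0 ≤ A i j) (hTP : Orderable A) (V : ℕ → Type u)
    [∀ n, Fintype (V n)] [∀ n, Nonempty (V n)] (G : ∀ n, SimpleGraph (V n))
    (hreg : ∀ n, (G n).IsRegularOfDegree d) (hbip : ∀ n, (G n).IsBipartite)
    (hgirth : Tendsto (fun n => (G n).egirth) atTop (𝓝 ⊤)) :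
    Tendsto (fun n => Zpart (G n) A hA ^ (1 / (Fintype.card (V n) : ℝ))) atTop
      (𝓝 (NN d A ^ ((d : ℝ) / 2))) := by
  have hd' : (0 : ℝ) < d := by exact_mod_cast hd
  choose c hc using fun n => exists_col (G n) (hbip n)
  have hR : ∀ n, Rgl (G n) d := fun n => rgl_of (G n) d (hreg n)
  have hn : ∀ n, (0 : ℝ) < Fintype.card (V n) := fun n => by exact_mod_cast Fintype.card_pos
  have hcard : ∀ n, ((ed (G n) (c n)).card : ℝ) = d * (Fintype.card (V n) : ℝ) / 2 := by
    intro n
    have := two_card_ed (G n) (c n) (hc n) d (hR n)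
    linarith
  by_cases hz : ∃ k l, 0 < A k l
  · obtain ⟨k, l, hkl⟩ := hz
    obtain ⟨ρ, κ, hTP'⟩ := hTP
    set B : Fin q → Fin q → ℝ := fun i j => A (ρ i) (κ j) with hB
    have hTPB : TP2 B := hTP'
    have hB0 : ∀ i j, 0 ≤ B i j := fun i j => h0 _ _
    have hBkl : 0 < B (ρ.symm k) (κ.symm l) := by simpa [hB] using hkl
    have hZ : ∀ n, Zpart (G n) A hA = ZB (G n) (c n) B := fun n => by
      rw [Zpart_eq (G n) (c n) (hc n) A hA, ZB_perm (G n) (c n) (hc n) A ρ κ]
    have hNN : NN d A = NN d B := NN_perm d A ρ κ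
    have hq : 0 < q := lt_of_le_of_lt (Nat.zero_le _) k.2
    have hN : 0 < NN d B := NN_pos0 d hd hq B hB0 _ _ hBkl
    have hlow : ∀ n, NN d B ^ ((d : ℝ) / 2) ≤ Zpart (G n) A hA ^ (1 / (Fintype.card (V n) : ℝ)) := by
      intro n
      have h1 := lower0 (G n) (c n) (hc n) d hd (hR n) B hB0 hTPB _ _ hBkl
      rw [hZ n]
      calc NN d B ^ ((d : ℝ) / 2)
          = (NN d B ^ (ed (G n) (c n)).card) ^ (1 / (Fintype.card (V n) : ℝ)) := by
            rw [← Real.rpow_natCast, ← Real.rpow_mul hN.le, hcard n]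
            congr 1
            have := hn n
            field_simp
        _ ≤ _ := Real.rpow_le_rpow (by positivity) h1 (by have := hn n; positivity)
    rw [hNN]
    rw [Metric.tendsto_atTop]
    intro ε hε
    have hNd : 0 < NN d B ^ ((d : ℝ) / 2) := Real.rpow_pos_of_pos hN _
    -- choose η with N^{d/2} e^η < N^{d/2} + ε
    obtain ⟨η, hη, hηε⟩ : ∃ η : ℝ, 0 < η ∧
        NN d B ^ ((d : ℝ) / 2) * Real.exp η < NN d B ^ ((d : ℝ) / 2) + ε := by
      refine ⟨Real.log (1 + ε / (2 * NN d B ^ ((d : ℝ) / 2))), ?_, ?_⟩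
      · apply Real.log_pos
        have : 0 < ε / (2 * NN d B ^ ((d : ℝ) / 2)) := by positivity
        linarith
      · rw [Real.exp_log (by positivity)]
        have : NN d B ^ ((d : ℝ) / 2) * (1 + ε / (2 * NN d B ^ ((d : ℝ) / 2))) =
            NN d B ^ ((d : ℝ) / 2) + ε / 2 := by
          field_simp
        rw [this]
        linarith
    obtain ⟨g, hg⟩ := upper0.{u} d hd B hB0 hTPB _ _ hBkl η hη
    have hev : ∀ᶠ n in atTop, (g : ℕ∞) ≤ (G n).egirth := by
      have h1 : ∀ᶠ x in 𝓝 (⊤ : ℕ∞), (g : ℕ∞) < x := lt_mem_nhds (ENat.coe_lt_top g)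
      exact (hgirth.eventually h1).mono fun n h => h.le
    obtain ⟨n0, hn0⟩ := eventually_atTop.mp hev
    refine ⟨n0, fun n hnn => ?_⟩
    have h1 := hg (V n) (G n) (c n) (hc n) (hR n) (hn0 n hnn)
    have h2 : Zpart (G n) A hA ^ (1 / (Fintype.card (V n) : ℝ)) ≤
        NN d B ^ ((d : ℝ) / 2) * Real.exp η := by
      rw [hZ n]
      have hZ0 : 0 ≤ ZB (G n) (c n) B :=
        Finset.sum_nonneg fun σ _ => Finset.prod_nonneg fun e _ => hB0 _ _
      calc ZB (G n) (c n) B ^ (1 / (Fintype.card (V n) : ℝ))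
          ≤ (NN d B ^ (ed (G n) (c n)).card * Real.exp (η * Fintype.card (V n))) ^
              (1 / (Fintype.card (V n) : ℝ)) :=
            Real.rpow_le_rpow hZ0 h1 (by have := hn n; positivity)
        _ = NN d B ^ ((d : ℝ) / 2) * Real.exp η := by
            rw [Real.mul_rpow (by positivity) (Real.exp_pos _).le, ← Real.rpow_natCast,
              ← Real.rpow_mul hN.le, ← Real.exp_mul, hcard n]
            have := hn n
            congr 1
            · congr 1
              field_simp
            · congr 1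
              field_simp
    rw [Real.dist_eq, abs_lt]
    have h3 := hlow n
    constructor <;> linarith
  · push Not at hz
    have hA0 : ∀ i j, A i j = 0 := fun i j => le_antisymm (hz i j) (h0 i j)
    have hZ : ∀ n, Zpart (G n) A hA = 0 := by
      intro n
      rw [Zpart_eq (G n) (c n) (hc n) A hA]
      unfold ZB wt
      refine Finset.sum_eq_zero fun σ _ => ?_
      have hpos : 0 < (ed (G n) (c n)).card := by
        have h1 := hcard n
        have h2 := hn n
        have h3 : (0 : ℝ) < ((ed (G n) (c n)).card : ℝ) := by rw [h1]; positivity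
        exact_mod_cast h3
      obtain ⟨e, he⟩ := Finset.card_pos.mp hpos
      exact Finset.prod_eq_zero he (hA0 _ _)
    have hNN : NN d A = 0 := by
      unfold NN
      have : {x : ℝ | ∃ p p' : Fin q → ℝ, Pv p ∧ Pv p' ∧ x = form d A p p'} ⊆ {0} := by
        rintro x ⟨p, p', _, _, rfl⟩
        unfold form
        simp [hA0]
      rcases Set.subset_singleton_iff_eq.mp this with h | h
      · rw [h, Real.sSup_empty]
      · rw [h, csSup_singleton]
    rw [hNN, Real.zero_rpow (by positivity)]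
    refine tendsto_const_nhds.congr fun n => ?_
    rw [hZ n, Real.zero_rpow]
    have := hn n
    positivity

end TPB
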