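import Pool.Agent.W_5dd92e_h55.Defs

/-! # The abstract entropy lemma: chain rules along a total order -/

set_option autoImplicit false

open Finset
open scoped Classical

namespace TPB

variable {V : Type*} [Fintype V]

/-- the elements of `A` before `w` -/
noncomputable def bef (rk : V → ℕ) (A : Finset V) (w : V) : Finset V :=
  A.filter (fun x => rk x < rk w)

/-- `h(w | F) = H(F + w) - H(F)` -/
noncomputable def hc (H : Finset V → ℝ) (w : V) (F : Finset V) : ℝ := H (insert w F) - H F

/-- `L(N, F)`: information about the vertices of `N` from the earlier vertices of `F` -/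
noncomputable def LL (H : Finset V → ℝ) (rk : V → ℕ) (N F : Finset V) : ℝ :=
  ∑ w ∈ N, (hc H w (bef rk N w) - hc H w (bef rk (N ∪ F) w))

/-- chain rule.
PROOF. induction on `A` removing the element of largest rank. -/
theorem chain (H : Finset V → ℝ) (h0 : H ∅ = 0) (rk : V → ℕ) (hr : Function.Injective rk)
    (A : Finset V) : H A = ∑ w ∈ A, hc H w (bef rk A w) := by
  induction A using Finset.induction_on_max_value rk with
  | empty => rw [Finset.sum_empty, h0]
  | insert a s ha hmax ih =>
    rw [Finset.sum_insert ha]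
    have h1 : bef rk (insert a s) a = s := by
      ext x
      simp only [bef, Finset.mem_filter, Finset.mem_insert]
      constructor
      · rintro ⟨rfl | h, h2⟩
        · exact absurd h2 (lt_irrefl _)
        · exact h
      · intro h
        refine ⟨Or.inr h, lt_of_le_of_ne (hmax x h) fun h2 => ha ?_⟩
        rw [← hr h2]; exact h
    have h2 : ∀ w ∈ s, bef rk (insert a s) w = bef rk s w := by
      intro w hw
      ext x
      simp only [bef, Finset.mem_filter, Finset.mem_insert]
      constructor
      · rintro ⟨rfl | h, h2⟩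
        · exact absurd (hmax w hw) (not_le.2 h2)
        · exact ⟨h, h2⟩
      · rintro ⟨h, h2⟩
        exact ⟨Or.inr h, h2⟩
    rw [h1, Finset.sum_congr rfl fun w hw => by rw [h2 w hw], ← ih]
    unfold hc
    ring

/-- conditioning on more decreases `hc` -/
theorem hc_anti (H : Finset V → ℝ) (hsub : ∀ A B, H (A ∪ B) + H (A ∩ B) ≤ H A + H B)
    (w : V) (F F' : Finset V) (hF : F ⊆ F') (hw : w ∉ F') : hc H w F' ≤ hc H w F := by
  have h := hsub (insert w F) F'
  have h1 : insert w F ∪ F' = insert w F' := by
    rw [Finset.insert_union, Finset.union_eq_right.2 hF]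
  have h2 : insert w F ∩ F' = F := by
    rw [Finset.insert_inter_of_notMem hw, Finset.inter_eq_left.2 hF]
  rw [h1, h2] at h
  unfold hc
  linarith

/-- `L(N,F) + L(F,N) = H(N) + H(F) - H(N ∪ F)` for disjoint `N`, `F` (from `chain`) -/
theorem LL_add (H : Finset V → ℝ) (h0 : H ∅ = 0) (rk : V → ℕ) (hr : Function.Injective rk)
    (N F : Finset V) (hNF : Disjoint N F) : LL H rk N F + LL H rk F N = H N + H F - H (N ∪ F) := by
  have h1 := chain H h0 rk hr N
  have h2 := chain H h0 rk hr F
  have h3 := chain H h0 rk hr (N ∪ F)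
  rw [Finset.sum_union hNF] at h3
  unfold LL
  rw [Finset.union_comm F N, Finset.sum_sub_distrib, Finset.sum_sub_distrib]
  linarith

/-- adding a set `F'` to the condition costs at most the sum of the pair terms.
PROOF. induction on `F'` with `hcv`. -/
theorem hc_step (H : Finset V → ℝ) (cv : V → V → ℝ)
    (hcv : ∀ (w w' : V) (S : Finset V), w ≠ w' → w ∉ S → w' ∉ S →
      H (insert w S) + H (insert w' S) - H (insert w (insert w' S)) - H S ≤ cv w w')
    (w : V) (F F' : Finset V) (hw : w ∉ F ∪ F') (hFF : Disjoint F F') :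
    hc H w F - hc H w (F ∪ F') ≤ ∑ w' ∈ F', cv w w' := by
  induction F' using Finset.induction_on with
  | empty => simp
  | insert a s ha ih =>
    rw [Finset.sum_insert ha]
    have hw1 : w ∉ F ∪ s := by
      intro h
      apply hw
      rcases Finset.mem_union.1 h with h | h
      · exact Finset.mem_union_left _ h
      · exact Finset.mem_union_right _ (Finset.mem_insert_of_mem h)
    have hFs : Disjoint F s := hFF.mono_right (Finset.subset_insert _ _)
    have haF : a ∉ F := fun h => Finset.disjoint_left.1 hFF h (Finset.mem_insert_self _ _)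
    have hwa : w ≠ a := by
      rintro rfl
      exact hw (Finset.mem_union_right _ (Finset.mem_insert_self _ _))
    have haS : a ∉ F ∪ s := by
      intro h
      rcases Finset.mem_union.1 h with h | h
      · exact haF h
      · exact ha h
    have h1 := ih hw1 hFs
    have h2 := hcv w a (F ∪ s) hwa hw1 haS
    have h3 : F ∪ insert a s = insert a (F ∪ s) := Finset.union_insert _ _ _
    rw [h3]
    unfold hc at h1 ⊢
    linarith

/-- `I(X ; D | C) ≤ ∑ cv` for pairwise disjoint `X, D, C`.
PROOF. induction on `X` with `hc_step`: `H(X∪C)-H(C) - (H(X∪D∪C) - H(D∪C))` is a sum of terms `hc w F - hc w (F ∪ D)`. -/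
theorem mi_sum (H : Finset V → ℝ) (cv : V → V → ℝ)
    (hcv : ∀ (w w' : V) (S : Finset V), w ≠ w' → w ∉ S → w' ∉ S →
      H (insert w S) + H (insert w' S) - H (insert w (insert w' S)) - H S ≤ cv w w')
    (X D C : Finset V) (hXD : Disjoint X D) (hXC : Disjoint X C) (hDC : Disjoint D C) :
    H (X ∪ C) + H (D ∪ C) - H (X ∪ D ∪ C) - H C ≤ ∑ w ∈ X, ∑ w' ∈ D, cv w w' := by
  induction X using Finset.induction_on with
  | empty => simp
  | insert a X ha ih =>
    rw [Finset.sum_insert ha]
    have hXD' : Disjoint X D := hXD.mono_left (Finset.subset_insert _ _)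
    have hXC' : Disjoint X C := hXC.mono_left (Finset.subset_insert _ _)
    have haD : a ∉ D := fun h => Finset.disjoint_left.1 hXD (Finset.mem_insert_self _ _) h
    have haC : a ∉ C := fun h => Finset.disjoint_left.1 hXC (Finset.mem_insert_self _ _) h
    have h1 := ih hXD' hXC'
    have h2 := hc_step H cv hcv a (X ∪ C) D (by
      simp only [Finset.mem_union, not_or]
      exact ⟨⟨ha, haC⟩, haD⟩) (Finset.disjoint_union_left.2 ⟨hXD', hDC.symm⟩)
    have h3 : X ∪ C ∪ D = X ∪ D ∪ C := by
      rw [Finset.union_assoc, Finset.union_comm C D, ← Finset.union_assoc]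
    rw [h3] at h2
    have h4 : insert a X ∪ C = insert a (X ∪ C) := Finset.insert_union _ _ _
    have h5 : insert a X ∪ D ∪ C = insert a (X ∪ D ∪ C) := by
      rw [Finset.insert_union, Finset.insert_union]
    rw [h4, h5]
    unfold hc at h2
    linarith

/-- `∑_c (H(v ∪ T_c) - H(v)) ≥ H(v ∪ ⋃ T_c) - H(v)` (submodularity, induction on `N`; the `T c` are pairwise disjoint and avoid `v`) -/
theorem star_sub (H : Finset V → ℝ) (hsub : ∀ A B, H (A ∪ B) + H (A ∩ B) ≤ H A + H B)
    (v : V) (N : Finset V) (T : V → Finset V) (hv : ∀ c ∈ N, v ∉ T c)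
    (hd : ∀ c ∈ N, ∀ c' ∈ N, c ≠ c' → Disjoint (T c) (T c')) :
    H (insert v (N.biUnion T)) - H {v} ≤ ∑ c ∈ N, (H (insert v (T c)) - H {v}) := by
  induction N using Finset.induction_on with
  | empty => simp
  | insert c N hc ih =>
    rw [Finset.sum_insert hc, Finset.biUnion_insert]
    have h1 := ih (fun c' hc' => hv c' (Finset.mem_insert_of_mem hc'))
      (fun a ha b hb => hd a (Finset.mem_insert_of_mem ha) b (Finset.mem_insert_of_mem hb))
    have h2 := hsub (insert v (T c)) (insert v (N.biUnion T))
    have h3 : insert v (T c) ∪ insert v (N.biUnion T) = insert v (T c ∪ N.biUnion T) := by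
      ext x
      simp only [Finset.mem_union, Finset.mem_insert]
      tauto
    have h4 : insert v (T c) ∩ insert v (N.biUnion T) = {v} := by
      rw [← Finset.insert_inter_distrib]
      have h5 : T c ∩ N.biUnion T = ∅ := by
        rw [← Finset.disjoint_iff_inter_eq_empty, Finset.disjoint_biUnion_right]
        intro c' hc'
        exact hd c (Finset.mem_insert_self _ _) c' (Finset.mem_insert_of_mem hc')
          (fun h => hc (h ▸ hc'))
      rw [h5]
      rfl
    rw [h3, h4] at h2
    linarith

/-- one vertex: `H(v) - h(v | B_{<v}) = M_v - ∑_c L(T_c, B \ T_c)` with `M_v = H(v) + ∑_c H(T_c) - H(B)`,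
`B = {v} ∪ ⋃ T_c` (disjoint).  PROOF. `chain` for `B` and for every `T_c`; `T_c ∪ (B \ T_c) = B`. -/
theorem star_id (H : Finset V → ℝ) (h0 : H ∅ = 0) (rk : V → ℕ) (hr : Function.Injective rk)
    (v : V) (N : Finset V) (T : V → Finset V) (B : Finset V) (hB : B = insert v (N.biUnion T))
    (hv : ∀ c ∈ N, v ∉ T c) (hd : ∀ c ∈ N, ∀ c' ∈ N, c ≠ c' → Disjoint (T c) (T c')) :
    H {v} - hc H v (bef rk B v) =
      H {v} + ∑ c ∈ N, H (T c) - H B - ∑ c ∈ N, LL H rk (T c) (B \ T c) := by
  have hvN : v ∉ N.biUnion T := by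
    intro h
    obtain ⟨c, hc, h⟩ := Finset.mem_biUnion.1 h
    exact hv c hc h
  have h1 : H B = hc H v (bef rk B v) + ∑ c ∈ N, ∑ w ∈ T c, hc H w (bef rk B w) := by
    have h2 := chain H h0 rk hr B
    rw [h2]
    conv_lhs => rw [hB]
    rw [Finset.sum_insert hvN, Finset.sum_biUnion]
    · rw [← hB]
    · intro a ha b hb hab
      exact hd a ha b hb hab
  have h2 : ∀ c ∈ N, LL H rk (T c) (B \ T c) = H (T c) - ∑ w ∈ T c, hc H w (bef rk B w) := by
    intro c hc'
    have h3 : T c ∪ (B \ T c) = B := by
      apply Finset.union_sdiff_of_subset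
      rw [hB]
      exact (Finset.subset_biUnion_of_mem T hc').trans (Finset.subset_insert _ _)
    unfold LL
    rw [h3, Finset.sum_sub_distrib, ← chain H h0 rk hr (T c)]
  rw [Finset.sum_congr rfl h2, Finset.sum_sub_distrib]
  linarith

end TPB
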