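import Pool.Agent.W_5dd92e_h55.AbsA

/-! # The abstract entropy lemma -/

set_option autoImplicit false

open Finset
open scoped Classical

namespace TPB

variable {V : Type*} [Fintype V]

/-- the ordered adjacent pairs -/
noncomputable def adp (G : SimpleGraph V) : Finset (V × V) :=
  univ.filter (fun p => G.Adj p.1 p.2)

/-- sums over ordered adjacent pairs: `∑_{adp} f (u,v) = ∑_{ed} (f (u,v) + f (v,u))` -/
theorem adp_sum (G : SimpleGraph V) (c : V → Bool) (hp : Prp G c) (f : V → V → ℝ) :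
    ∑ p ∈ adp G, f p.1 p.2 = ∑ e ∈ ed G c, (f e.1 e.2 + f e.2 e.1) := by
  rw [Finset.sum_add_distrib, ← Finset.sum_filter_add_sum_filter_not (adp G)
    (fun p => c p.1 = true)]
  congr 1
  · apply Finset.sum_congr _ fun _ _ => rfl
    ext p
    simp only [adp, ed, mem_filter, mem_univ, true_and]
  · refine Finset.sum_bij (fun p _ => (p.2, p.1)) ?_ ?_ ?_ ?_
    · intro p h
      simp only [adp, ed, mem_filter, mem_univ, true_and] at h ⊢
      refine ⟨h.1.symm, ?_⟩
      have h2 := hp _ _ h.1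
      cases h3 : c p.2
      · exfalso
        rw [h3] at h2
        exact h.2 (by simpa using h2)
      · rfl
    · intro a _ b _ h
      simp only [Prod.mk.injEq] at h
      exact Prod.ext h.2 h.1
    · intro e h
      simp only [adp, ed, mem_filter, mem_univ, true_and] at h ⊢
      refine ⟨(e.2, e.1), ⟨h.1.symm, ?_⟩, rfl⟩
      intro h3
      exact hp _ _ h.1 (by rw [h.2]; exact h3.symm)
    · intro p _
      rfl

/-- double sums over neighbours are sums over ordered adjacent pairs -/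
theorem AbsB_aux1 (G : SimpleGraph V) (f : V → V → ℝ) :
    ∑ v, ∑ u ∈ univ.filter (fun u => G.Adj v u), f v u = ∑ p ∈ adp G, f p.1 p.2 := by
  unfold adp
  rw [Finset.sum_filter, Fintype.sum_prod_type]
  refine Finset.sum_congr rfl fun v _ => ?_
  rw [Finset.sum_filter]

theorem AbsB_aux2 (G : SimpleGraph V) (f : V → V → ℝ) :
    ∑ p ∈ adp G, f p.2 p.1 = ∑ p ∈ adp G, f p.1 p.2 := by
  refine Finset.sum_bij (fun p _ => (p.2, p.1)) ?_ ?_ ?_ ?_
  · intro p h
    simp only [adp, mem_filter, mem_univ, true_and] at h ⊢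
    exact h.symm
  · intro a _ b _ h
    simp only [Prod.mk.injEq] at h
    exact Prod.ext h.2 h.1
  · intro e h
    simp only [adp, mem_filter, mem_univ, true_and] at h ⊢
    exact ⟨(e.2, e.1), h.symm, rfl⟩
  · intro p _
    rfl

/-- step (3) -/
theorem AbsB_aux3 (H : Finset V → ℝ) (rk : V → ℕ) (cv : V → V → ℝ)
    (hcv : ∀ (w w' : V) (S : Finset V), w ≠ w' → w ∉ S → w' ∉ S →
      H (insert w S) + H (insert w' S) - H (insert w (insert w' S)) - H S ≤ cv w w')
    (hpos : ∀ w w', w ≠ w' → 0 ≤ cv w w')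
    (N F F' : Finset V) (hF : F ⊆ F') (hN : Disjoint N F') :
    LL H rk N F' ≤ LL H rk N F + ∑ w ∈ N, ∑ w' ∈ F' \ F, cv w w' := by
  unfold LL
  rw [← Finset.sum_add_distrib]
  refine Finset.sum_le_sum fun w hw => ?_
  have hw0 : ∀ A : Finset V, w ∉ bef rk A w := by
    intro A h
    simp only [bef, mem_filter, lt_self_iff_false, and_false] at h
  have hwF : w ∉ F' := Finset.disjoint_left.1 hN hw
  have e : bef rk (N ∪ F') w = bef rk (N ∪ F) w ∪ bef rk (F' \ F) w := by
    ext x
    simp only [bef, mem_filter, mem_union, mem_sdiff]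
    constructor
    · rintro ⟨h1 | h1, h2⟩
      · exact Or.inl ⟨Or.inl h1, h2⟩
      · by_cases h3 : x ∈ F
        · exact Or.inl ⟨Or.inr h3, h2⟩
        · exact Or.inr ⟨⟨h1, h3⟩, h2⟩
    · rintro (⟨h1 | h1, h2⟩ | ⟨⟨h1, -⟩, h2⟩)
      · exact ⟨Or.inl h1, h2⟩
      · exact ⟨Or.inr (hF h1), h2⟩
      · exact ⟨Or.inr h1, h2⟩
  have hd : Disjoint (bef rk (N ∪ F) w) (bef rk (F' \ F) w) := by
    rw [Finset.disjoint_left]
    intro x h1 h2
    simp only [bef, mem_filter, mem_union, mem_sdiff] at h1 h2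
    rcases h1.1 with h | h
    · exact Finset.disjoint_left.1 hN h h2.1.1
    · exact h2.1.2 h
  have h1 := hc_step H cv hcv w (bef rk (N ∪ F) w) (bef rk (F' \ F) w)
    (by rw [mem_union, not_or]; exact ⟨hw0 _, hw0 _⟩) hd
  rw [← e] at h1
  have h2 : ∑ w' ∈ bef rk (F' \ F) w, cv w w' ≤ ∑ w' ∈ F' \ F, cv w w' := by
    refine Finset.sum_le_sum_of_subset_of_nonneg (Finset.filter_subset _ _) ?_
    intro x hx _
    refine hpos w x ?_
    rintro rfl
    exact hwF (Finset.mem_sdiff.1 hx).1
  linarith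

/-- ABSTRACT ENTROPY LEMMA. Here `T x y` is `S_{R-1}(x,y)`, `T' x y` is `S_R(x,y)`, `B v` is the ball of radius `R`.
PROOF (proofs row 242, (U3)). Choose an injective `rk` (`Fintype.equivFin`).
(1) `∑ H{v} - H(univ) = ∑_v (H{v} - hc v (bef univ v))` (`chain`) `≥ ∑_v (H{v} - hc v (bef (B v) v))` (`hc_anti`).
(2) `star_id` with `N` = neighbours of `v`, `T = fun c => T c v`, `B v \ T c v = T' v c`; `star_sub` gives
`H{v} + ∑_c H(T c v) - H(B v) ≥ ∑_c (H{v} + H(T c v) - H(insert v (T c v)))`.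
(3) `LL (T c v) (T' v c) ≤ LL (T c v) (T v c) + ∑_{w ∈ T c v} ∑_{w' ∈ T' v c \ T v c} cv w w'`: termwise `hc_step` with
`F = bef (T c v ∪ T v c) w`, `F' = bef (T' v c \ T v c) w` (and `cv ≥ 0` for distinct vertices, by submodularity and `hcv`).
(4) `adp_sum` for `f c v = LL (T c v) (T v c)` and `LL_add`.
(5) for `e = (u,v)`, `X = T u v \ {u}`, `Q = T v u \ {v}`: `(H{v}+H(T u v)-H(T u v + v)) + (H{u}+H(T v u)-H(T v u + u)) - (H(T u v)+H(T v u)-H(T u v ∪ T v u))
= (H{u}+H{v}-H{u,v}) - (H(X ∪ {u,v}) + H(Q ∪ {u,v}) - H(X ∪ Q ∪ {u,v}) - H{u,v})`.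
(6) with `D = T' v u \ T v u`, `C = {u,v}`: `I(X;Q|C) ≤ I(X; Q ∪ D | C) = I(X;D|C) + I(X;Q|C ∪ D) ≤ ∑_{w ∈ X} ∑_{w' ∈ D} cv w w' + 0` by `mi_sum`, submodularity and `hM`. -/
theorem abs_ent (G : SimpleGraph V) (c : V → Bool) (hp : Prp G c) (H : Finset V → ℝ)
    (h0 : H ∅ = 0) (hsub : ∀ A B, H (A ∪ B) + H (A ∩ B) ≤ H A + H B) (cv : V → V → ℝ)
    (hcv : ∀ (w w' : V) (S : Finset V), w ≠ w' → w ∉ S → w' ∉ S →
      H (insert w S) + H (insert w' S) - H (insert w (insert w' S)) - H S ≤ cv w w')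
    (T T' : V → V → Finset V) (B : V → Finset V)
    (h1 : ∀ x y, G.Adj x y → x ∈ T x y ∧ T x y ⊆ T' x y)
    (h2 : ∀ v, B v = insert v ((univ.filter (fun c => G.Adj v c)).biUnion (fun c => T c v)))
    (h3 : ∀ v c, G.Adj v c → v ∉ T c v)
    (h4 : ∀ v c c', G.Adj v c → G.Adj v c' → c ≠ c' → Disjoint (T c v) (T c' v))
    (h5 : ∀ v c, G.Adj v c → T' v c = B v \ T c v)
    (hM : ∀ u v, G.Adj u v →
      H ((T u v).erase u ∪ ({u, v} ∪ (T' v u \ T v u))) +
          H ((T v u).erase v ∪ ({u, v} ∪ (T' v u \ T v u))) ≤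
        H ((T u v).erase u ∪ (T v u).erase v ∪ ({u, v} ∪ (T' v u \ T v u))) +
          H ({u, v} ∪ (T' v u \ T v u))) :
    ∑ e ∈ ed G c, (H {e.1} + H {e.2} - H {e.1, e.2}) -
        2 * ∑ p ∈ adp G, ∑ w ∈ T p.1 p.2, ∑ w' ∈ T' p.2 p.1 \ T p.2 p.1, cv w w' ≤
      ∑ v, H {v} - H univ := by
  obtain ⟨rk, hr⟩ : ∃ rk : V → ℕ, Function.Injective rk :=
    ⟨fun v => (Fintype.equivFin V v : ℕ), fun a b h =>
      (Fintype.equivFin V).injective (Fin.ext h)⟩
  have hpos : ∀ w w', w ≠ w' → 0 ≤ cv w w' := by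
    intro w w' hne
    have k1 := hcv w w' ∅ hne (Finset.notMem_empty _) (Finset.notMem_empty _)
    have k2 := hsub {w} {w'}
    have e1 : ({w} : Finset V) ∩ {w'} = ∅ := by
      rw [← Finset.disjoint_iff_inter_eq_empty, Finset.disjoint_singleton]
      exact hne
    have e2 : ({w} : Finset V) ∪ {w'} = insert w (insert w' ∅) := rfl
    rw [e1, e2] at k2
    have e3 : insert w (∅ : Finset V) = {w} := rfl
    have e4 : insert w' (∅ : Finset V) = {w'} := rfl
    rw [e3, e4] at k1
    rw [e4] at k2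
    linarith
  set K : V → V → ℝ := fun x y => ∑ w ∈ T x y, ∑ w' ∈ T' y x \ T y x, cv w w' with hK
  have hdisj : ∀ u v, G.Adj u v → Disjoint (T u v) (T' v u) := by
    intro u v h
    rw [h5 v u h.symm]
    exact Finset.disjoint_sdiff
  have hKpos : ∀ u v, G.Adj u v → 0 ≤ K u v := by
    intro u v h
    refine Finset.sum_nonneg fun w hw => Finset.sum_nonneg fun w' hw' => hpos w w' ?_
    rintro rfl
    exact Finset.disjoint_left.1 (hdisj u v h) hw (Finset.mem_sdiff.1 hw').1
  -- (1), (2), (3)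
  have hv1 : ∀ v, ∑ u ∈ univ.filter (fun u => G.Adj v u),
      (H {v} + H (T u v) - H (insert v (T u v)) - LL H rk (T u v) (T v u) - K u v) ≤
      H {v} - hc H v (bef rk univ v) := by
    intro v
    have hv : ∀ u ∈ univ.filter (fun u => G.Adj v u), v ∉ (fun c => T c v) u := by
      intro u hu
      exact h3 v u (by simpa using hu)
    have hd : ∀ u ∈ univ.filter (fun u => G.Adj v u), ∀ u' ∈ univ.filter (fun u => G.Adj v u),
        u ≠ u' → Disjoint ((fun c => T c v) u) ((fun c => T c v) u') := by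
      intro u hu u' hu' hne
      exact h4 v u u' (by simpa using hu) (by simpa using hu') hne
    have k1 := star_id H h0 rk hr v (univ.filter (fun u => G.Adj v u)) (fun c => T c v) (B v)
      (h2 v) hv hd
    have k2 := star_sub H hsub v (univ.filter (fun u => G.Adj v u)) (fun c => T c v) hv hd
    rw [← h2 v] at k2
    have k3 : hc H v (bef rk univ v) ≤ hc H v (bef rk (B v) v) := by
      refine hc_anti H hsub v _ _ ?_ ?_
      · intro x hx
        simp only [bef, mem_filter, mem_univ, true_and] at hx ⊢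
        exact hx.2
      · intro h
        simp only [bef, mem_filter, lt_self_iff_false, and_false] at h
    have k4 : ∑ u ∈ univ.filter (fun u => G.Adj v u), LL H rk (T u v) (B v \ T u v) ≤
        ∑ u ∈ univ.filter (fun u => G.Adj v u), (LL H rk (T u v) (T v u) + K u v) := by
      refine Finset.sum_le_sum fun u hu => ?_
      have ha : G.Adj v u := by simpa using hu
      rw [← h5 v u ha]
      exact AbsB_aux3 H rk cv hcv hpos (T u v) (T v u) (T' v u) (h1 v u ha).2 (hdisj u v ha.symm)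
    simp only [Finset.sum_sub_distrib, Finset.sum_add_distrib] at k1 k2 k4 ⊢
    linarith
  have hA := Finset.sum_le_sum (fun v (_ : v ∈ (univ : Finset V)) => hv1 v)
  rw [AbsB_aux1 G (fun v u => H {v} + H (T u v) - H (insert v (T u v)) -
    LL H rk (T u v) (T v u) - K u v)] at hA
  rw [Finset.sum_sub_distrib (s := (univ : Finset V)), ← chain H h0 rk hr univ] at hA
  -- split off the K terms
  have hB1 : ∑ p ∈ adp G, (H {p.1} + H (T p.2 p.1) - H (insert p.1 (T p.2 p.1)) -
      LL H rk (T p.2 p.1) (T p.1 p.2) - K p.2 p.1) =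
      ∑ p ∈ adp G, (H {p.1} + H (T p.2 p.1) - H (insert p.1 (T p.2 p.1)) -
      LL H rk (T p.2 p.1) (T p.1 p.2)) - ∑ p ∈ adp G, K p.1 p.2 := by
    rw [Finset.sum_sub_distrib, AbsB_aux2 G K]
  rw [hB1, adp_sum G c hp (fun v u => H {v} + H (T u v) - H (insert v (T u v)) -
      LL H rk (T u v) (T v u))] at hA
  -- (5), (6)
  have hE : ∀ e ∈ ed G c, H {e.1} + H {e.2} - H {e.1, e.2} - K e.1 e.2 ≤
      (H {e.1} + H (T e.2 e.1) - H (insert e.1 (T e.2 e.1)) - LL H rk (T e.2 e.1) (T e.1 e.2)) +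
      (H {e.2} + H (T e.1 e.2) - H (insert e.2 (T e.1 e.2)) -
        LL H rk (T e.1 e.2) (T e.2 e.1)) := by
    rintro ⟨u, v⟩ he
    have ha : G.Adj u v := by
      simp only [ed, mem_filter, mem_univ, true_and] at he
      exact he.1
    show H {u} + H {v} - H {u, v} - K u v ≤
      (H {u} + H (T v u) - H (insert u (T v u)) - LL H rk (T v u) (T u v)) +
      (H {v} + H (T u v) - H (insert v (T u v)) - LL H rk (T u v) (T v u))
    have hTT : Disjoint (T u v) (T v u) :=
      Finset.disjoint_of_subset_right (h1 v u ha.symm).2 (hdisj u v ha)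
    have hL := LL_add H h0 rk hr (T u v) (T v u) hTT
    set X := (T u v).erase u with hX
    set Q := (T v u).erase v with hQ
    set D := T' v u \ T v u with hD
    have huT : u ∈ T u v := (h1 u v ha).1
    have hvT : v ∈ T v u := (h1 v u ha.symm).1
    have hvn : v ∉ T u v := h3 v u ha.symm
    have hun : u ∉ T v u := h3 u v ha
    have hunD : u ∉ D := by
      intro h
      exact Finset.disjoint_left.1 (hdisj u v ha) huT (Finset.mem_sdiff.1 h).1
    have hvnD : v ∉ D := by
      intro h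
      exact (Finset.mem_sdiff.1 h).2 hvT
    have hXD : Disjoint X D := by
      rw [Finset.disjoint_left]
      intro x h1' h2'
      exact Finset.disjoint_left.1 (hdisj u v ha) (Finset.mem_of_mem_erase h1')
        (Finset.mem_sdiff.1 h2').1
    have hXC : Disjoint X {u, v} := by
      rw [Finset.disjoint_left]
      intro x h1' h2'
      simp only [mem_insert, mem_singleton] at h2'
      rcases h2' with rfl | rfl
      · exact Finset.notMem_erase _ _ h1'
      · exact hvn (Finset.mem_of_mem_erase h1')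
    have hDC : Disjoint D {u, v} := by
      rw [Finset.disjoint_left]
      intro x h1' h2'
      simp only [mem_insert, mem_singleton] at h2'
      rcases h2' with rfl | rfl
      · exact hunD h1'
      · exact hvnD h1'
    have e1 : insert v (T u v) = X ∪ {u, v} := by
      ext x
      simp only [hX, mem_insert, mem_union, mem_erase, mem_singleton]
      constructor
      · rintro (h | h)
        · exact Or.inr (Or.inr h)
        · by_cases h' : x = u
          · exact Or.inr (Or.inl h')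
          · exact Or.inl ⟨h', h⟩
      · rintro (⟨-, h⟩ | h | h)
        · exact Or.inr h
        · rw [h]; exact Or.inr huT
        · exact Or.inl h
    have e2 : insert u (T v u) = Q ∪ {u, v} := by
      ext x
      simp only [hQ, mem_insert, mem_union, mem_erase, mem_singleton]
      constructor
      · rintro (h | h)
        · exact Or.inr (Or.inl h)
        · by_cases h' : x = v
          · exact Or.inr (Or.inr h')
          · exact Or.inl ⟨h', h⟩
      · rintro (⟨-, h⟩ | h | h)
        · exact Or.inr h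
        · exact Or.inl h
        · rw [h]; exact Or.inr hvT
    have e3 : T u v ∪ T v u = X ∪ Q ∪ {u, v} := by
      ext x
      simp only [hX, hQ, mem_insert, mem_union, mem_erase, mem_singleton]
      constructor
      · rintro (h | h)
        · by_cases h' : x = u
          · exact Or.inr (Or.inl h')
          · exact Or.inl (Or.inl ⟨h', h⟩)
        · by_cases h' : x = v
          · exact Or.inr (Or.inr h')
          · exact Or.inl (Or.inr ⟨h', h⟩)
      · rintro ((⟨-, h⟩ | ⟨-, h⟩) | h | h)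
        · exact Or.inl h
        · exact Or.inr h
        · rw [h]; exact Or.inl huT
        · rw [h]; exact Or.inr hvT
    have m1 := hM u v ha
    have m2 := mi_sum H cv hcv X D {u, v} hXD hXC hDC
    have m3 := hsub (X ∪ Q ∪ {u, v}) (Q ∪ {u, v} ∪ D)
    have e4 : (X ∪ Q ∪ {u, v}) ∪ (Q ∪ {u, v} ∪ D) = X ∪ Q ∪ ({u, v} ∪ D) := by
      ext x
      simp only [mem_union]
      tauto
    have e5 : (X ∪ Q ∪ {u, v}) ∩ (Q ∪ {u, v} ∪ D) = Q ∪ {u, v} := by
      ext x
      have h9 : x ∈ X → x ∉ D := fun h => Finset.disjoint_left.1 hXD h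
      simp only [mem_union, mem_inter]
      tauto
    have e6 : Q ∪ {u, v} ∪ D = Q ∪ ({u, v} ∪ D) := Finset.union_assoc _ _ _
    have e7 : X ∪ D ∪ {u, v} = X ∪ ({u, v} ∪ D) := by
      ext x
      simp only [mem_union]
      tauto
    have e8 : D ∪ {u, v} = {u, v} ∪ D := Finset.union_comm _ _
    rw [e4, e5, e6] at m3
    rw [e7, e8] at m2
    have m4 : ∑ w ∈ X, ∑ w' ∈ D, cv w w' ≤ K u v := by
      refine Finset.sum_le_sum_of_subset_of_nonneg (Finset.erase_subset _ _) ?_
      intro w hw hw2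
      refine Finset.sum_nonneg fun w' hw' => hpos w w' ?_
      rintro rfl
      exact Finset.disjoint_left.1 (hdisj u v ha) hw (Finset.mem_sdiff.1 hw').1
    rw [e1, e2]
    rw [e3] at hL
    linarith
  have hF := Finset.sum_le_sum hE
  rw [Finset.sum_sub_distrib (s := ed G c)] at hF
  have hG : ∑ e ∈ ed G c, K e.1 e.2 ≤ ∑ p ∈ adp G, K p.1 p.2 := by
    rw [adp_sum G c hp K, Finset.sum_add_distrib]
    have : 0 ≤ ∑ e ∈ ed G c, K e.2 e.1 := by
      refine Finset.sum_nonneg fun e he => ?_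
      simp only [ed, mem_filter, mem_univ, true_and] at he
      exact hKpos _ _ he.1.symm
    linarith
  show ∑ e ∈ ed G c, (H {e.1} + H {e.2} - H {e.1, e.2}) - 2 * ∑ p ∈ adp G, K p.1 p.2 ≤
    ∑ v, H {v} - H univ
  linarith

end TPB
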