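import Mathlib

/-!
# MP_5dd92e_co, targets with nonnegative 2 x 2 minors (helper55): definitions

Paper proof: proofs row 242.  Spins are elements of `Fin q` (values `0, ..., q-1`), configurations are maps
`V → Fin q`, ordered pointwise.  A bipartite graph comes with a colouring `c : V → Bool`; the vertices with
`c v = true` are the rows, the others the columns.
-/

set_option autoImplicit false

open Finset
open scoped Classical

namespace TPB

/-- all 2 x 2 minors are nonnegative -/
def TP2 {q : ℕ} (B : Fin q → Fin q → ℝ) : Prop :=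
  ∀ i i' j j', i ≤ i' → j ≤ j' → B i j' * B i' j ≤ B i j * B i' j'

/-- log-supermodular weights -/
def LSM {q : ℕ} {V : Type*} (w : (V → Fin q) → ℝ) : Prop :=
  ∀ σ τ, w σ * w τ ≤ w (σ ⊓ τ) * w (σ ⊔ τ)

/-- probability vectors -/
def Pv {q : ℕ} (p : Fin q → ℝ) : Prop := (∀ i, 0 ≤ p i) ∧ ∑ i, p i = 1

/-- the bilinear form `∑ B i j (p i)^((d-1)/d) (p' j)^((d-1)/d)` -/
noncomputable def form {q : ℕ} (d : ℕ) (B : Fin q → Fin q → ℝ) (p p' : Fin q → ℝ) : ℝ :=
  ∑ i, ∑ j, B i j * (p i * p' j) ^ (((d : ℝ) - 1) / d)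

/-- the maximum of the form (the norm of `B` from `l_{d/(d-1)}` to `l_d`) -/
noncomputable def NN {q : ℕ} (d : ℕ) (B : Fin q → Fin q → ℝ) : ℝ :=
  sSup {x : ℝ | ∃ p p' : Fin q → ℝ, Pv p ∧ Pv p' ∧ x = form d B p p'}

section
variable {q : ℕ} {V : Type*} [Fintype V]

/-- the edges, directed from the rows to the columns -/
noncomputable def ed (G : SimpleGraph V) (c : V → Bool) : Finset (V × V) :=
  univ.filter (fun e => G.Adj e.1 e.2 ∧ c e.1 = true)

/-- the weight of a configuration -/
noncomputable def wt (G : SimpleGraph V) (c : V → Bool) (B : Fin q → Fin q → ℝ)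
    (σ : V → Fin q) : ℝ := ∏ e ∈ ed G c, B (σ e.1) (σ e.2)

/-- the partition function -/
noncomputable def ZB (G : SimpleGraph V) (c : V → Bool) (B : Fin q → Fin q → ℝ) : ℝ :=
  ∑ σ : V → Fin q, wt G c B σ

/-- `c` is a proper 2-colouring -/
def Prp (G : SimpleGraph V) (c : V → Bool) : Prop := ∀ u v, G.Adj u v → c u ≠ c v

/-- `G` is regular of degree `d` -/
def Rgl (G : SimpleGraph V) (d : ℕ) : Prop := ∀ v, (univ.filter (fun w => G.Adj v w)).card = d

/-- GOOD weights (lower bound): for all positive vertex weights `α` the weighted sum is at least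
`exp (∑ E log α)`; `ν v` are probability vectors -/
def Good (ν : V → Fin q → ℝ) (w : (V → Fin q) → ℝ) : Prop :=
  ∀ α : V → Fin q → ℝ, (∀ v i, 0 < α v i) →
    Real.exp (∑ v, ∑ i, ν v i * Real.log (α v i)) ≤
      ∑ σ : V → Fin q, (∏ v, ν v (σ v) * α v (σ v)) * w σ

/-! ## Probability weights, marginals, entropy -/

/-- positive probability weights -/
structure PW (μ : (V → Fin q) → ℝ) : Prop where
  pos : ∀ σ, 0 < μ σ
  sum : ∑ σ, μ σ = 1

/-- the configurations which agree with `τ` on `S` -/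
noncomputable def cyl (S : Finset V) (τ : V → Fin q) : Finset (V → Fin q) :=
  univ.filter (fun σ => ∀ v ∈ S, σ v = τ v)

/-- the probability of the pattern of `τ` on `S` -/
noncomputable def mg (μ : (V → Fin q) → ℝ) (S : Finset V) (τ : V → Fin q) : ℝ :=
  ∑ σ ∈ cyl S τ, μ σ

/-- expectation -/
noncomputable def Ex (μ : (V → Fin q) → ℝ) (f : (V → Fin q) → ℝ) : ℝ := ∑ τ, μ τ * f τ

/-- entropy of the restriction to `S` -/
noncomputable def Hs (μ : (V → Fin q) → ℝ) (S : Finset V) : ℝ :=
  -∑ τ, μ τ * Real.log (mg μ S τ)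

/-- conditional expectation given the restriction to `S` -/
noncomputable def CE (μ : (V → Fin q) → ℝ) (S : Finset V) (f : (V → Fin q) → ℝ)
    (τ : V → Fin q) : ℝ := (∑ σ ∈ cyl S τ, μ σ * f σ) / mg μ S τ

/-- covariance of the spins at `u` and `v` -/
noncomputable def Cv (μ : (V → Fin q) → ℝ) (u v : V) : ℝ :=
  Ex μ (fun σ => ((σ u : ℕ) : ℝ) * ((σ v : ℕ) : ℝ)) -
    Ex μ (fun σ => ((σ u : ℕ) : ℝ)) * Ex μ (fun σ => ((σ v : ℕ) : ℝ))

/-- single site bound: every value has conditional probability at least `c` -/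
def SSB (μ : (V → Fin q) → ℝ) (c : ℝ) : Prop :=
  ∀ (S : Finset V) (w : V) (τ : V → Fin q), w ∉ S → c * mg μ S τ ≤ mg μ (insert w S) τ

/-- the sum of the spins -/
noncomputable def XX (σ : V → Fin q) : ℝ := ∑ v, ((σ v : ℕ) : ℝ)

/-- partition function with field `h` -/
noncomputable def Zh (w : (V → Fin q) → ℝ) (h : ℝ) : ℝ := ∑ σ, w σ * Real.exp (h * XX σ)

/-- the Gibbs weight with field `h` -/
noncomputable def muh (w : (V → Fin q) → ℝ) (h : ℝ) (σ : V → Fin q) : ℝ :=
  w σ * Real.exp (h * XX σ) / Zh w h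

/-! ## Geometry -/

/-- the vertices within distance `a` of `x` which are closer to `x` than to `y` -/
noncomputable def SS (G : SimpleGraph V) (a : ℕ) (x y : V) : Finset V :=
  univ.filter (fun w => G.Reachable x w ∧ G.dist x w ≤ a ∧ G.dist x w < G.dist y w)

/-- the ball of radius `a` -/
noncomputable def Bl (G : SimpleGraph V) (a : ℕ) (v : V) : Finset V :=
  univ.filter (fun w => G.Reachable v w ∧ G.dist v w ≤ a)

/-- the pairs with distance in `(R, 2 R]` -/
noncomputable def Pr (G : SimpleGraph V) (R : ℕ) : Finset (V × V) :=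
  univ.filter (fun p => G.Reachable p.1 p.2 ∧ R < G.dist p.1 p.2 ∧ G.dist p.1 p.2 ≤ 2 * R)

end

end TPB
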