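import Pool.Agent.W_5dd92e_h55.Defs

/-! # Double counting of edges -/

set_option autoImplicit false

open Finset
open scoped Classical

namespace TPB

theorem Deg_aux_mul {V : Type*} [Fintype V] {M : Type*} [CommMonoid M] (G : SimpleGraph V)
    (c : V → Bool) (hc : Prp G c) (d : ℕ) (hreg : Rgl G d) (a : V → M) :
    ∏ v, a v ^ d = ∏ e ∈ ed G c, (a e.1 * a e.2) := by
  have h1 : ∀ v, a v ^ d = ∏ w, if G.Adj v w then a v else 1 := by
    intro v
    rw [← Finset.prod_filter, Finset.prod_const, hreg v]
  have h2 : ∏ v, a v ^ d = ∏ e : V × V, if G.Adj e.1 e.2 then a e.1 else 1 := by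
    rw [Fintype.prod_prod_type]
    exact Finset.prod_congr rfl (fun v _ => h1 v)
  rw [h2, ← Finset.prod_filter,
    ← Finset.prod_filter_mul_prod_filter_not (univ.filter (fun e : V × V => G.Adj e.1 e.2))
      (fun e => c e.1 = true), Finset.prod_mul_distrib]
  congr 1
  · rw [Finset.filter_filter]
    rfl
  · refine Finset.prod_bij' (fun e _ => (e.2, e.1)) (fun e _ => (e.2, e.1)) ?_ ?_ ?_ ?_ ?_
    · intro e he
      simp only [Finset.mem_filter, Finset.mem_univ, true_and] at he
      simp only [ed, Finset.mem_filter, Finset.mem_univ, true_and]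
      refine ⟨he.1.symm, ?_⟩
      have := hc _ _ he.1
      cases h : c e.2 with
      | true => rfl
      | false =>
        rw [h] at this
        exact absurd (by simpa using this) he.2
    · intro e he
      simp only [ed, Finset.mem_filter, Finset.mem_univ, true_and] at he
      simp only [Finset.mem_filter, Finset.mem_univ, true_and]
      refine ⟨he.1.symm, ?_⟩
      have := hc _ _ he.1
      rw [he.2] at this
      exact fun h => this h.symm
    · intro e _
      rfl
    · intro e _
      rfl
    · intro e _
      rfl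

theorem Deg_aux_add {V : Type*} [Fintype V] {M : Type*} [AddCommMonoid M] (G : SimpleGraph V)
    (c : V → Bool) (hc : Prp G c) (d : ℕ) (hreg : Rgl G d) (a : V → M) :
    ∑ v, d • a v = ∑ e ∈ ed G c, (a e.1 + a e.2) := by
  have h1 : ∀ v, d • a v = ∑ w, if G.Adj v w then a v else 0 := by
    intro v
    rw [← Finset.sum_filter, Finset.sum_const, hreg v]
  have h2 : ∑ v, d • a v = ∑ e : V × V, if G.Adj e.1 e.2 then a e.1 else 0 := by
    rw [Fintype.sum_prod_type]
    exact Finset.sum_congr rfl (fun v _ => h1 v)
  rw [h2, ← Finset.sum_filter,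
    ← Finset.sum_filter_add_sum_filter_not (univ.filter (fun e : V × V => G.Adj e.1 e.2))
      (fun e => c e.1 = true), Finset.sum_add_distrib]
  congr 1
  · rw [Finset.filter_filter]
    rfl
  · refine Finset.sum_bij' (fun e _ => (e.2, e.1)) (fun e _ => (e.2, e.1)) ?_ ?_ ?_ ?_ ?_
    · intro e he
      simp only [Finset.mem_filter, Finset.mem_univ, true_and] at he
      simp only [ed, Finset.mem_filter, Finset.mem_univ, true_and]
      refine ⟨he.1.symm, ?_⟩
      have := hc _ _ he.1
      cases h : c e.2 with
      | true => rfl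
      | false =>
        rw [h] at this
        exact absurd (by simpa using this) he.2
    · intro e he
      simp only [ed, Finset.mem_filter, Finset.mem_univ, true_and] at he
      simp only [Finset.mem_filter, Finset.mem_univ, true_and]
      refine ⟨he.1.symm, ?_⟩
      have := hc _ _ he.1
      rw [he.2] at this
      exact fun h => this h.symm
    · intro e _
      rfl
    · intro e _
      rfl
    · intro e _
      rfl

/-- double counting: every vertex lies in `d` edges.
PROOF. `d * f v = ∑_{w ~ v} f v`; the sum over all ordered adjacent pairs `(v, w)` of `f v` splits into the pairs with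
`c v = true` (these are `ed`) and those with `c v = false` (swap them: then `c w = true`). -/
theorem sum_deg {V : Type*} [Fintype V] (G : SimpleGraph V) (c : V → Bool) (hc : Prp G c) (d : ℕ)
    (hreg : Rgl G d) (f : V → ℝ) : (d : ℝ) * ∑ v, f v = ∑ e ∈ ed G c, (f e.1 + f e.2) := by
  have h := Deg_aux_add G c hc d hreg f
  rw [← h, Finset.mul_sum]
  exact Finset.sum_congr rfl (fun v _ => (nsmul_eq_mul _ _).symm)

/-- `2 * #ed = d * n` (from `sum_deg` with `f = 1`) -/
theorem two_card_ed {V : Type*} [Fintype V] (G : SimpleGraph V) (c : V → Bool) (hc : Prp G c)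
    (d : ℕ) (hreg : Rgl G d) : (d : ℝ) * (Fintype.card V : ℝ) = 2 * ((ed G c).card : ℝ) := by
  have h := sum_deg G c hc d hreg (fun _ => 1)
  rw [Finset.sum_const, Finset.sum_const, Finset.card_univ, nsmul_eq_mul, nsmul_eq_mul,
    mul_one] at h
  rw [h]
  ring

/-- product form of `sum_deg`: `∏ v, a v ^ d = ∏ e ∈ ed, a e.1 * a e.2` -/
theorem prod_deg {V : Type*} [Fintype V] (G : SimpleGraph V) (c : V → Bool) (hc : Prp G c) (d : ℕ)
    (hreg : Rgl G d) (a : V → ℝ) : ∏ v, a v ^ d = ∏ e ∈ ed G c, (a e.1 * a e.2) :=
  Deg_aux_mul G c hc d hreg a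

end TPB
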