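import Pool.Agent.W_5dd92e_h55.Defs

/-! # Marginals and entropy -/

set_option autoImplicit false

open Finset
open scoped Classical

namespace TPB

variable {q : ℕ} {V : Type*} [Fintype V]

theorem EntA_mem_cyl {S : Finset V} {σ τ : V → Fin q} :
    σ ∈ cyl S τ ↔ ∀ v ∈ S, σ v = τ v := by
  unfold cyl
  rw [Finset.mem_filter]
  exact ⟨fun h => h.2, fun h => ⟨Finset.mem_univ _, h⟩⟩

theorem EntA_cyl_comm {S : Finset V} {σ τ : V → Fin q} : σ ∈ cyl S τ ↔ τ ∈ cyl S σ := by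
  rw [EntA_mem_cyl, EntA_mem_cyl]
  exact ⟨fun h v hv => (h v hv).symm, fun h v hv => (h v hv).symm⟩

/-- marginals are positive (`τ` is in its own cylinder) -/
theorem mg_pos {μ : (V → Fin q) → ℝ} (hμ : PW μ) (S : Finset V) (τ : V → Fin q) :
    0 < mg μ S τ := by
  unfold mg
  exact Finset.sum_pos (fun σ _ => hμ.pos σ) ⟨τ, EntA_mem_cyl.2 fun _ _ => rfl⟩

/-- the marginal depends only on the restriction to `S` -/
theorem mg_congr (μ : (V → Fin q) → ℝ) (S : Finset V) (σ τ : V → Fin q)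
    (h : ∀ v ∈ S, σ v = τ v) : mg μ S σ = mg μ S τ := by
  have h1 : cyl S σ = cyl S τ := by
    ext ρ
    rw [EntA_mem_cyl, EntA_mem_cyl]
    exact ⟨fun h' v hv => (h' v hv).trans (h v hv), fun h' v hv => (h' v hv).trans (h v hv).symm⟩
  unfold mg
  rw [h1]

theorem Hs_empty {μ : (V → Fin q) → ℝ} (hμ : PW μ) : Hs μ ∅ = 0 := by
  have h1 : ∀ τ : V → Fin q, mg μ ∅ τ = 1 := by
    intro τ
    have h2 : cyl (∅ : Finset V) τ = univ := by
      ext ρ
      rw [EntA_mem_cyl]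
      exact ⟨fun _ => Finset.mem_univ _, fun _ v hv => absurd hv (Finset.notMem_empty v)⟩
    unfold mg
    rw [h2, hμ.sum]
  unfold Hs
  simp only [h1, Real.log_one, mul_zero, Finset.sum_const_zero, neg_zero]

theorem Hs_univ (μ : (V → Fin q) → ℝ) : Hs μ univ = -∑ τ, μ τ * Real.log (μ τ) := by
  have h1 : ∀ τ : V → Fin q, mg μ univ τ = μ τ := by
    intro τ
    have h2 : cyl (univ : Finset V) τ = {τ} := by
      ext ρ
      rw [EntA_mem_cyl, Finset.mem_singleton]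
      exact ⟨fun h => funext fun v => h v (Finset.mem_univ v), fun h v _ => by rw [h]⟩
    unfold mg
    rw [h2, Finset.sum_singleton]
  unfold Hs
  simp only [h1]

/-- averaging over the sites outside `S`: if `g` depends only on the restriction to `S`, then
`∑ τ, μ τ * g τ / mg μ S τ * (∑ σ ∈ cyl S τ, μ σ f σ) = ∑ σ, μ σ g σ f σ`.
PROOF. exchange the sums; `σ ∈ cyl S τ ↔ τ ∈ cyl S σ`, then `g τ = g σ`, `mg μ S τ = mg μ S σ` and `∑ τ ∈ cyl S σ, μ τ = mg μ S σ`. -/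
theorem tower {μ : (V → Fin q) → ℝ} (hμ : PW μ) (S : Finset V) (f g : (V → Fin q) → ℝ)
    (hg : ∀ σ τ : V → Fin q, (∀ v ∈ S, σ v = τ v) → g σ = g τ) :
    Ex μ (fun τ => g τ * CE μ S f τ) = Ex μ (fun τ => g τ * f τ) := by
  have h1 : ∀ τ : V → Fin q, μ τ * (g τ * CE μ S f τ) =
      ∑ σ : V → Fin q, if σ ∈ cyl S τ then μ τ * (g τ * (μ σ * f σ / mg μ S τ)) else 0 := by
    intro τ
    rw [← Finset.sum_filter, Finset.filter_mem_eq_inter, Finset.univ_inter]
    unfold CE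
    rw [Finset.sum_div, Finset.mul_sum, Finset.mul_sum]
  unfold Ex
  simp only [h1]
  rw [Finset.sum_comm]
  refine Finset.sum_congr rfl fun σ _ => ?_
  have h2 : ∀ τ : V → Fin q, (if σ ∈ cyl S τ then μ τ * (g τ * (μ σ * f σ / mg μ S τ)) else 0) =
      if τ ∈ cyl S σ then μ τ * (g σ * (μ σ * f σ / mg μ S σ)) else 0 := by
    intro τ
    by_cases h : σ ∈ cyl S τ
    · have h3 : ∀ v ∈ S, σ v = τ v := EntA_mem_cyl.1 h
      rw [if_pos h, if_pos (EntA_cyl_comm.1 h), hg σ τ h3, mg_congr μ S σ τ h3]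
    · rw [if_neg h, if_neg fun h' => h (EntA_cyl_comm.1 h')]
  simp only [h2]
  rw [← Finset.sum_filter, Finset.filter_mem_eq_inter, Finset.univ_inter, ← Finset.sum_mul]
  have h4 : ∑ i ∈ cyl S σ, μ i = mg μ S σ := rfl
  have h5 := (mg_pos hμ S σ).ne'
  rw [h4]
  field_simp

end TPB
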