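import Pool.Agent.W_5dd92e_h55.EntA

/-! # Mutual information and chi-square -/

set_option autoImplicit false

open Finset
open scoped Classical

namespace TPB

variable {q : ℕ} {V : Type*} [Fintype V]

private theorem cyl_congr (S : Finset V) (σ τ : V → Fin q) (h : ∀ v ∈ S, σ v = τ v) :
    cyl S σ = cyl S τ := by
  ext ρ
  simp only [cyl, Finset.mem_filter, Finset.mem_univ, true_and]
  constructor
  · intro H v hv; rw [H v hv, h v hv]
  · intro H v hv; rw [H v hv, h v hv]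

private theorem CE_congr (μ : (V → Fin q) → ℝ) (S : Finset V) (f : (V → Fin q) → ℝ)
    (σ τ : V → Fin q) (h : ∀ v ∈ S, σ v = τ v) : CE μ S f σ = CE μ S f τ := by
  unfold CE
  rw [cyl_congr S σ τ h, mg_congr μ S σ τ h]

private theorem mg_insert {μ : (V → Fin q) → ℝ} (hμ : PW μ) (S : Finset V) (w : V)
    (τ : V → Fin q) :
    mg μ (insert w S) τ = mg μ S τ * CE μ S (fun σ => if σ w = τ w then 1 else 0) τ := by
  unfold CE
  rw [mul_div_cancel₀ _ (mg_pos hμ S τ).ne']
  unfold mg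
  simp only [mul_ite, mul_one, mul_zero]
  rw [← Finset.sum_filter]
  refine Finset.sum_congr ?_ (fun _ _ => rfl)
  ext ρ
  simp only [cyl, Finset.mem_filter, Finset.mem_univ, true_and, Finset.mem_insert,
    forall_eq_or_imp]
  tauto

private theorem mg_insert2 {μ : (V → Fin q) → ℝ} (hμ : PW μ) (S : Finset V) (w w' : V)
    (τ : V → Fin q) :
    mg μ (insert w (insert w' S)) τ =
      mg μ S τ * CE μ S (fun σ => if σ w = τ w ∧ σ w' = τ w' then 1 else 0) τ := by
  unfold CE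
  rw [mul_div_cancel₀ _ (mg_pos hμ S τ).ne']
  unfold mg
  simp only [mul_ite, mul_one, mul_zero]
  rw [← Finset.sum_filter]
  refine Finset.sum_congr ?_ (fun _ _ => rfl)
  ext ρ
  simp only [cyl, Finset.mem_filter, Finset.mem_univ, true_and, Finset.mem_insert,
    forall_eq_or_imp]
  tauto

/-- the mutual information is at most the expected chi-square.
PROOF. Let `m_S = mg μ S`, `r = m_{S w w'} m_S / (m_{S w} m_{S w'})`; the left side is `Ex (log r) ≤ Ex (r - 1)`. At `τ` with `τ w = i`, `τ w' = j`: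
`m_{S w w'} τ / m_S τ = CE μ S (1{σ w = i, σ w' = j}) τ =: P τ i j`, and `m_{S w} τ / m_S τ = p τ i`, `m_{S w'} τ / m_S τ = p' τ j`; so
`Ex r = ∑ i j, Ex (1{τ w = i, τ w' = j} P i j / (p i p' j)) = ∑ i j, Ex (P i j ^ 2 / (p i p' j))` by `tower` (the functions `P i j`, `p i`, `p' j` depend
only on the restriction of `τ` to `S`). -/
theorem mi_chi {μ : (V → Fin q) → ℝ} (hμ : PW μ) (S : Finset V) (w w' : V) (hww : w ≠ w')
    (hw : w ∉ S) (hw' : w' ∉ S) :
    Hs μ (insert w S) + Hs μ (insert w' S) - Hs μ (insert w (insert w' S)) - Hs μ S ≤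
      Ex μ (fun τ => ∑ i, ∑ j, CE μ S (fun σ => if σ w = i ∧ σ w' = j then 1 else 0) τ ^ 2 /
        (CE μ S (fun σ => if σ w = i then 1 else 0) τ *
          CE μ S (fun σ => if σ w' = j then 1 else 0) τ) - 1) := by
  set P : Fin q → Fin q → (V → Fin q) → ℝ :=
    fun i j τ => CE μ S (fun σ => if σ w = i ∧ σ w' = j then 1 else 0) τ with hP
  set p : Fin q → (V → Fin q) → ℝ := fun i τ => CE μ S (fun σ => if σ w = i then 1 else 0) τ
    with hp
  set p' : Fin q → (V → Fin q) → ℝ := fun j τ => CE μ S (fun σ => if σ w' = j then 1 else 0) τ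
    with hp'
  set r : (V → Fin q) → ℝ := fun τ => P (τ w) (τ w') τ / (p (τ w) τ * p' (τ w') τ) with hr
  have m1 : ∀ τ, mg μ (insert w S) τ = mg μ S τ * p (τ w) τ := fun τ => mg_insert hμ S w τ
  have m2 : ∀ τ, mg μ (insert w' S) τ = mg μ S τ * p' (τ w') τ := fun τ => mg_insert hμ S w' τ
  have m3 : ∀ τ, mg μ (insert w (insert w' S)) τ = mg μ S τ * P (τ w) (τ w') τ :=
    fun τ => mg_insert2 hμ S w w' τ
  have q0 : ∀ τ, 0 < mg μ S τ := fun τ => mg_pos hμ S τ
  have q1 : ∀ τ, 0 < p (τ w) τ := by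
    intro τ
    have h := mg_pos hμ (insert w S) τ
    rw [m1 τ] at h
    exact (mul_pos_iff_of_pos_left (q0 τ)).1 h
  have q2 : ∀ τ, 0 < p' (τ w') τ := by
    intro τ
    have h := mg_pos hμ (insert w' S) τ
    rw [m2 τ] at h
    exact (mul_pos_iff_of_pos_left (q0 τ)).1 h
  have q3 : ∀ τ, 0 < P (τ w) (τ w') τ := by
    intro τ
    have h := mg_pos hμ (insert w (insert w' S)) τ
    rw [m3 τ] at h
    exact (mul_pos_iff_of_pos_left (q0 τ)).1 h
  have hrpos : ∀ τ, 0 < r τ := fun τ => div_pos (q3 τ) (mul_pos (q1 τ) (q2 τ))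
  have hL : Hs μ (insert w S) + Hs μ (insert w' S) - Hs μ (insert w (insert w' S)) - Hs μ S =
      ∑ τ, μ τ * Real.log (r τ) := by
    unfold Hs
    have : ∀ a b c d : ℝ, -a + -b - -c - -d = c + d - (a + b) := by intros; ring
    rw [this, ← Finset.sum_add_distrib, ← Finset.sum_add_distrib, ← Finset.sum_sub_distrib]
    refine Finset.sum_congr rfl (fun τ _ => ?_)
    rw [m1 τ, m2 τ, m3 τ]
    simp only [hr]
    rw [Real.log_div (q3 τ).ne' (mul_pos (q1 τ) (q2 τ)).ne',
      Real.log_mul (q1 τ).ne' (q2 τ).ne', Real.log_mul (q0 τ).ne' (q1 τ).ne',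
      Real.log_mul (q0 τ).ne' (q2 τ).ne', Real.log_mul (q0 τ).ne' (q3 τ).ne']
    ring
  rw [hL]
  have hle : ∑ τ, μ τ * Real.log (r τ) ≤ ∑ τ, μ τ * (r τ - 1) := by
    refine Finset.sum_le_sum (fun τ _ => ?_)
    refine mul_le_mul_of_nonneg_left ?_ (hμ.pos τ).le
    have := Real.log_le_sub_one_of_pos (hrpos τ)
    exact this
  refine hle.trans (le_of_eq ?_)
  unfold Ex
  have e1 : ∑ τ, μ τ * (r τ - 1) = ∑ τ, μ τ * r τ - 1 := by
    simp only [mul_sub, mul_one, Finset.sum_sub_distrib]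
    rw [hμ.sum]
  have e2 : ∑ τ, μ τ * (∑ i, ∑ j, P i j τ ^ 2 / (p i τ * p' j τ) - 1) =
      ∑ τ, μ τ * (∑ i, ∑ j, P i j τ ^ 2 / (p i τ * p' j τ)) - 1 := by
    simp only [mul_sub, mul_one, Finset.sum_sub_distrib]
    rw [hμ.sum]
  rw [e1, e2]
  congr 1
  -- the expectation of r
  have g1 : ∀ i j, Ex μ (fun τ => P i j τ / (p i τ * p' j τ) *
      CE μ S (fun σ => if σ w = i ∧ σ w' = j then 1 else 0) τ) =
      Ex μ (fun τ => P i j τ / (p i τ * p' j τ) * (if τ w = i ∧ τ w' = j then 1 else 0)) := by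
    intro i j
    refine tower hμ S (fun σ => if σ w = i ∧ σ w' = j then 1 else 0)
      (fun τ => P i j τ / (p i τ * p' j τ)) ?_
    intro σ τ h
    simp only [hP, hp, hp']
    rw [CE_congr μ S _ σ τ h, CE_congr μ S (fun σ => if σ w = i then 1 else 0) σ τ h,
      CE_congr μ S (fun σ => if σ w' = j then 1 else 0) σ τ h]
  have g2 : ∑ τ, μ τ * (∑ i, ∑ j, P i j τ ^ 2 / (p i τ * p' j τ)) =
      ∑ i, ∑ j, Ex μ (fun τ => P i j τ / (p i τ * p' j τ) *
        CE μ S (fun σ => if σ w = i ∧ σ w' = j then 1 else 0) τ) := by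
    unfold Ex
    simp only [Finset.mul_sum]
    rw [Finset.sum_comm]
    refine Finset.sum_congr rfl (fun i _ => ?_)
    rw [Finset.sum_comm]
    refine Finset.sum_congr rfl (fun j _ => ?_)
    refine Finset.sum_congr rfl (fun τ _ => ?_)
    show μ τ * (P i j τ ^ 2 / (p i τ * p' j τ)) =
      μ τ * (P i j τ / (p i τ * p' j τ) * P i j τ)
    ring
  rw [g2]
  simp only [g1]
  unfold Ex
  have g3 : ∑ i, ∑ j, ∑ τ, μ τ * (P i j τ / (p i τ * p' j τ) *
      (if τ w = i ∧ τ w' = j then (1 : ℝ) else 0)) =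
      ∑ τ, ∑ i, ∑ j, μ τ * (P i j τ / (p i τ * p' j τ) *
      (if τ w = i ∧ τ w' = j then (1 : ℝ) else 0)) := by
    rw [Finset.sum_comm (s := (univ : Finset (V → Fin q)))]
    refine Finset.sum_congr rfl (fun i _ => ?_)
    rw [Finset.sum_comm]
  rw [g3]
  refine Finset.sum_congr rfl (fun τ _ => ?_)
  rw [Finset.sum_eq_single (τ w)]
  · rw [Finset.sum_eq_single (τ w')]
    · simp only [hr, and_self, if_true, mul_one]
    · intro j _ hj
      rw [if_neg (fun h => hj h.2.symm)]; ring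
    · intro h; exact absurd (Finset.mem_univ _) h
  · intro i _ hi
    refine Finset.sum_eq_zero (fun j _ => ?_)
    rw [if_neg (fun h => hi h.1.symm)]; ring
  · intro h; exact absurd (Finset.mem_univ _) h

end TPB
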