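import Pool.Agent.W_5dd92e_h55.EntA

/-! # Positive association, conditionally -/

set_option autoImplicit false

open Finset
open scoped Classical

namespace TPB

variable {q : ℕ} {V : Type*} [Fintype V]

/-- the weight restricted to a cylinder -/
noncomputable def Fkg_w (μ : (V → Fin q) → ℝ) (S : Finset V) (τ σ : V → Fin q) : ℝ :=
  if σ ∈ cyl S τ then μ σ else 0

theorem Fkg_w_nonneg {μ : (V → Fin q) → ℝ} (hμ : PW μ) (S : Finset V) (τ σ : V → Fin q) :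
    0 ≤ Fkg_w μ S τ σ := by
  unfold Fkg_w
  split_ifs
  · exact (hμ.pos σ).le
  · exact le_refl _

theorem Fkg_sum (μ : (V → Fin q) → ℝ) (S : Finset V) (f : (V → Fin q) → ℝ)
    (τ : V → Fin q) : ∑ σ, Fkg_w μ S τ σ * f σ = ∑ σ ∈ cyl S τ, μ σ * f σ := by
  have h1 : ∀ σ : V → Fin q, Fkg_w μ S τ σ * f σ = if σ ∈ cyl S τ then μ σ * f σ else 0 := by
    intro σ
    unfold Fkg_w
    split_ifs
    · rfl
    · rw [zero_mul]
  simp only [h1]
  rw [← Finset.sum_filter, Finset.filter_mem_eq_inter, Finset.univ_inter]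

theorem Fkg_sum1 (μ : (V → Fin q) → ℝ) (S : Finset V)
    (τ : V → Fin q) : ∑ σ, Fkg_w μ S τ σ = mg μ S τ := by
  have h1 := Fkg_sum μ S (fun _ => 1) τ
  simp only [mul_one] at h1
  exact h1

/-- the two cylinder conditions are inherited by `⊓` and `⊔` -/
theorem Fkg_w_lsm {μ : (V → Fin q) → ℝ} (hμ : PW μ) (hl : LSM μ) (S : Finset V)
    {τ τ' : V → Fin q} (h : τ ≤ τ') (a b : V → Fin q) :
    Fkg_w μ S τ a * Fkg_w μ S τ' b ≤ Fkg_w μ S τ (a ⊓ b) * Fkg_w μ S τ' (a ⊔ b) := by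
  by_cases ha : a ∈ cyl S τ
  · by_cases hb : b ∈ cyl S τ'
    · have h1 : a ⊓ b ∈ cyl S τ := by
        rw [EntA_mem_cyl] at *
        intro v hv
        rw [Pi.inf_apply, ha v hv, hb v hv]
        exact inf_eq_left.2 (h v)
      have h2 : a ⊔ b ∈ cyl S τ' := by
        rw [EntA_mem_cyl] at *
        intro v hv
        rw [Pi.sup_apply, ha v hv, hb v hv]
        exact sup_eq_right.2 (h v)
      unfold Fkg_w
      rw [if_pos ha, if_pos hb, if_pos h1, if_pos h2]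
      exact hl a b
    · have h3 : Fkg_w μ S τ' b = 0 := by
        unfold Fkg_w
        rw [if_neg hb]
      rw [h3, mul_zero]
      exact mul_nonneg (Fkg_w_nonneg hμ _ _ _) (Fkg_w_nonneg hμ _ _ _)
  · have h3 : Fkg_w μ S τ a = 0 := by
      unfold Fkg_w
      rw [if_neg ha]
    rw [h3, zero_mul]
    exact mul_nonneg (Fkg_w_nonneg hμ _ _ _) (Fkg_w_nonneg hμ _ _ _)

/-- FKG for conditional expectations.
PROOF. `fkg` of Mathlib with the weight `μ` times the indicator of `cyl S τ` (log-supermodular: `cyl S τ` is closed under `⊓`, `⊔`), then divide by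
`mg μ S τ ^ 2`. -/
theorem ce_fkg {μ : (V → Fin q) → ℝ} (hμ : PW μ) (hl : LSM μ) (S : Finset V)
    (f g : (V → Fin q) → ℝ) (hf0 : ∀ σ, 0 ≤ f σ) (hg0 : ∀ σ, 0 ≤ g σ) (hf : Monotone f)
    (hg : Monotone g) (τ : V → Fin q) :
    CE μ S f τ * CE μ S g τ ≤ CE μ S (fun σ => f σ * g σ) τ := by
  have h1 := fkg (μ := Fkg_w μ S τ) (f := f) (g := g) (fun σ => Fkg_w_nonneg hμ S τ σ)
    hf0 hg0 hf hg (fun a b => Fkg_w_lsm hμ hl S (le_refl τ) a b)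
  rw [Fkg_sum, Fkg_sum, Fkg_sum1, Fkg_sum μ S (fun σ => f σ * g σ) τ] at h1
  have h2 := mg_pos hμ S τ
  unfold CE
  rw [div_mul_div_comm, div_le_div_iff₀ (mul_pos h2 h2) h2]
  have h3 := mul_le_mul_of_nonneg_right h1 h2.le
  linarith

/-- conditional expectations of increasing functions are increasing (Holley).
PROOF. for `τ ≤ τ'`: `four_functions_theorem_univ` with `f₁ = f μ 1_{cyl S τ}`, `f₂ = μ 1_{cyl S τ'}`, `f₃ = μ 1_{cyl S τ}`, `f₄ = f μ 1_{cyl S τ'}`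
(`a ∈ cyl S τ`, `b ∈ cyl S τ'` imply `a ⊓ b ∈ cyl S τ`, `a ⊔ b ∈ cyl S τ'`). -/
theorem ce_mono {μ : (V → Fin q) → ℝ} (hμ : PW μ) (hl : LSM μ) (S : Finset V)
    (f : (V → Fin q) → ℝ) (hf0 : ∀ σ, 0 ≤ f σ) (hf : Monotone f) : Monotone (CE μ S f) := by
  intro τ τ' h
  have h1 := four_functions_theorem_univ (fun σ => Fkg_w μ S τ σ * f σ) (Fkg_w μ S τ')
    (Fkg_w μ S τ) (fun σ => Fkg_w μ S τ' σ * f σ)
    (fun σ => mul_nonneg (Fkg_w_nonneg hμ S τ σ) (hf0 σ)) (fun σ => Fkg_w_nonneg hμ S τ' σ)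
    (fun σ => Fkg_w_nonneg hμ S τ σ)
    (fun σ => mul_nonneg (Fkg_w_nonneg hμ S τ' σ) (hf0 σ))
    (fun a b => by
      have h2 := Fkg_w_lsm hμ hl S h a b
      have h3 : f a ≤ f (a ⊔ b) := hf le_sup_left
      calc Fkg_w μ S τ a * f a * Fkg_w μ S τ' b
          = (Fkg_w μ S τ a * Fkg_w μ S τ' b) * f a := by ring
        _ ≤ (Fkg_w μ S τ (a ⊓ b) * Fkg_w μ S τ' (a ⊔ b)) * f (a ⊔ b) :=
            mul_le_mul h2 h3 (hf0 a)
              (mul_nonneg (Fkg_w_nonneg hμ _ _ _) (Fkg_w_nonneg hμ _ _ _))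
        _ = Fkg_w μ S τ (a ⊓ b) * (Fkg_w μ S τ' (a ⊔ b) * f (a ⊔ b)) := by ring)
  rw [Fkg_sum, Fkg_sum, Fkg_sum1, Fkg_sum1] at h1
  unfold CE
  rw [div_le_div_iff₀ (mg_pos hμ S τ) (mg_pos hμ S τ')]
  linarith

/-- unconditional FKG (`fkg` of Mathlib) -/
theorem ex_fkg {μ : (V → Fin q) → ℝ} (hμ : PW μ) (hl : LSM μ) (f g : (V → Fin q) → ℝ)
    (hf0 : ∀ σ, 0 ≤ f σ) (hg0 : ∀ σ, 0 ≤ g σ) (hf : Monotone f) (hg : Monotone g) :
    Ex μ f * Ex μ g ≤ Ex μ (fun σ => f σ * g σ) := by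
  have h1 := fkg (μ := μ) (f := f) (g := g) (fun σ => (hμ.pos σ).le) hf0 hg0 hf hg hl
  rw [hμ.sum, one_mul] at h1
  exact h1

omit [Fintype V] in
theorem Fkg_spin_mono (u : V) : Monotone (fun σ : V → Fin q => ((σ u : ℕ) : ℝ)) := by
  intro σ τ h
  have h1 : σ u ≤ τ u := h u
  exact Nat.cast_le.2 h1

/-- covariances are nonnegative -/
theorem cv_nonneg {μ : (V → Fin q) → ℝ} (hμ : PW μ) (hl : LSM μ) (u v : V) : 0 ≤ Cv μ u v := by
  have h1 := ex_fkg hμ hl (fun σ => ((σ u : ℕ) : ℝ)) (fun σ => ((σ v : ℕ) : ℝ))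
    (fun σ => Nat.cast_nonneg _) (fun σ => Nat.cast_nonneg _) (Fkg_spin_mono u) (Fkg_spin_mono v)
  unfold Cv
  linarith

theorem cv_comm (μ : (V → Fin q) → ℝ) (u v : V) : Cv μ u v = Cv μ v u := by
  unfold Cv
  have h1 : (fun σ : V → Fin q => ((σ u : ℕ) : ℝ) * ((σ v : ℕ) : ℝ)) =
      fun σ => ((σ v : ℕ) : ℝ) * ((σ u : ℕ) : ℝ) := by
    funext σ
    ring
  rw [h1]
  ring

theorem Fkg_ce_nonneg {μ : (V → Fin q) → ℝ} (hμ : PW μ) (S : Finset V)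
    (f : (V → Fin q) → ℝ) (hf0 : ∀ σ, 0 ≤ f σ) (τ : V → Fin q) : 0 ≤ CE μ S f τ := by
  unfold CE
  exact div_nonneg (Finset.sum_nonneg fun σ _ => mul_nonneg (hμ.pos σ).le (hf0 σ))
    (mg_pos hμ S τ).le

theorem Fkg_ex_ce {μ : (V → Fin q) → ℝ} (hμ : PW μ) (S : Finset V)
    (f : (V → Fin q) → ℝ) : Ex μ (CE μ S f) = Ex μ f := by
  have h1 := tower hμ S f (fun _ => 1) (fun _ _ _ => rfl)
  simp only [one_mul] at h1
  exact h1

/-- the expected conditional covariance is at most the covariance.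
PROOF. `Ex (CE (fg)) = Ex (fg)` (`tower` with `g = 1`), `Ex (CE f) = Ex f`, and `Ex (CE f * CE g) ≥ Ex (CE f) Ex (CE g)` by `ex_fkg` and `ce_mono`. -/
theorem ce_cov {μ : (V → Fin q) → ℝ} (hμ : PW μ) (hl : LSM μ) (S : Finset V)
    (f g : (V → Fin q) → ℝ) (hf0 : ∀ σ, 0 ≤ f σ) (hg0 : ∀ σ, 0 ≤ g σ) (hf : Monotone f)
    (hg : Monotone g) :
    Ex μ (fun τ => CE μ S (fun σ => f σ * g σ) τ - CE μ S f τ * CE μ S g τ) ≤
      Ex μ (fun σ => f σ * g σ) - Ex μ f * Ex μ g := by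
  have h1 := ex_fkg hμ hl (CE μ S f) (CE μ S g) (Fkg_ce_nonneg hμ S f hf0)
    (Fkg_ce_nonneg hμ S g hg0) (ce_mono hμ hl S f hf0 hf) (ce_mono hμ hl S g hg0 hg)
  rw [Fkg_ex_ce hμ, Fkg_ex_ce hμ] at h1
  have h2 := Fkg_ex_ce hμ S (fun σ => f σ * g σ)
  have h3 : Ex μ (fun τ => CE μ S (fun σ => f σ * g σ) τ - CE μ S f τ * CE μ S g τ) =
      Ex μ (CE μ S (fun σ => f σ * g σ)) - Ex μ (fun τ => CE μ S f τ * CE μ S g τ) := by
    unfold Ex
    rw [← Finset.sum_sub_distrib]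
    exact Finset.sum_congr rfl fun τ _ => by ring
  rw [h3, h2]
  linarith

end TPB
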