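import Pool.Agent.W_5dd92e_h55.Defs

/-! # Pair laws -/

set_option autoImplicit false

open Finset
open scoped Classical

namespace TPB

private theorem shift_le (q : ℕ) (f : ℕ → ℝ) (h0 : f 0 = 0) (hq : 0 ≤ f q) :
    ∑ i : Fin q, f i ≤ ∑ i : Fin q, f (i + 1) := by
  rw [Fin.sum_univ_eq_sum_range (fun i => f i) q, Fin.sum_univ_eq_sum_range (fun i => f (i + 1)) q]
  have h1 := Finset.sum_range_succ (fun i => f i) q
  have h2 := Finset.sum_range_succ' (fun i => f i) q
  linarith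

private theorem ind_sum (q : ℕ) (i : Fin q) :
    ∑ a : Fin q, (if (a : ℕ) + 1 ≤ (i : ℕ) then (1 : ℝ) else 0) = ((i : ℕ) : ℝ) := by
  rw [Fin.sum_univ_eq_sum_range (fun a => if a + 1 ≤ (i : ℕ) then (1 : ℝ) else 0) q]
  rw [← Finset.sum_filter]
  rw [Finset.sum_const, nsmul_eq_mul, mul_one]
  congr 1
  have : (Finset.range q).filter (fun a => a + 1 ≤ (i : ℕ)) = Finset.range (i : ℕ) := by
    ext a
    simp only [Finset.mem_filter, Finset.mem_range]
    have := i.2
    omega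
  rw [this, Finset.card_range]

/-- PAIR LAWS.
PROOF. `∑ P^2/(p p') - 1 = ∑ (P - p p')^2 / (p p') ≤ c^(-2) ∑ |P - p p'|` (as `|P - p p'| ≤ 1`). Let `Q i j` be the left side of `hQ` (also for `i` or `j` equal
to `q`: then `Q = 0`); `P i j - p i p' j = Q i j - Q (i+1) j - Q i (j+1) + Q (i+1) (j+1)`, so `∑ |..| ≤ 4 ∑_{i, j} Q i j`, `Q i j = 0` when `i = 0` or `j = 0`, and
`∑_{i,j ≥ 1} Q i j = ∑ i j P i j - (∑ i p i)(∑ j p' j)` (`i = ∑_{k ≥ 1} 1{k ≤ i}`). -/
theorem pair_bound {q : ℕ} (c : ℝ) (hc : 0 < c) (P : Fin q → Fin q → ℝ) (p p' : Fin q → ℝ)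
    (h0 : ∀ i j, 0 ≤ P i j) (h1 : ∑ i, ∑ j, P i j = 1) (hp : ∀ i, ∑ j, P i j = p i)
    (hp' : ∀ j, ∑ i, P i j = p' j) (hc1 : ∀ i, c ≤ p i) (hc2 : ∀ j, c ≤ p' j)
    (hQ : ∀ a b : ℕ, 0 ≤ (∑ i : Fin q, ∑ j : Fin q, if a ≤ (i : ℕ) ∧ b ≤ (j : ℕ) then P i j else 0) -
      (∑ i : Fin q, if a ≤ (i : ℕ) then p i else 0) * (∑ j : Fin q, if b ≤ (j : ℕ) then p' j else 0)) :
    ∑ i, ∑ j, P i j ^ 2 / (p i * p' j) - 1 ≤
      4 / c ^ 2 * ((∑ i : Fin q, ∑ j : Fin q, ((i : ℕ) : ℝ) * ((j : ℕ) : ℝ) * P i j) -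
        (∑ i : Fin q, ((i : ℕ) : ℝ) * p i) * (∑ j : Fin q, ((j : ℕ) : ℝ) * p' j)) := by
  set T : ℕ → ℕ → ℝ := fun a b =>
    ∑ i : Fin q, ∑ j : Fin q, if a ≤ (i : ℕ) ∧ b ≤ (j : ℕ) then P i j else 0 with hT
  set U : ℕ → ℝ := fun a => ∑ i : Fin q, if a ≤ (i : ℕ) then p i else 0 with hU
  set U' : ℕ → ℝ := fun b => ∑ j : Fin q, if b ≤ (j : ℕ) then p' j else 0 with hU'
  set Q : ℕ → ℕ → ℝ := fun a b => T a b - U a * U' b with hQd
  have hQ0 : ∀ a b, 0 ≤ Q a b := hQ
  have hsp : ∑ i, p i = 1 := by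
    rw [← h1]; exact Finset.sum_congr rfl (fun i _ => (hp i).symm)
  have hsp' : ∑ j, p' j = 1 := by
    rw [← h1, Finset.sum_comm]; exact Finset.sum_congr rfl (fun j _ => (hp' j).symm)
  -- boundary values
  have hU0 : U 0 = 1 := by
    simp only [hU, Nat.zero_le, if_true]; exact hsp
  have hU'0 : U' 0 = 1 := by
    simp only [hU', Nat.zero_le, if_true]; exact hsp'
  have hT0 : ∀ b, T 0 b = U' b := by
    intro b
    simp only [hT, hU', Nat.zero_le, true_and]
    rw [Finset.sum_comm]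
    refine Finset.sum_congr rfl (fun j _ => ?_)
    by_cases h : b ≤ (j : ℕ)
    · simp only [h, if_true]; exact hp' j
    · simp only [h, if_false, Finset.sum_const_zero]
  have hT0' : ∀ a, T a 0 = U a := by
    intro a
    simp only [hT, hU, Nat.zero_le, and_true]
    refine Finset.sum_congr rfl (fun i _ => ?_)
    by_cases h : a ≤ (i : ℕ)
    · simp only [h, if_true]; exact hp i
    · simp only [h, if_false, Finset.sum_const_zero]
  have hQz : ∀ b, Q 0 b = 0 := by
    intro b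
    simp only [hQd]; rw [hT0, hU0]; ring
  have hQz' : ∀ a, Q a 0 = 0 := by
    intro a
    simp only [hQd]; rw [hT0', hU'0]; ring
  -- differences
  have hUd : ∀ a : Fin q, U a - U (a + 1) = p a := by
    intro a
    simp only [hU]
    rw [← Finset.sum_sub_distrib]
    rw [Finset.sum_eq_single a]
    · simp
    · intro i _ hia
      have : (i : ℕ) ≠ (a : ℕ) := fun h => hia (Fin.ext h)
      by_cases h : (a : ℕ) ≤ (i : ℕ)
      · have h2 : (a : ℕ) + 1 ≤ (i : ℕ) := by omega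
        rw [if_pos h, if_pos h2, sub_self]
      · have h2 : ¬ ((a : ℕ) + 1 ≤ (i : ℕ)) := by omega
        rw [if_neg h, if_neg h2, sub_self]
    · intro h; exact absurd (Finset.mem_univ a) h
  have hUd' : ∀ a : Fin q, U' a - U' (a + 1) = p' a := by
    intro a
    simp only [hU']
    rw [← Finset.sum_sub_distrib]
    rw [Finset.sum_eq_single a]
    · simp
    · intro i _ hia
      have : (i : ℕ) ≠ (a : ℕ) := fun h => hia (Fin.ext h)
      by_cases h : (a : ℕ) ≤ (i : ℕ)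
      · have h2 : (a : ℕ) + 1 ≤ (i : ℕ) := by omega
        rw [if_pos h, if_pos h2, sub_self]
      · have h2 : ¬ ((a : ℕ) + 1 ≤ (i : ℕ)) := by omega
        rw [if_neg h, if_neg h2, sub_self]
    · intro h; exact absurd (Finset.mem_univ a) h
  have hTd : ∀ a b : Fin q, T a b - T (a + 1) b - T a (b + 1) + T (a + 1) (b + 1) = P a b := by
    intro a b
    simp only [hT]
    rw [← Finset.sum_sub_distrib, ← Finset.sum_sub_distrib, ← Finset.sum_add_distrib]
    rw [Finset.sum_eq_single a]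
    · rw [← Finset.sum_sub_distrib, ← Finset.sum_sub_distrib, ← Finset.sum_add_distrib]
      rw [Finset.sum_eq_single b]
      · simp
      · intro j _ hjb
        have : (j : ℕ) ≠ (b : ℕ) := fun h => hjb (Fin.ext h)
        by_cases h : (b : ℕ) ≤ (j : ℕ)
        · have h2 : (b : ℕ) + 1 ≤ (j : ℕ) := by omega
          simp [h, h2]
        · have h2 : ¬ ((b : ℕ) + 1 ≤ (j : ℕ)) := by omega
          simp only [h, h2, and_false, if_false]
          norm_num
      · intro h; exact absurd (Finset.mem_univ b) h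
    · intro i _ hia
      have : (i : ℕ) ≠ (a : ℕ) := fun h => hia (Fin.ext h)
      rw [← Finset.sum_sub_distrib, ← Finset.sum_sub_distrib, ← Finset.sum_add_distrib]
      refine Finset.sum_eq_zero (fun j _ => ?_)
      by_cases h : (a : ℕ) ≤ (i : ℕ)
      · have h2 : (a : ℕ) + 1 ≤ (i : ℕ) := by omega
        simp [h, h2]
      · have h2 : ¬ ((a : ℕ) + 1 ≤ (i : ℕ)) := by omega
        simp [h, h2]
    · intro h; exact absurd (Finset.mem_univ a) h
  have hQd2 : ∀ a b : Fin q, P a b - p a * p' b =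
      Q a b - Q (a + 1) b - Q a (b + 1) + Q (a + 1) (b + 1) := by
    intro a b
    rw [← hTd a b, ← hUd a, ← hUd' b]
    simp only [hQd]; ring
  -- the sum of absolute values
  set S : ℝ := ∑ i : Fin q, ∑ j : Fin q, Q (i + 1) (j + 1) with hS
  have s1 : ∑ i : Fin q, ∑ j : Fin q, Q (i + 1) j ≤ S := by
    refine Finset.sum_le_sum (fun i _ => ?_)
    exact shift_le q (fun j => Q (i + 1) j) (hQz' _) (hQ0 _ _)
  have s2 : ∑ i : Fin q, ∑ j : Fin q, Q i (j + 1) ≤ S := by
    rw [hS, Finset.sum_comm]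
    rw [Finset.sum_comm (f := fun (i : Fin q) (j : Fin q) => Q (i + 1) (j + 1))]
    refine Finset.sum_le_sum (fun j _ => ?_)
    exact shift_le q (fun i => Q i (j + 1)) (hQz _) (hQ0 _ _)
  have s3 : ∑ i : Fin q, ∑ j : Fin q, Q i j ≤ S := by
    refine le_trans ?_ s2
    refine Finset.sum_le_sum (fun i _ => ?_)
    exact shift_le q (fun j => Q i j) (hQz' _) (hQ0 _ _)
  have habs : ∑ i : Fin q, ∑ j : Fin q, |P i j - p i * p' j| ≤ 4 * S := by
    have : ∑ i : Fin q, ∑ j : Fin q, |P i j - p i * p' j| ≤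
        ∑ i : Fin q, ∑ j : Fin q, (Q i j + Q (i + 1) j + Q i (j + 1) + Q (i + 1) (j + 1)) := by
      refine Finset.sum_le_sum (fun i _ => Finset.sum_le_sum (fun j _ => ?_))
      rw [hQd2 i j, abs_le]
      have e1 := hQ0 i j
      have e2 := hQ0 (i + 1) j
      have e3 := hQ0 i (j + 1)
      have e4 := hQ0 (i + 1) (j + 1)
      constructor <;> linarith
    refine this.trans ?_
    simp only [Finset.sum_add_distrib]
    linarith
  -- evaluation of S
  have hSe : S = (∑ i : Fin q, ∑ j : Fin q, ((i : ℕ) : ℝ) * ((j : ℕ) : ℝ) * P i j) -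
        (∑ i : Fin q, ((i : ℕ) : ℝ) * p i) * (∑ j : Fin q, ((j : ℕ) : ℝ) * p' j) := by
    have hUs : ∑ a : Fin q, U (a + 1) = ∑ i : Fin q, ((i : ℕ) : ℝ) * p i := by
      simp only [hU]
      rw [Finset.sum_comm]
      refine Finset.sum_congr rfl (fun i _ => ?_)
      rw [← ind_sum q i, Finset.sum_mul]
      refine Finset.sum_congr rfl (fun a _ => ?_)
      split_ifs <;> simp
    have hUs' : ∑ a : Fin q, U' (a + 1) = ∑ i : Fin q, ((i : ℕ) : ℝ) * p' i := by
      simp only [hU']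
      rw [Finset.sum_comm]
      refine Finset.sum_congr rfl (fun i _ => ?_)
      rw [← ind_sum q i, Finset.sum_mul]
      refine Finset.sum_congr rfl (fun a _ => ?_)
      split_ifs <;> simp
    have hTs : ∑ a : Fin q, ∑ b : Fin q, T (a + 1) (b + 1) =
        ∑ i : Fin q, ∑ j : Fin q, ((i : ℕ) : ℝ) * ((j : ℕ) : ℝ) * P i j := by
      have e : ∀ a b : Fin q, T (a + 1) (b + 1) = ∑ i : Fin q, ∑ j : Fin q,
          (if (a : ℕ) + 1 ≤ (i : ℕ) then (1 : ℝ) else 0) *
            (if (b : ℕ) + 1 ≤ (j : ℕ) then (1 : ℝ) else 0) * P i j := by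
        intro a b
        simp only [hT]
        refine Finset.sum_congr rfl (fun i _ => Finset.sum_congr rfl (fun j _ => ?_))
        by_cases h : (a : ℕ) + 1 ≤ (i : ℕ) <;> by_cases h' : (b : ℕ) + 1 ≤ (j : ℕ) <;>
          simp [h, h']
      have e2 : ∀ i j : Fin q, ((i : ℕ) : ℝ) * ((j : ℕ) : ℝ) * P i j = ∑ a : Fin q, ∑ b : Fin q,
          (if (a : ℕ) + 1 ≤ (i : ℕ) then (1 : ℝ) else 0) *
            (if (b : ℕ) + 1 ≤ (j : ℕ) then (1 : ℝ) else 0) * P i j := by
        intro i j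
        rw [← ind_sum q i, ← ind_sum q j, Finset.sum_mul_sum, Finset.sum_mul]
        refine Finset.sum_congr rfl (fun a _ => ?_)
        rw [Finset.sum_mul]
      simp only [e, e2]
      -- exchange the order
      calc ∑ a : Fin q, ∑ b : Fin q, ∑ i : Fin q, ∑ j : Fin q,
          (if (a : ℕ) + 1 ≤ (i : ℕ) then (1 : ℝ) else 0) *
            (if (b : ℕ) + 1 ≤ (j : ℕ) then (1 : ℝ) else 0) * P i j
          = ∑ a : Fin q, ∑ i : Fin q, ∑ b : Fin q, ∑ j : Fin q,
          (if (a : ℕ) + 1 ≤ (i : ℕ) then (1 : ℝ) else 0) *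
            (if (b : ℕ) + 1 ≤ (j : ℕ) then (1 : ℝ) else 0) * P i j := by
            refine Finset.sum_congr rfl (fun a _ => Finset.sum_comm)
        _ = ∑ i : Fin q, ∑ a : Fin q, ∑ b : Fin q, ∑ j : Fin q,
          (if (a : ℕ) + 1 ≤ (i : ℕ) then (1 : ℝ) else 0) *
            (if (b : ℕ) + 1 ≤ (j : ℕ) then (1 : ℝ) else 0) * P i j := Finset.sum_comm
        _ = ∑ i : Fin q, ∑ a : Fin q, ∑ j : Fin q, ∑ b : Fin q,
          (if (a : ℕ) + 1 ≤ (i : ℕ) then (1 : ℝ) else 0) *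
            (if (b : ℕ) + 1 ≤ (j : ℕ) then (1 : ℝ) else 0) * P i j := by
            refine Finset.sum_congr rfl (fun i _ => Finset.sum_congr rfl
              (fun a _ => Finset.sum_comm))
        _ = ∑ i : Fin q, ∑ j : Fin q, ∑ a : Fin q, ∑ b : Fin q,
          (if (a : ℕ) + 1 ≤ (i : ℕ) then (1 : ℝ) else 0) *
            (if (b : ℕ) + 1 ≤ (j : ℕ) then (1 : ℝ) else 0) * P i j := by
            refine Finset.sum_congr rfl (fun i _ => Finset.sum_comm)
    rw [← hTs, ← hUs, ← hUs', Finset.sum_mul_sum, ← Finset.sum_sub_distrib]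
    refine Finset.sum_congr rfl (fun a _ => ?_)
    rw [← Finset.sum_sub_distrib]
  -- chi-square
  have hc2p : (0 : ℝ) < c ^ 2 := by positivity
  have hpp : ∀ i j, c ^ 2 ≤ p i * p' j := by
    intro i j
    have := mul_le_mul (hc1 i) (hc2 j) hc.le (hc.le.trans (hc1 i))
    nlinarith
  have hpos : ∀ i, 0 ≤ p i := fun i => hc.le.trans (hc1 i)
  have hpos' : ∀ i, 0 ≤ p' i := fun i => hc.le.trans (hc2 i)
  have hple : ∀ i, p i ≤ 1 := by
    intro i
    rw [← hsp]; exact Finset.single_le_sum (fun i _ => hpos i) (Finset.mem_univ i)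
  have hple' : ∀ i, p' i ≤ 1 := by
    intro i
    rw [← hsp']; exact Finset.single_le_sum (fun i _ => hpos' i) (Finset.mem_univ i)
  have hPle : ∀ i j, P i j ≤ 1 := by
    intro i j
    refine le_trans ?_ (hple i)
    rw [← hp i]; exact Finset.single_le_sum (fun j _ => h0 i j) (Finset.mem_univ j)
  have hchi : ∑ i, ∑ j, P i j ^ 2 / (p i * p' j) - 1 =
      ∑ i, ∑ j, (P i j - p i * p' j) ^ 2 / (p i * p' j) := by
    have e : ∀ i j, (P i j - p i * p' j) ^ 2 / (p i * p' j) =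
        P i j ^ 2 / (p i * p' j) - 2 * P i j + p i * p' j := by
      intro i j
      have n1 : p i ≠ 0 := (lt_of_lt_of_le hc (hc1 i)).ne'
      have n2 : p' j ≠ 0 := (lt_of_lt_of_le hc (hc2 j)).ne'
      field_simp
      ring
    simp only [e, Finset.sum_add_distrib, Finset.sum_sub_distrib]
    have e2 : ∑ i, ∑ j, p i * p' j = 1 := by
      rw [← Finset.sum_mul_sum, hsp, hsp', one_mul]
    have e3 : ∑ i, ∑ j, 2 * P i j = 2 := by
      simp only [← Finset.mul_sum]
      rw [h1]; norm_num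
    rw [e2, e3]; ring
  rw [hchi, ← hSe]
  have hterm : ∀ i j, (P i j - p i * p' j) ^ 2 / (p i * p' j) ≤
      |P i j - p i * p' j| / c ^ 2 := by
    intro i j
    have hab : |P i j - p i * p' j| ≤ 1 := by
      rw [abs_le]
      have e1 := h0 i j
      have e2 := hPle i j
      have e3 : 0 ≤ p i * p' j := mul_nonneg (hpos i) (hpos' j)
      have e4 : p i * p' j ≤ 1 := mul_le_one₀ (hple i) (hpos' j) (hple' j)
      constructor <;> linarith
    have hsq : (P i j - p i * p' j) ^ 2 ≤ |P i j - p i * p' j| := by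
      rw [← sq_abs]
      have := abs_nonneg (P i j - p i * p' j)
      nlinarith
    calc (P i j - p i * p' j) ^ 2 / (p i * p' j) ≤ |P i j - p i * p' j| / (p i * p' j) :=
          div_le_div_of_nonneg_right hsq (hc2p.le.trans (hpp i j))
      _ ≤ |P i j - p i * p' j| / c ^ 2 :=
          div_le_div_of_nonneg_left (abs_nonneg _) hc2p (hpp i j)
  calc ∑ i, ∑ j, (P i j - p i * p' j) ^ 2 / (p i * p' j)
      ≤ ∑ i, ∑ j, |P i j - p i * p' j| / c ^ 2 :=
        Finset.sum_le_sum (fun i _ => Finset.sum_le_sum (fun j _ => hterm i j))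
    _ = (∑ i, ∑ j, |P i j - p i * p' j|) / c ^ 2 := by
        simp only [Finset.sum_div]
    _ ≤ 4 * S / c ^ 2 := div_le_div_of_nonneg_right habs hc2p.le
    _ = 4 / c ^ 2 * S := by ring

end TPB
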