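import Pool.Agent.W_5dd92e_h55.EntB
import Pool.Agent.W_5dd92e_h55.PairB
import Pool.Agent.W_5dd92e_h55.Fkg

/-! # Conditional mutual information is bounded by the covariance -/

set_option autoImplicit false

open Finset
open scoped Classical

namespace TPB

variable {q : ℕ} {V : Type*} [Fintype V]

theorem EntC_ce_nonneg {μ : (V → Fin q) → ℝ} (hμ : PW μ) (S : Finset V) (f : (V → Fin q) → ℝ)
    (hf : ∀ σ, 0 ≤ f σ) (τ : V → Fin q) : 0 ≤ CE μ S f τ := by
  unfold CE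
  exact div_nonneg (sum_nonneg fun σ _ => mul_nonneg (hμ.pos σ).le (hf σ)) (mg_pos hμ S τ).le

theorem EntC_exp1 (μ : (V → Fin q) → ℝ) (S : Finset V) (w : V) (F : Fin q → ℝ)
    (τ : V → Fin q) : CE μ S (fun σ => F (σ w)) τ =
      ∑ i, F i * CE μ S (fun σ => if σ w = i then 1 else 0) τ := by
  unfold CE
  simp_rw [mul_div_assoc']
  rw [← sum_div]
  congr 1
  simp_rw [mul_sum]
  rw [sum_comm]
  refine sum_congr rfl fun σ _ => ?_
  rw [sum_eq_single (σ w)]
  · rw [if_pos rfl]; ring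
  · intro i _ hi
    rw [if_neg (Ne.symm hi)]; ring
  · intro h
    exact absurd (mem_univ _) h

theorem EntC_exp2 (μ : (V → Fin q) → ℝ) (S : Finset V) (w w' : V) (F : Fin q → Fin q → ℝ)
    (τ : V → Fin q) : CE μ S (fun σ => F (σ w) (σ w')) τ =
      ∑ i, ∑ j, F i j * CE μ S (fun σ => if σ w = i ∧ σ w' = j then 1 else 0) τ := by
  unfold CE
  simp_rw [mul_div_assoc']
  simp_rw [← sum_div]
  congr 1
  simp_rw [mul_sum]
  have h1 : ∀ i : Fin q, ∑ j : Fin q, ∑ σ ∈ cyl S τ,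
      F i j * (μ σ * (if σ w = i ∧ σ w' = j then 1 else 0)) =
      ∑ σ ∈ cyl S τ, ∑ j : Fin q, F i j * (μ σ * (if σ w = i ∧ σ w' = j then 1 else 0)) :=
    fun i => sum_comm
  rw [sum_congr rfl fun i _ => h1 i, sum_comm]
  refine sum_congr rfl fun σ _ => ?_
  rw [sum_eq_single (σ w)]
  · rw [sum_eq_single (σ w')]
    · rw [if_pos ⟨rfl, rfl⟩]; ring
    · intro j _ hj
      rw [if_neg (fun h => hj h.2.symm)]; ring
    · intro h
      exact absurd (mem_univ _) h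
  · intro i _ hi
    refine sum_eq_zero fun j _ => ?_
    rw [if_neg (fun h => hi h.1.symm)]; ring
  · intro h
    exact absurd (mem_univ _) h

theorem EntC_ce_one {μ : (V → Fin q) → ℝ} (hμ : PW μ) (S : Finset V) (τ : V → Fin q) :
    CE μ S (fun _ => 1) τ = 1 := by
  unfold CE
  have h1 : ∑ σ ∈ cyl S τ, μ σ * 1 = mg μ S τ := by
    unfold mg
    exact sum_congr rfl fun σ _ => mul_one _
  rw [h1, div_self (mg_pos hμ S τ).ne']

theorem EntC_low {μ : (V → Fin q) → ℝ} (hμ : PW μ) (c : ℝ) (hs : SSB μ c) (S : Finset V)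
    (w : V) (hw : w ∉ S) (i : Fin q) (τ : V → Fin q) :
    c ≤ CE μ S (fun σ => if σ w = i then 1 else 0) τ := by
  have h1 : ∑ σ ∈ cyl S τ, μ σ * (if σ w = i then 1 else 0) =
      mg μ (insert w S) (Function.update τ w i) := by
    unfold mg
    simp_rw [mul_ite, mul_one, mul_zero]
    rw [← sum_filter]
    refine sum_congr ?_ fun _ _ => rfl
    ext σ
    simp only [cyl, mem_filter, mem_univ, true_and, mem_insert, forall_eq_or_imp,
      Function.update_self]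
    constructor
    · rintro ⟨h1, h2⟩
      refine ⟨h2, fun v hv => ?_⟩
      have hvw : v ≠ w := fun h => hw (h ▸ hv)
      rw [Function.update_of_ne hvw]
      exact h1 v hv
    · rintro ⟨h1, h2⟩
      refine ⟨fun v hv => ?_, h1⟩
      have hvw : v ≠ w := fun h => hw (h ▸ hv)
      have h3 := h2 v hv
      rwa [Function.update_of_ne hvw] at h3
  have h2 : mg μ S (Function.update τ w i) = mg μ S τ := by
    refine mg_congr μ S _ _ fun v hv => ?_
    have hvw : v ≠ w := fun h => hw (h ▸ hv)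
    rw [Function.update_of_ne hvw]
  have h3 := hs S w (Function.update τ w i) hw
  rw [h2] at h3
  unfold CE
  rw [h1, le_div_iff₀ (mg_pos hμ S τ)]
  exact h3

theorem EntC_mono (w : V) (a : ℕ) :
    Monotone (fun σ : V → Fin q => if a ≤ ((σ w : Fin q) : ℕ) then (1 : ℝ) else 0) := by
  intro σ σ' h
  have h1 : ((σ w : Fin q) : ℕ) ≤ ((σ' w : Fin q) : ℕ) := h w
  show (if a ≤ ((σ w : Fin q) : ℕ) then (1 : ℝ) else 0) ≤
    (if a ≤ ((σ' w : Fin q) : ℕ) then (1 : ℝ) else 0)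
  by_cases h2 : a ≤ ((σ w : Fin q) : ℕ)
  · rw [if_pos h2, if_pos (h2.trans h1)]
  · rw [if_neg h2]
    split_ifs <;> norm_num

theorem EntC_mono_id (w : V) : Monotone (fun σ : V → Fin q => (((σ w : Fin q) : ℕ) : ℝ)) := by
  intro σ σ' h
  have h1 : ((σ w : Fin q) : ℕ) ≤ ((σ' w : Fin q) : ℕ) := h w
  show (((σ w : Fin q) : ℕ) : ℝ) ≤ (((σ' w : Fin q) : ℕ) : ℝ)
  exact_mod_cast h1

/-- the bound at one configuration -/
theorem EntC_point {μ : (V → Fin q) → ℝ} (hμ : PW μ) (hl : LSM μ) (c : ℝ) (hc : 0 < c)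
    (hs : SSB μ c) (S : Finset V) (w w' : V) (hw : w ∉ S) (hw' : w' ∉ S) (τ : V → Fin q) :
    ∑ i, ∑ j, CE μ S (fun σ => if σ w = i ∧ σ w' = j then 1 else 0) τ ^ 2 /
        (CE μ S (fun σ => if σ w = i then 1 else 0) τ *
          CE μ S (fun σ => if σ w' = j then 1 else 0) τ) - 1 ≤
      4 / c ^ 2 * (CE μ S (fun σ => (((σ w : Fin q) : ℕ) : ℝ) * (((σ w' : Fin q) : ℕ) : ℝ)) τ -
        CE μ S (fun σ => (((σ w : Fin q) : ℕ) : ℝ)) τ *
          CE μ S (fun σ => (((σ w' : Fin q) : ℕ) : ℝ)) τ) := by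
  have hp : ∀ i : Fin q, ∑ j, CE μ S (fun σ => if σ w = i ∧ σ w' = j then 1 else 0) τ =
      CE μ S (fun σ => if σ w = i then 1 else 0) τ := by
    intro i
    have h1 := EntC_exp2 μ S w w' (fun i' _ => if i' = i then 1 else 0) τ
    refine Eq.symm (h1.trans ?_)
    rw [sum_eq_single i]
    · refine sum_congr rfl fun j _ => ?_
      rw [if_pos rfl, one_mul]
    · intro i' _ hi'
      refine sum_eq_zero fun j _ => ?_
      rw [if_neg hi', zero_mul]
    · intro h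
      exact absurd (mem_univ _) h
  have hp' : ∀ j : Fin q, ∑ i, CE μ S (fun σ => if σ w = i ∧ σ w' = j then 1 else 0) τ =
      CE μ S (fun σ => if σ w' = j then 1 else 0) τ := by
    intro j
    have h1 := EntC_exp2 μ S w w' (fun _ j' => if j' = j then 1 else 0) τ
    refine Eq.symm (h1.trans ?_)
    refine sum_congr rfl fun i _ => ?_
    rw [sum_eq_single j]
    · rw [if_pos rfl, one_mul]
    · intro j' _ hj'
      rw [if_neg hj', zero_mul]
    · intro h
      exact absurd (mem_univ _) h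
  have h1 : ∑ i : Fin q, ∑ j : Fin q,
      CE μ S (fun σ => if σ w = i ∧ σ w' = j then 1 else 0) τ = 1 := by
    have h2 := EntC_exp2 μ S w w' (fun _ _ => 1) τ
    rw [EntC_ce_one hμ S τ] at h2
    refine Eq.trans ?_ h2.symm
    refine sum_congr rfl fun i _ => sum_congr rfl fun j _ => ?_
    rw [one_mul]
  have hQ : ∀ a b : ℕ, 0 ≤ (∑ i : Fin q, ∑ j : Fin q, if a ≤ (i : ℕ) ∧ b ≤ (j : ℕ) then
        CE μ S (fun σ => if σ w = i ∧ σ w' = j then 1 else 0) τ else 0) -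
      (∑ i : Fin q, if a ≤ (i : ℕ) then CE μ S (fun σ => if σ w = i then 1 else 0) τ else 0) *
        (∑ j : Fin q, if b ≤ (j : ℕ) then CE μ S (fun σ => if σ w' = j then 1 else 0) τ
          else 0) := by
    intro a b
    have e1 : (∑ i : Fin q, ∑ j : Fin q, if a ≤ (i : ℕ) ∧ b ≤ (j : ℕ) then
        CE μ S (fun σ => if σ w = i ∧ σ w' = j then 1 else 0) τ else 0) =
        CE μ S (fun σ => (if a ≤ ((σ w : Fin q) : ℕ) then (1 : ℝ) else 0) *
          (if b ≤ ((σ w' : Fin q) : ℕ) then (1 : ℝ) else 0)) τ := by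
      have h3 := EntC_exp2 μ S w w' (fun i j => (if a ≤ (i : ℕ) then (1 : ℝ) else 0) *
        (if b ≤ (j : ℕ) then (1 : ℝ) else 0)) τ
      rw [h3]
      refine sum_congr rfl fun i _ => sum_congr rfl fun j _ => ?_
      by_cases ha : a ≤ (i : ℕ)
      · by_cases hb : b ≤ (j : ℕ)
        · rw [if_pos ⟨ha, hb⟩, if_pos ha, if_pos hb]; ring
        · rw [if_neg (fun h => hb h.2), if_pos ha, if_neg hb]; ring
      · rw [if_neg (fun h => ha h.1), if_neg ha]; ring
    have e2 : (∑ i : Fin q, if a ≤ (i : ℕ) then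
        CE μ S (fun σ => if σ w = i then 1 else 0) τ else 0) =
        CE μ S (fun σ => if a ≤ ((σ w : Fin q) : ℕ) then (1 : ℝ) else 0) τ := by
      have h3 := EntC_exp1 μ S w (fun i => if a ≤ (i : ℕ) then (1 : ℝ) else 0) τ
      rw [h3]
      refine sum_congr rfl fun i _ => ?_
      by_cases ha : a ≤ (i : ℕ)
      · rw [if_pos ha, if_pos ha, one_mul]
      · rw [if_neg ha, if_neg ha, zero_mul]
    have e3 : (∑ j : Fin q, if b ≤ (j : ℕ) then
        CE μ S (fun σ => if σ w' = j then 1 else 0) τ else 0) =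
        CE μ S (fun σ => if b ≤ ((σ w' : Fin q) : ℕ) then (1 : ℝ) else 0) τ := by
      have h3 := EntC_exp1 μ S w' (fun i => if b ≤ (i : ℕ) then (1 : ℝ) else 0) τ
      rw [h3]
      refine sum_congr rfl fun i _ => ?_
      by_cases ha : b ≤ (i : ℕ)
      · rw [if_pos ha, if_pos ha, one_mul]
      · rw [if_neg ha, if_neg ha, zero_mul]
    rw [e1, e2, e3, sub_nonneg]
    refine ce_fkg hμ hl S _ _ (fun σ => ?_) (fun σ => ?_) (EntC_mono w a) (EntC_mono w' b) τ
    · show (0 : ℝ) ≤ if a ≤ ((σ w : Fin q) : ℕ) then (1 : ℝ) else 0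
      split_ifs <;> norm_num
    · show (0 : ℝ) ≤ if b ≤ ((σ w' : Fin q) : ℕ) then (1 : ℝ) else 0
      split_ifs <;> norm_num
  have h0 : ∀ i j : Fin q, 0 ≤ CE μ S (fun σ => if σ w = i ∧ σ w' = j then 1 else 0) τ := by
    intro i j
    refine EntC_ce_nonneg hμ S _ (fun σ => ?_) τ
    show (0 : ℝ) ≤ if σ w = i ∧ σ w' = j then 1 else 0
    split_ifs <;> norm_num
  have hmain := pair_bound c hc
    (fun i j => CE μ S (fun σ => if σ w = i ∧ σ w' = j then 1 else 0) τ)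
    (fun i => CE μ S (fun σ => if σ w = i then 1 else 0) τ)
    (fun j => CE μ S (fun σ => if σ w' = j then 1 else 0) τ)
    h0 h1 hp hp' (fun i => EntC_low hμ c hs S w hw i τ) (fun j => EntC_low hμ c hs S w' hw' j τ)
    hQ
  have f1 : CE μ S (fun σ => (((σ w : Fin q) : ℕ) : ℝ) * (((σ w' : Fin q) : ℕ) : ℝ)) τ =
      ∑ i : Fin q, ∑ j : Fin q, ((i : ℕ) : ℝ) * ((j : ℕ) : ℝ) *
        CE μ S (fun σ => if σ w = i ∧ σ w' = j then 1 else 0) τ :=
    EntC_exp2 μ S w w' (fun i j => ((i : ℕ) : ℝ) * ((j : ℕ) : ℝ)) τ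
  have f2 : CE μ S (fun σ => (((σ w : Fin q) : ℕ) : ℝ)) τ =
      ∑ i : Fin q, ((i : ℕ) : ℝ) * CE μ S (fun σ => if σ w = i then 1 else 0) τ :=
    EntC_exp1 μ S w (fun i => ((i : ℕ) : ℝ)) τ
  have f3 : CE μ S (fun σ => (((σ w' : Fin q) : ℕ) : ℝ)) τ =
      ∑ j : Fin q, ((j : ℕ) : ℝ) * CE μ S (fun σ => if σ w' = j then 1 else 0) τ :=
    EntC_exp1 μ S w' (fun i => ((i : ℕ) : ℝ)) τ
  rw [f1, f2, f3]
  exact hmain

/-- CONDITIONAL MUTUAL INFORMATION AND COVARIANCE.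
PROOF. `mi_chi`; for every `τ` apply `pair_bound` to `P i j = CE μ S (1{σ w = i, σ w' = j}) τ` (the lower bounds from `SSB`: `CE (1{σ w = i}) τ =
mg μ (insert w S) (update τ w i) / mg μ S τ ≥ c`, note `mg μ S` does not see the value at `w`; `hQ` from `ce_fkg` with the increasing functions `1{a ≤ σ w}`, `1{b ≤ σ w'}`), which gives
`4/c^2 (CE (σ w * σ w') - CE (σ w) CE (σ w'))`, and `ce_cov`. -/
theorem mi_cov {μ : (V → Fin q) → ℝ} (hμ : PW μ) (hl : LSM μ) (c : ℝ) (hc : 0 < c)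
    (hs : SSB μ c) (S : Finset V) (w w' : V) (hww : w ≠ w') (hw : w ∉ S) (hw' : w' ∉ S) :
    Hs μ (insert w S) + Hs μ (insert w' S) - Hs μ (insert w (insert w' S)) - Hs μ S ≤
      4 / c ^ 2 * Cv μ w w' := by
  refine le_trans (mi_chi hμ S w w' hww hw hw') ?_
  have hstep : Ex μ (fun τ => ∑ i, ∑ j, CE μ S (fun σ => if σ w = i ∧ σ w' = j then 1 else 0) τ ^ 2 /
        (CE μ S (fun σ => if σ w = i then 1 else 0) τ *
          CE μ S (fun σ => if σ w' = j then 1 else 0) τ) - 1) ≤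
      4 / c ^ 2 * Ex μ (fun τ =>
        CE μ S (fun σ => (((σ w : Fin q) : ℕ) : ℝ) * (((σ w' : Fin q) : ℕ) : ℝ)) τ -
        CE μ S (fun σ => (((σ w : Fin q) : ℕ) : ℝ)) τ *
          CE μ S (fun σ => (((σ w' : Fin q) : ℕ) : ℝ)) τ) := by
    unfold Ex
    rw [mul_sum]
    refine sum_le_sum fun τ _ => ?_
    have h1 := mul_le_mul_of_nonneg_left (EntC_point hμ hl c hc hs S w w' hw hw' τ)
      (hμ.pos τ).le
    refine le_trans h1 (le_of_eq ?_)
    ring
  refine le_trans hstep ?_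
  refine mul_le_mul_of_nonneg_left ?_ (by positivity)
  exact ce_cov hμ hl S (fun σ => (((σ w : Fin q) : ℕ) : ℝ)) (fun σ => (((σ w' : Fin q) : ℕ) : ℝ))
    (fun σ => Nat.cast_nonneg _) (fun σ => Nat.cast_nonneg _) (EntC_mono_id w) (EntC_mono_id w')

end TPB
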