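import Pool.Agent.W_5dd92e_h55.EntA

/-! # Markov property and entropy -/

set_option autoImplicit false

open Finset
open scoped Classical

namespace TPB

variable {q : ℕ} {V : Type*} [Fintype V]

/-- the exchange of the values on `Q` -/
noncomputable def EntM_sw (Q : Finset V) (p : (V → Fin q) × (V → Fin q)) :
    (V → Fin q) × (V → Fin q) :=
  (fun v => if v ∈ Q then p.2 v else p.1 v, fun v => if v ∈ Q then p.1 v else p.2 v)

theorem EntM_sw_sw (Q : Finset V) (p : (V → Fin q) × (V → Fin q)) :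
    EntM_sw Q (EntM_sw Q p) = p := by
  apply Prod.ext
  · funext v
    by_cases h : v ∈ Q <;> simp [EntM_sw, h]
  · funext v
    by_cases h : v ∈ Q <;> simp [EntM_sw, h]

theorem EntM_mg {μ : (V → Fin q) → ℝ} (X Q C : Finset V) (hXQ : Disjoint X Q)
    (hQC : Disjoint Q C) (f g : (V → Fin q) → ℝ) (hfg : ∀ σ, μ σ = f σ * g σ)
    (hf : ∀ σ τ : V → Fin q, (∀ v, v ∉ Q → σ v = τ v) → f σ = f τ)
    (hg : ∀ σ τ : V → Fin q, (∀ v ∈ Q ∪ C, σ v = τ v) → g σ = g τ) (τ : V → Fin q) :
    mg μ (X ∪ Q ∪ C) τ * mg μ C τ = mg μ (X ∪ C) τ * mg μ (Q ∪ C) τ := by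
  have hX : ∀ v ∈ X, v ∉ Q := fun v hv hq => (Finset.disjoint_left.mp hXQ hv) hq
  have hC : ∀ v ∈ C, v ∉ Q := fun v hv hq => (Finset.disjoint_left.mp hQC hq) hv
  unfold mg
  rw [Finset.sum_mul_sum, Finset.sum_mul_sum, ← Finset.sum_product', ← Finset.sum_product']
  refine Finset.sum_bij' (fun p _ => EntM_sw Q p) (fun p _ => EntM_sw Q p) ?_ ?_ ?_ ?_ ?_
  · rintro ⟨σ, σ'⟩ hp
    rw [Finset.mem_product] at hp ⊢
    simp only [cyl, Finset.mem_filter, Finset.mem_univ, true_and, Finset.mem_union] at hp ⊢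
    obtain ⟨h1, h2⟩ := hp
    refine ⟨?_, ?_⟩
    · intro v hv
      have hq : v ∉ Q := by
        rcases hv with hv | hv
        · exact hX v hv
        · exact hC v hv
      simp only [EntM_sw, hq, if_false]
      rcases hv with hv | hv
      · exact h1 v (Or.inl (Or.inl hv))
      · exact h1 v (Or.inr hv)
    · intro v hv
      rcases hv with hv | hv
      · simp only [EntM_sw, hv, if_true]
        exact h1 v (Or.inl (Or.inr hv))
      · have hq : v ∉ Q := hC v hv
        simp only [EntM_sw, hq, if_false]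
        exact h2 v hv
  · rintro ⟨σ, σ'⟩ hp
    rw [Finset.mem_product] at hp ⊢
    simp only [cyl, Finset.mem_filter, Finset.mem_univ, true_and, Finset.mem_union] at hp ⊢
    obtain ⟨h1, h2⟩ := hp
    refine ⟨?_, ?_⟩
    · intro v hv
      rcases hv with (hv | hv) | hv
      · have hq : v ∉ Q := hX v hv
        simp only [EntM_sw, hq, if_false]
        exact h1 v (Or.inl hv)
      · simp only [EntM_sw, hv, if_true]
        exact h2 v (Or.inl hv)
      · have hq : v ∉ Q := hC v hv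
        simp only [EntM_sw, hq, if_false]
        exact h1 v (Or.inr hv)
    · intro v hv
      have hq : v ∉ Q := hC v hv
      simp only [EntM_sw, hq, if_false]
      exact h2 v (Or.inr hv)
  · intro p _
    exact EntM_sw_sw Q p
  · intro p _
    exact EntM_sw_sw Q p
  · rintro ⟨σ, σ'⟩ hp
    rw [Finset.mem_product] at hp
    simp only [cyl, Finset.mem_filter, Finset.mem_univ, true_and, Finset.mem_union] at hp
    obtain ⟨h1, h2⟩ := hp
    have e1 : f (EntM_sw Q (σ, σ')).1 = f σ := by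
      apply hf
      intro v hv
      simp only [EntM_sw, hv, if_false]
    have e2 : f (EntM_sw Q (σ, σ')).2 = f σ' := by
      apply hf
      intro v hv
      simp only [EntM_sw, hv, if_false]
    have e3 : g (EntM_sw Q (σ, σ')).1 = g σ' := by
      apply hg
      intro v hv
      by_cases hq : v ∈ Q
      · simp only [EntM_sw, hq, if_true]
      · simp only [EntM_sw, hq, if_false]
        have hvC : v ∈ C := by
          rcases Finset.mem_union.mp hv with h | h
          · exact absurd h hq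
          · exact h
        rw [h1 v (Or.inr hvC), h2 v hvC]
    have e4 : g (EntM_sw Q (σ, σ')).2 = g σ := by
      apply hg
      intro v hv
      by_cases hq : v ∈ Q
      · simp only [EntM_sw, hq, if_true]
      · simp only [EntM_sw, hq, if_false]
        have hvC : v ∈ C := by
          rcases Finset.mem_union.mp hv with h | h
          · exact absurd h hq
          · exact h
        rw [h1 v (Or.inr hvC), h2 v hvC]
    simp only [hfg]
    rw [e1, e2, e3, e4]
    ring

/-- MARKOV PROPERTY.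
`μ = f * g`, `f` does not depend on the sites of `Q`, `g` depends only on the sites of `Q ∪ C`; `X`, `Q` disjoint, `Q`, `C` disjoint.
PROOF. `mg (X ∪ Q ∪ C) τ * mg C τ = mg (X ∪ C) τ * mg (Q ∪ C) τ` for every `τ` (then take logarithms and expectations). Both sides are double sums
over `(σ, σ') ∈ cyl (X ∪ Q ∪ C) τ × cyl C τ` resp. `cyl (X ∪ C) τ × cyl (Q ∪ C) τ` of `μ σ * μ σ'`; the bijection exchanges the values of `σ` and `σ'` on
`Q`: `σ1 = σ` off `Q`, `σ'` on `Q`, and `σ1' = σ'` off `Q`, `σ` on `Q`; `f σ1 = f σ`, `f σ1' = f σ'`, `g σ1 = g σ'`, `g σ1' = g σ` (all agree on `C`). -/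
theorem Hs_markov {μ : (V → Fin q) → ℝ} (hμ : PW μ) (X Q C : Finset V) (hXQ : Disjoint X Q)
    (hQC : Disjoint Q C) (f g : (V → Fin q) → ℝ) (hfg : ∀ σ, μ σ = f σ * g σ)
    (hf : ∀ σ τ : V → Fin q, (∀ v, v ∉ Q → σ v = τ v) → f σ = f τ)
    (hg : ∀ σ τ : V → Fin q, (∀ v ∈ Q ∪ C, σ v = τ v) → g σ = g τ) :
    Hs μ (X ∪ C) + Hs μ (Q ∪ C) = Hs μ (X ∪ Q ∪ C) + Hs μ C := by
  have key : ∀ τ : V → Fin q, Real.log (mg μ (X ∪ C) τ) + Real.log (mg μ (Q ∪ C) τ) =
      Real.log (mg μ (X ∪ Q ∪ C) τ) + Real.log (mg μ C τ) := by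
    intro τ
    rw [← Real.log_mul (mg_pos hμ _ τ).ne' (mg_pos hμ _ τ).ne',
      ← Real.log_mul (mg_pos hμ _ τ).ne' (mg_pos hμ _ τ).ne',
      EntM_mg X Q C hXQ hQC f g hfg hf hg τ]
  have h2 : ∑ τ, μ τ * Real.log (mg μ (X ∪ C) τ) + ∑ τ, μ τ * Real.log (mg μ (Q ∪ C) τ) =
      ∑ τ, μ τ * Real.log (mg μ (X ∪ Q ∪ C) τ) + ∑ τ, μ τ * Real.log (mg μ C τ) := by
    rw [← Finset.sum_add_distrib, ← Finset.sum_add_distrib]
    apply Finset.sum_congr rfl
    intro τ _
    rw [← mul_add, key τ, mul_add]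
  unfold Hs
  linarith

end TPB
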