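import Pool.Agent.W_5dd92e_h55.EntA

/-! # Submodularity of entropy -/

set_option autoImplicit false

open Finset
open scoped Classical

namespace TPB

variable {q : ℕ} {V : Type*} [Fintype V]

/-- the sum over the configurations which agree with `σ` on `A` and with `σ'` on `B` -/
theorem EntS_K {μ : (V → Fin q) → ℝ} (hμ : PW μ) (A B : Finset V) (σ σ' : V → Fin q) :
    ∑ τ : V → Fin q, (if σ ∈ cyl A τ ∧ σ' ∈ cyl B τ then
      μ τ / (mg μ (A ∪ B) τ * mg μ (A ∩ B) τ) else 0) =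
      if σ' ∈ cyl (A ∩ B) σ then (mg μ (A ∩ B) σ)⁻¹ else 0 := by
  by_cases h : σ' ∈ cyl (A ∩ B) σ
  · rw [if_pos h]
    have h0 := EntA_mem_cyl.1 h
    set ρ : V → Fin q := fun v => if v ∈ A then σ v else σ' v with hρ
    have hiff : ∀ τ : V → Fin q, (σ ∈ cyl A τ ∧ σ' ∈ cyl B τ) ↔ τ ∈ cyl (A ∪ B) ρ := by
      intro τ
      rw [EntA_mem_cyl, EntA_mem_cyl, EntA_mem_cyl]
      constructor
      · rintro ⟨h1, h2⟩ v hv
        by_cases hA : v ∈ A
        · rw [hρ]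
          simp only [if_pos hA]
          exact (h1 v hA).symm
        · have hB : v ∈ B := (mem_union.1 hv).resolve_left hA
          rw [hρ]
          simp only [if_neg hA]
          exact (h2 v hB).symm
      · intro h1
        refine ⟨fun v hv => ?_, fun v hv => ?_⟩
        · have h2 := h1 v (mem_union_left _ hv)
          rw [h2, hρ]
          simp only [if_pos hv]
        · have h2 := h1 v (mem_union_right _ hv)
          rw [h2, hρ]
          by_cases hA : v ∈ A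
          · simp only [if_pos hA]
            exact h0 v (mem_inter.2 ⟨hA, hv⟩)
          · simp only [if_neg hA]
    have h1 : ∀ τ : V → Fin q, (if σ ∈ cyl A τ ∧ σ' ∈ cyl B τ then
        μ τ / (mg μ (A ∪ B) τ * mg μ (A ∩ B) τ) else 0) =
        if τ ∈ cyl (A ∪ B) ρ then μ τ * (mg μ (A ∪ B) ρ * mg μ (A ∩ B) σ)⁻¹ else 0 := by
      intro τ
      by_cases h2 : τ ∈ cyl (A ∪ B) ρ
      · rw [if_pos ((hiff τ).2 h2), if_pos h2]
        have h3 := EntA_mem_cyl.1 h2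
        rw [mg_congr μ (A ∪ B) τ ρ h3, mg_congr μ (A ∩ B) τ σ ?_, div_eq_mul_inv]
        intro v hv
        rw [h3 v (mem_union_left _ (mem_inter.1 hv).1), hρ]
        simp only [if_pos (mem_inter.1 hv).1]
      · rw [if_neg (fun h3 => h2 ((hiff τ).1 h3)), if_neg h2]
    simp only [h1]
    rw [← Finset.sum_filter, Finset.filter_mem_eq_inter, Finset.univ_inter, ← Finset.sum_mul]
    have h4 : ∑ i ∈ cyl (A ∪ B) ρ, μ i = mg μ (A ∪ B) ρ := rfl
    have h5 := (mg_pos hμ (A ∪ B) ρ).ne'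
    rw [h4, mul_inv, ← mul_assoc, mul_inv_cancel₀ h5, one_mul]
  · rw [if_neg h]
    refine Finset.sum_eq_zero fun τ _ => if_neg ?_
    rintro ⟨h1, h2⟩
    apply h
    rw [EntA_mem_cyl] at h1 h2 ⊢
    intro v hv
    rw [h1 v (mem_inter.1 hv).1, h2 v (mem_inter.1 hv).2]

theorem EntS_Ex {μ : (V → Fin q) → ℝ} (hμ : PW μ) (A B : Finset V) :
    ∑ τ, μ τ * (mg μ A τ * mg μ B τ / (mg μ (A ∪ B) τ * mg μ (A ∩ B) τ)) = 1 := by
  have hexp : ∀ τ : V → Fin q,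
      μ τ * (mg μ A τ * mg μ B τ / (mg μ (A ∪ B) τ * mg μ (A ∩ B) τ)) =
      ∑ σ : V → Fin q, ∑ σ' : V → Fin q, μ σ * μ σ' * (if σ ∈ cyl A τ ∧ σ' ∈ cyl B τ then
        μ τ / (mg μ (A ∪ B) τ * mg μ (A ∩ B) τ) else 0) := by
    intro τ
    have hA : mg μ A τ = ∑ σ : V → Fin q, if σ ∈ cyl A τ then μ σ else 0 := by
      rw [← Finset.sum_filter, Finset.filter_mem_eq_inter, Finset.univ_inter]
      rfl
    have hB : mg μ B τ = ∑ σ : V → Fin q, if σ ∈ cyl B τ then μ σ else 0 := by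
      rw [← Finset.sum_filter, Finset.filter_mem_eq_inter, Finset.univ_inter]
      rfl
    have h1 : μ τ * (mg μ A τ * mg μ B τ / (mg μ (A ∪ B) τ * mg μ (A ∩ B) τ)) =
        mg μ A τ * mg μ B τ * (μ τ / (mg μ (A ∪ B) τ * mg μ (A ∩ B) τ)) := by
      ring
    rw [h1]
    generalize μ τ / (mg μ (A ∪ B) τ * mg μ (A ∩ B) τ) = x
    rw [hA, hB, Finset.sum_mul_sum, Finset.sum_mul]
    refine Finset.sum_congr rfl fun σ _ => ?_
    rw [Finset.sum_mul]
    refine Finset.sum_congr rfl fun σ' _ => ?_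
    by_cases h2 : σ ∈ cyl A τ <;> by_cases h3 : σ' ∈ cyl B τ <;> simp [h2, h3]
  simp only [hexp]
  rw [Finset.sum_comm]
  have h2 : ∀ σ : V → Fin q, (∑ τ : V → Fin q, ∑ σ' : V → Fin q, μ σ * μ σ' *
      (if σ ∈ cyl A τ ∧ σ' ∈ cyl B τ then
        μ τ / (mg μ (A ∪ B) τ * mg μ (A ∩ B) τ) else 0)) = μ σ := by
    intro σ
    rw [Finset.sum_comm]
    have h3 : ∀ σ' : V → Fin q, (∑ τ : V → Fin q, μ σ * μ σ' *
        (if σ ∈ cyl A τ ∧ σ' ∈ cyl B τ then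
          μ τ / (mg μ (A ∪ B) τ * mg μ (A ∩ B) τ) else 0)) =
        if σ' ∈ cyl (A ∩ B) σ then μ σ' * (μ σ * (mg μ (A ∩ B) σ)⁻¹) else 0 := by
      intro σ'
      rw [← Finset.mul_sum, EntS_K hμ]
      by_cases h4 : σ' ∈ cyl (A ∩ B) σ
      · rw [if_pos h4, if_pos h4]
        ring
      · rw [if_neg h4, if_neg h4, mul_zero]
    simp only [h3]
    rw [← Finset.sum_filter, Finset.filter_mem_eq_inter, Finset.univ_inter, ← Finset.sum_mul]
    have h4 : ∑ i ∈ cyl (A ∩ B) σ, μ i = mg μ (A ∩ B) σ := rfl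
    have h5 := (mg_pos hμ (A ∩ B) σ).ne'
    rw [h4]
    field_simp
  simp only [h2]
  exact hμ.sum

/-- SUBMODULARITY OF ENTROPY.
PROOF. `Hs A + Hs B - Hs (A ∪ B) - Hs (A ∩ B) = - Ex (log (φ))`, `φ = mg A * mg B / (mg (A ∪ B) * mg (A ∩ B))`, and `log φ ≤ φ - 1`, so
`Ex φ ≤ 1` suffices. `Ex φ = ∑ τ, ∑ σ ∈ cyl A τ, ∑ σ' ∈ cyl B τ, μ τ μ σ μ σ' / (mg (A ∪ B) τ mg (A ∩ B) τ)`. Sum over `τ` first: for given `σ, σ'`
which agree on `A ∩ B` the `τ` form one cylinder of `A ∪ B`, so `∑ τ, μ τ / mg (A ∪ B) τ = 1`, and `mg (A ∩ B) τ = mg (A ∩ B) σ`; the rest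
is `∑ σ, μ σ / mg (A ∩ B) σ * ∑ σ' ∈ cyl (A ∩ B) σ, μ σ' = 1`. (If they do not agree there is no `τ`.) -/
theorem Hs_submod {μ : (V → Fin q) → ℝ} (hμ : PW μ) (A B : Finset V) :
    Hs μ (A ∪ B) + Hs μ (A ∩ B) ≤ Hs μ A + Hs μ B := by
  have h1 := EntS_Ex hμ A B
  have h2 : ∑ τ, μ τ * (Real.log (mg μ A τ) + Real.log (mg μ B τ) -
      Real.log (mg μ (A ∪ B) τ) - Real.log (mg μ (A ∩ B) τ)) ≤
      ∑ τ, μ τ * (mg μ A τ * mg μ B τ / (mg μ (A ∪ B) τ * mg μ (A ∩ B) τ) - 1) := by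
    refine Finset.sum_le_sum fun τ _ => mul_le_mul_of_nonneg_left ?_ (hμ.pos τ).le
    have a1 := mg_pos hμ A τ
    have a2 := mg_pos hμ B τ
    have a3 := mg_pos hμ (A ∪ B) τ
    have a4 := mg_pos hμ (A ∩ B) τ
    have h3 : Real.log (mg μ A τ * mg μ B τ / (mg μ (A ∪ B) τ * mg μ (A ∩ B) τ)) =
        Real.log (mg μ A τ) + Real.log (mg μ B τ) -
          Real.log (mg μ (A ∪ B) τ) - Real.log (mg μ (A ∩ B) τ) := by
      rw [Real.log_div (by positivity) (by positivity), Real.log_mul a1.ne' a2.ne',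
        Real.log_mul a3.ne' a4.ne']
      ring
    rw [← h3]
    exact Real.log_le_sub_one_of_pos (by positivity)
  have h4 : ∑ τ, μ τ * (mg μ A τ * mg μ B τ / (mg μ (A ∪ B) τ * mg μ (A ∩ B) τ) - 1) = 0 := by
    simp only [mul_sub, mul_one]
    rw [Finset.sum_sub_distrib, h1, hμ.sum, sub_self]
  rw [h4] at h2
  simp only [mul_sub, mul_add] at h2
  rw [Finset.sum_sub_distrib, Finset.sum_sub_distrib, Finset.sum_add_distrib] at h2
  unfold Hs
  linarith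

end TPB
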