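import Pool.Agent.W_5dd92e_h55.Fkg

/-! # The field -/

set_option autoImplicit false

open Finset
open scoped Classical

namespace TPB

variable {q : ℕ} {V : Type*} [Fintype V]

theorem Field_Z_pos (w : (V → Fin q) → ℝ) (hw : ∀ σ, 0 < w σ) (h : ℝ)
    (hne : Nonempty (V → Fin q)) : 0 < Zh w h := by
  unfold Zh
  exact Finset.sum_pos (fun σ _ => mul_pos (hw σ) (Real.exp_pos _)) Finset.univ_nonempty

theorem muh_pw (w : (V → Fin q) → ℝ) (hw : ∀ σ, 0 < w σ) (h : ℝ) (hne : Nonempty (V → Fin q)) :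
    PW (muh w h) := by
  have hZ := Field_Z_pos w hw h hne
  constructor
  · intro σ
    exact div_pos (mul_pos (hw σ) (Real.exp_pos _)) hZ
  · unfold muh
    rw [← Finset.sum_div]
    exact div_self hZ.ne'

theorem XX_nonneg (σ : V → Fin q) : 0 ≤ XX σ :=
  Finset.sum_nonneg fun _ _ => Nat.cast_nonneg _

theorem XX_le (σ : V → Fin q) : XX σ ≤ q * Fintype.card V := by
  unfold XX
  calc ∑ v, ((σ v : ℕ) : ℝ) ≤ ∑ _v : V, (q : ℝ) :=
        Finset.sum_le_sum fun v _ => Nat.cast_le.2 (σ v).isLt.le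
    _ = q * Fintype.card V := by
        rw [Finset.sum_const, nsmul_eq_mul, mul_comm, Finset.card_univ]

theorem Field_deriv (c : (V → Fin q) → ℝ) (h : ℝ) :
    HasDerivAt (fun h : ℝ => ∑ σ, c σ * Real.exp (h * XX σ))
      (∑ σ, (c σ * XX σ) * Real.exp (h * XX σ)) h := by
  refine HasDerivAt.fun_sum fun σ _ => ?_
  have h1 : HasDerivAt (fun h : ℝ => h * XX σ) (XX σ) h := by
    simpa using (hasDerivAt_id h).mul_const (XX σ)
  have h2 := (h1.exp).const_mul (c σ)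
  refine h2.congr_deriv ?_
  ring

theorem Field_alg (a b z : ℝ) (hz : z ≠ 0) :
    (a * z - b * b) / z ^ 2 = a / z - b / z * (b / z) := by
  field_simp

theorem Field_Ex (w : (V → Fin q) → ℝ) (h : ℝ) (f : (V → Fin q) → ℝ) :
    Ex (muh w h) f = (∑ σ, (w σ * f σ) * Real.exp (h * XX σ)) / Zh w h := by
  unfold Ex muh
  rw [Finset.sum_div]
  refine Finset.sum_congr rfl fun σ _ => ?_
  ring

theorem Field_cv (μ : (V → Fin q) → ℝ) : ∑ u, ∑ v, Cv μ u v =
    Ex μ (fun σ => XX σ * XX σ) - Ex μ XX * Ex μ XX := by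
  have h1 : Ex μ (fun σ => XX σ * XX σ) =
      ∑ u, ∑ v, Ex μ (fun σ => ((σ u : ℕ) : ℝ) * ((σ v : ℕ) : ℝ)) := by
    unfold Ex XX
    simp_rw [Finset.sum_mul_sum, Finset.mul_sum]
    rw [Finset.sum_comm]
    refine Finset.sum_congr rfl fun u _ => ?_
    rw [Finset.sum_comm]
  have h2 : Ex μ XX = ∑ u, Ex μ (fun σ => ((σ u : ℕ) : ℝ)) := by
    unfold Ex XX
    simp_rw [Finset.mul_sum]
    rw [Finset.sum_comm]
  unfold Cv
  simp_rw [Finset.sum_sub_distrib]
  rw [h1, h2, Finset.sum_mul_sum]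

theorem Field_Ex_le {μ : (V → Fin q) → ℝ} (hμ : PW μ) : Ex μ XX ≤ q * Fintype.card V := by
  unfold Ex
  calc ∑ τ, μ τ * XX τ ≤ ∑ τ, μ τ * ((q : ℝ) * Fintype.card V) :=
        Finset.sum_le_sum fun τ _ => mul_le_mul_of_nonneg_left (XX_le τ) (hμ.pos τ).le
    _ = q * Fintype.card V := by rw [← Finset.sum_mul, hμ.sum, one_mul]

theorem Field_Ex_nonneg {μ : (V → Fin q) → ℝ} (hμ : PW μ) : 0 ≤ Ex μ XX :=
  Finset.sum_nonneg fun τ _ => mul_nonneg (hμ.pos τ).le (XX_nonneg τ)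

/-- THE FIELD. PROOF. `f h = Ex (muh w h) XX = (∑ XX w e^{h XX}) / (∑ w e^{h XX})` has derivative `Ex (XX^2) - (Ex XX)^2 = ∑_{u,v} Cv u v`, and `0 ≤ f ≤ q n`;
mean value theorem on `[0, δ]`. -/
theorem exists_field (w : (V → Fin q) → ℝ) (hw : ∀ σ, 0 < w σ) (hne : Nonempty (V → Fin q))
    (δ : ℝ) (hδ : 0 < δ) : ∃ h, 0 ≤ h ∧ h ≤ δ ∧
      ∑ u, ∑ v, Cv (muh w h) u v ≤ q * Fintype.card V / δ := by
  have hd : ∀ h, HasDerivAt (fun h : ℝ => Ex (muh w h) XX)
      (∑ u, ∑ v, Cv (muh w h) u v) h := by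
    intro h
    have hZ := Field_Z_pos w hw h hne
    have h1 := Field_deriv (fun σ => w σ * XX σ) h
    have h2 := Field_deriv w h
    have h3 := h1.div h2 hZ.ne'
    have h4 : (fun h : ℝ => Ex (muh w h) XX) =
        (fun h : ℝ => ∑ σ, (w σ * XX σ) * Real.exp (h * XX σ)) /
        (fun h : ℝ => ∑ σ, w σ * Real.exp (h * XX σ)) := by
      funext h
      rw [Field_Ex]
      rfl
    rw [h4]
    refine h3.congr_deriv ?_
    rw [Field_cv, Field_Ex, Field_Ex]
    have h5 : ∑ σ, (w σ * (XX σ * XX σ)) * Real.exp (h * XX σ) =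
        ∑ σ, (w σ * XX σ * XX σ) * Real.exp (h * XX σ) :=
      Finset.sum_congr rfl fun σ _ => by ring
    rw [h5]
    change ((∑ σ, (w σ * XX σ * XX σ) * Real.exp (h * XX σ)) * Zh w h -
      (∑ σ, (w σ * XX σ) * Real.exp (h * XX σ)) * (∑ σ, (w σ * XX σ) * Real.exp (h * XX σ))) /
      Zh w h ^ 2 = _
    exact Field_alg _ _ _ hZ.ne'
  obtain ⟨c, hc, hc2⟩ := exists_hasDerivAt_eq_slope (fun h : ℝ => Ex (muh w h) XX)
    (fun h => ∑ u, ∑ v, Cv (muh w h) u v) hδ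
    (fun x _ => (hd x).continuousAt.continuousWithinAt) (fun x _ => hd x)
  refine ⟨c, hc.1.le, hc.2.le, ?_⟩
  change ∑ u, ∑ v, Cv (muh w c) u v = _ at hc2
  rw [hc2, sub_zero]
  have h1 := Field_Ex_le (muh_pw w hw δ hne)
  have h2 := Field_Ex_nonneg (muh_pw w hw 0 hne)
  exact div_le_div_of_nonneg_right (by linarith) hδ.le

theorem Field_XX (σ τ : V → Fin q) : XX (σ ⊓ τ) + XX (σ ⊔ τ) = XX σ + XX τ := by
  unfold XX
  rw [← Finset.sum_add_distrib, ← Finset.sum_add_distrib]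
  refine Finset.sum_congr rfl fun v _ => ?_
  rw [Pi.inf_apply, Pi.sup_apply]
  rcases le_total (σ v) (τ v) with h | h
  · rw [inf_eq_left.2 h, sup_eq_right.2 h]
  · rw [inf_eq_right.2 h, sup_eq_left.2 h, add_comm]

/-- the field factor is log-supermodular (with equality), so `muh` is.
PROOF. `XX (σ ⊓ τ) + XX (σ ⊔ τ) = XX σ + XX τ` -/
theorem muh_lsm (w : (V → Fin q) → ℝ) (hw : ∀ σ, 0 < w σ) (hl : LSM w) (h : ℝ) :
    LSM (muh w h) := by
  intro σ τ
  have hZ := Field_Z_pos w hw h ⟨σ⟩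
  have h1 := hl σ τ
  have h2 : Real.exp (h * XX (σ ⊓ τ)) * Real.exp (h * XX (σ ⊔ τ)) =
      Real.exp (h * XX σ) * Real.exp (h * XX τ) := by
    rw [← Real.exp_add, ← Real.exp_add, ← mul_add, ← mul_add, Field_XX]
  unfold muh
  have h3 : w σ * Real.exp (h * XX σ) / Zh w h * (w τ * Real.exp (h * XX τ) / Zh w h) =
      (w σ * w τ) * (Real.exp (h * XX σ) * Real.exp (h * XX τ)) / (Zh w h * Zh w h) := by
    rw [div_mul_div_comm]
    ring
  have h4 : w (σ ⊓ τ) * Real.exp (h * XX (σ ⊓ τ)) / Zh w h *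
      (w (σ ⊔ τ) * Real.exp (h * XX (σ ⊔ τ)) / Zh w h) =
      (w (σ ⊓ τ) * w (σ ⊔ τ)) * (Real.exp (h * XX (σ ⊓ τ)) * Real.exp (h * XX (σ ⊔ τ))) /
      (Zh w h * Zh w h) := by
    rw [div_mul_div_comm]
    ring
  rw [h3, h4, h2]
  apply div_le_div_of_nonneg_right _ (mul_pos hZ hZ).le
  exact mul_le_mul_of_nonneg_right h1 (mul_pos (Real.exp_pos _) (Real.exp_pos _)).le

/-- Gibbs' formula: `log (Zh w h) = Hs univ + Ex (log w) + h Ex XX` -/
theorem log_Zh (w : (V → Fin q) → ℝ) (hw : ∀ σ, 0 < w σ) (h : ℝ) (hne : Nonempty (V → Fin q)) :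
    Real.log (Zh w h) = Hs (muh w h) univ + Ex (muh w h) (fun σ => Real.log (w σ)) +
      h * Ex (muh w h) XX := by
  have hZ := Field_Z_pos w hw h hne
  have hP := muh_pw w hw h hne
  have h1 : ∀ τ, mg (muh w h) univ τ = muh w h τ := by
    intro τ
    unfold mg
    have : cyl univ τ = {τ} := by
      ext σ
      unfold cyl
      rw [Finset.mem_filter, Finset.mem_singleton]
      constructor
      · intro hσ
        funext v
        exact hσ.2 v (Finset.mem_univ v)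
      · rintro rfl
        exact ⟨Finset.mem_univ _, fun v _ => rfl⟩
    rw [this, Finset.sum_singleton]
  have h2 : ∀ τ, Real.log (muh w h τ) = Real.log (w τ) + h * XX τ - Real.log (Zh w h) := by
    intro τ
    unfold muh
    rw [Real.log_div (mul_pos (hw τ) (Real.exp_pos _)).ne' hZ.ne',
      Real.log_mul (hw τ).ne' (Real.exp_pos _).ne', Real.log_exp]
  have h3 : Hs (muh w h) univ = -∑ τ, muh w h τ *
      (Real.log (w τ) + h * XX τ - Real.log (Zh w h)) := by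
    unfold Hs
    congr 1
    refine Finset.sum_congr rfl fun τ _ => ?_
    rw [h1, h2]
  have h4 : ∑ τ, muh w h τ * (Real.log (w τ) + h * XX τ - Real.log (Zh w h)) =
      ∑ τ, muh w h τ * Real.log (w τ) + h * ∑ τ, muh w h τ * XX τ - Real.log (Zh w h) := by
    have h5 : Real.log (Zh w h) = ∑ τ, muh w h τ * Real.log (Zh w h) := by
      rw [← Finset.sum_mul, hP.sum, one_mul]
    rw [Finset.mul_sum, ← Finset.sum_add_distrib]
    conv_rhs => rw [h5]
    rw [← Finset.sum_sub_distrib]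
    refine Finset.sum_congr rfl fun τ _ => ?_
    ring
  rw [h3, h4]
  unfold Ex
  ring

end TPB
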