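import Pool.Agent.W_5dd92e_h55.Defs

/-! # Bipartite graphs of large girth: predecessors -/

set_option autoImplicit false

open Finset
open scoped Classical

namespace TPB

variable {V : Type*} [Fintype V]

/-- two different paths between the same vertices give a short cycle.
PROOF. The graph `H = fromEdgeSet {e | e ∈ p.edges ∨ e ∈ p'.edges}` is a subgraph of `G`; both paths transfer to `H` (`Walk.transfer`) and are different, so `H` is not
acyclic (`IsAcyclic.path_unique`); a cycle of `H` has pairwise different edges, all among the at most `p.length + p'.length` edges; map it to `G`. -/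
theorem two_paths (G : SimpleGraph V) (x y : V) (p p' : G.Walk x y) (hp : p.IsPath)
    (hp' : p'.IsPath) (hne : p ≠ p') : G.egirth ≤ ((p.length + p'.length : ℕ) : ℕ∞) := by
  set H : SimpleGraph V := SimpleGraph.fromEdgeSet {e | e ∈ p.edges ∨ e ∈ p'.edges} with hH
  have hHG : H ≤ G := by
    intro a b hab
    rw [hH, SimpleGraph.fromEdgeSet_adj] at hab
    rcases hab.1 with h | h
    · exact p.adj_of_mem_edges h
    · exact p'.adj_of_mem_edges h
  have hedge : ∀ e ∈ H.edgeSet, e ∈ p.edges ∨ e ∈ p'.edges := by
    intro e he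
    rw [hH, SimpleGraph.edgeSet_fromEdgeSet] at he
    exact he.1
  have h1 : ∀ e ∈ p.edges, e ∈ H.edgeSet := by
    intro e he
    rw [hH, SimpleGraph.edgeSet_fromEdgeSet]
    exact ⟨Or.inl he, G.not_isDiag_of_mem_edgeSet (p.edges_subset_edgeSet he)⟩
  have h2 : ∀ e ∈ p'.edges, e ∈ H.edgeSet := by
    intro e he
    rw [hH, SimpleGraph.edgeSet_fromEdgeSet]
    exact ⟨Or.inr he, G.not_isDiag_of_mem_edgeSet (p'.edges_subset_edgeSet he)⟩
  have hnac : ¬ H.IsAcyclic := by
    intro hac
    have := hac.path_unique ⟨p.transfer H h1, hp.transfer h1⟩ ⟨p'.transfer H h2, hp'.transfer h2⟩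
    have hw : p.transfer H h1 = p'.transfer H h2 := congrArg Subtype.val this
    apply hne
    apply SimpleGraph.Walk.ext_support
    rw [← SimpleGraph.Walk.support_transfer p h1, ← SimpleGraph.Walk.support_transfer p' h2, hw]
  unfold SimpleGraph.IsAcyclic at hnac
  push Not at hnac
  obtain ⟨v, cy, hcy⟩ := hnac
  have hlen : cy.length ≤ p.length + p'.length := by
    have hsub : cy.edges ⊆ p.edges ++ p'.edges := by
      intro e he
      rw [List.mem_append]
      exact hedge e (cy.edges_subset_edgeSet he)
    have := (List.subperm_of_subset hcy.isTrail.edges_nodup hsub).length_le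
    rw [List.length_append, SimpleGraph.Walk.length_edges, SimpleGraph.Walk.length_edges,
      SimpleGraph.Walk.length_edges] at this
    exact this
  have hG := (hcy.mapLe hHG).egirth_le_length
  refine le_trans hG ?_
  rw [SimpleGraph.Walk.mapLe, SimpleGraph.Walk.length_map]
  exact_mod_cast hlen

/-- parity: the distances to adjacent vertices are different.
PROOF. the parity of `dist x w` is determined by the colours (`SimpleGraph.Coloring.even_length_iff_congr` or directly by induction on a walk). -/
theorem dist_ne (G : SimpleGraph V) (c : V → Bool) (hp : Prp G c) (x y w : V) (hxy : G.Adj x y)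
    (hr : G.Reachable x w) : G.dist x w ≠ G.dist y w := by
  intro h
  have hr' : G.Reachable y w := hxy.symm.reachable.trans hr
  obtain ⟨p, hpl⟩ := hr.exists_walk_length_eq_dist
  obtain ⟨p', hpl'⟩ := hr'.exists_walk_length_eq_dist
  let C : G.Coloring Bool := SimpleGraph.Coloring.mk c (fun {v w} h => hp v w h)
  have e1 := C.even_length_iff_congr p
  have e2 := C.even_length_iff_congr p'
  rw [hpl] at e1
  rw [hpl', ← h] at e2
  have hc : c x ≠ c y := hp x y hxy
  have e3 : (c x = true ↔ c w = true) ↔ (c y = true ↔ c w = true) := e1.symm.trans e2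
  revert e3 hc
  cases c x <;> cases c y <;> cases c w <;> simp

/-- distances to adjacent vertices differ by exactly one -/
theorem dist_step (G : SimpleGraph V) (c : V → Bool) (hp : Prp G c) (x y w : V)
    (hxy : G.Adj x y) (hr : G.Reachable x w) :
    G.dist y w = G.dist x w + 1 ∨ G.dist x w = G.dist y w + 1 := by
  have hne := dist_ne G c hp x y w hxy hr
  have hr' : G.Reachable y w := hxy.symm.reachable.trans hr
  obtain ⟨p, hpl⟩ := hr.exists_walk_length_eq_dist
  obtain ⟨p', hpl'⟩ := hr'.exists_walk_length_eq_dist
  have h1 : G.dist y w ≤ G.dist x w + 1 := by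
    have := SimpleGraph.dist_le (SimpleGraph.Walk.cons hxy.symm p)
    rw [SimpleGraph.Walk.length_cons, hpl] at this
    exact this
  have h2 : G.dist x w ≤ G.dist y w + 1 := by
    have := SimpleGraph.dist_le (SimpleGraph.Walk.cons hxy p')
    rw [SimpleGraph.Walk.length_cons, hpl'] at this
    exact this
  omega

/-- UNIQUE PREDECESSOR: at most one neighbour of `v` is closer to `w`.
PROOF. otherwise the geodesics `v, c, .., w` and `v, c', .., w` are different paths of length `dist v w ≤ L`; `two_paths`. -/
theorem uniq_pred (G : SimpleGraph V) (L : ℕ) (hg : ((2 * L + 1 : ℕ) : ℕ∞) ≤ G.egirth)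
    (v w c c' : V) (hr : G.Reachable v w) (hd : G.dist v w ≤ L) (hc : G.Adj v c)
    (hc' : G.Adj v c') (h1 : G.dist c w < G.dist v w) (h2 : G.dist c' w < G.dist v w) :
    c = c' := by
  by_contra hne
  have hr1 : G.Reachable c w := hc.symm.reachable.trans hr
  have hr2 : G.Reachable c' w := hc'.symm.reachable.trans hr
  obtain ⟨p, hpl⟩ := hr1.exists_walk_length_eq_dist
  obtain ⟨p', hpl'⟩ := hr2.exists_walk_length_eq_dist
  have l1 : (SimpleGraph.Walk.cons hc p).length = G.dist v w := by
    have := SimpleGraph.dist_le (SimpleGraph.Walk.cons hc p)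
    rw [SimpleGraph.Walk.length_cons, hpl] at this ⊢
    omega
  have l2 : (SimpleGraph.Walk.cons hc' p').length = G.dist v w := by
    have := SimpleGraph.dist_le (SimpleGraph.Walk.cons hc' p')
    rw [SimpleGraph.Walk.length_cons, hpl'] at this ⊢
    omega
  have q1 := SimpleGraph.Walk.isPath_of_length_eq_dist _ l1
  have q2 := SimpleGraph.Walk.isPath_of_length_eq_dist _ l2
  have hne' : SimpleGraph.Walk.cons hc p ≠ SimpleGraph.Walk.cons hc' p' := by
    intro h
    have hs := congrArg (fun q => SimpleGraph.Walk.getVert q 1) h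
    simp at hs
    exact hne hs
  have := two_paths G v w _ _ q1 q2 hne'
  rw [l1, l2] at this
  have h3 := le_trans hg this
  have h4 : 2 * L + 1 ≤ G.dist v w + G.dist v w := by exact_mod_cast h3
  omega

end TPB
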