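import Pool.Agent.W_5dd92e_h55.GeoA

/-! # Bipartite graphs of large girth: the sides of an edge -/

set_option autoImplicit false

open Finset
open scoped Classical

namespace TPB

variable {V : Type*} [Fintype V]

theorem GeoB_aux1 (G : SimpleGraph V) (x y w : V) (hxy : G.Adj x y) (hr : G.Reachable x w) :
    G.dist y w ≤ G.dist x w + 1 := by
  obtain ⟨p, hp⟩ := hr.exists_walk_length_eq_dist
  have h := SimpleGraph.dist_le (SimpleGraph.Walk.cons hxy.symm p)
  rw [SimpleGraph.Walk.length_cons, hp] at h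
  exact h

/-- a neighbour which is closer -/
theorem GeoB_aux2 (G : SimpleGraph V) (x w : V) (hr : G.Reachable x w) (hne : x ≠ w) :
    ∃ c, G.Adj x c ∧ G.Reachable c w ∧ G.dist c w + 1 = G.dist x w := by
  obtain ⟨p, hp⟩ := hr.exists_walk_length_eq_dist
  cases p with
  | nil => exact absurd rfl hne
  | cons h q =>
    rename_i c
    refine ⟨c, h, ⟨q⟩, ?_⟩
    have h1 := SimpleGraph.dist_le q
    rw [SimpleGraph.Walk.length_cons] at hp
    have h2 := GeoB_aux1 G c x w h.symm ⟨q⟩
    omega

theorem geo1 (G : SimpleGraph V) (a : ℕ) (x y : V) (hxy : G.Adj x y) :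
    x ∈ SS G a x y ∧ SS G a x y ⊆ SS G (a + 1) x y := by
  constructor
  · simp only [SS, mem_filter, mem_univ, true_and]
    refine ⟨SimpleGraph.Reachable.refl x, ?_, ?_⟩
    · rw [SimpleGraph.dist_self]; exact Nat.zero_le a
    · rw [SimpleGraph.dist_self, SimpleGraph.dist_eq_one_iff_adj.mpr hxy.symm]
      exact Nat.zero_lt_one
  · intro w hw
    simp only [SS, mem_filter, mem_univ, true_and] at hw ⊢
    exact ⟨hw.1, hw.2.1.trans (Nat.le_succ a), hw.2.2⟩

/-- PROOF. a vertex at distance `1 ≤ k ≤ a + 1` has a geodesic to `v`, whose first step from `v` is the neighbour. -/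
theorem geo2 (G : SimpleGraph V) (a : ℕ) (v : V) :
    Bl G (a + 1) v = insert v ((univ.filter (fun c => G.Adj v c)).biUnion
      (fun c => SS G a c v)) := by
  ext w
  simp only [Bl, SS, mem_insert, mem_biUnion, mem_filter, mem_univ, true_and]
  constructor
  · rintro ⟨hr, hd⟩
    by_cases hne : v = w
    · exact Or.inl hne.symm
    · right
      obtain ⟨c, h1, h2, h3⟩ := GeoB_aux2 G v w hr hne
      exact ⟨c, h1, h2, by omega, by omega⟩
  · rintro (rfl | ⟨c, h1, h2, h3, h4⟩)
    · exact ⟨SimpleGraph.Reachable.refl _, by rw [SimpleGraph.dist_self]; exact Nat.zero_le _⟩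
    · have h5 := GeoB_aux1 G c v w h1.symm h2
      exact ⟨h1.reachable.trans h2, by omega⟩

theorem geo3 (G : SimpleGraph V) (a : ℕ) (v c : V) (h : G.Adj v c) : v ∉ SS G a c v := by
  intro hv
  simp only [SS, mem_filter, mem_univ, true_and, SimpleGraph.dist_self] at hv
  exact absurd hv.2.2 (Nat.not_lt_zero _)

/-- PROOF. `uniq_pred` -/
theorem geo4 (G : SimpleGraph V) (a : ℕ) (hg : ((2 * (a + 1) + 1 : ℕ) : ℕ∞) ≤ G.egirth)
    (v c c' : V) (hc : G.Adj v c) (hc' : G.Adj v c') (hne : c ≠ c') :
    Disjoint (SS G a c v) (SS G a c' v) := by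
  rw [Finset.disjoint_left]
  intro w hw hw'
  simp only [SS, mem_filter, mem_univ, true_and] at hw hw'
  have hr : G.Reachable v w := hc.reachable.trans hw.1
  have h5 := GeoB_aux1 G c v w hc.symm hw.1
  exact hne (uniq_pred G (a + 1) hg v w c c' hr (by omega) hc hc' hw.2.2 hw'.2.2)

/-- PROOF. `dist_step` -/
theorem geo5 (G : SimpleGraph V) (c : V → Bool) (hp : Prp G c) (a : ℕ) (v x : V)
    (h : G.Adj v x) : SS G (a + 1) v x = Bl G (a + 1) v \ SS G a x v := by
  ext w
  simp only [Bl, SS, mem_sdiff, mem_filter, mem_univ, true_and]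
  constructor
  · rintro ⟨h1, h2, h3⟩
    exact ⟨⟨h1, h2⟩, fun h4 => by omega⟩
  · rintro ⟨⟨h1, h2⟩, h3⟩
    refine ⟨h1, h2, ?_⟩
    by_contra h4
    rcases dist_step G c hp v x w h h1 with h5 | h5
    · exact h4 (by omega)
    · exact h3 ⟨h.symm.reachable.trans h1, by omega, by omega⟩

/-- neighbours: the neighbours of a vertex `w ≠ v` of `S_a(v,u)` are in `S_{a+1}(v,u)`.
PROOF. only `dist v w'' < dist u w''` is to be shown. Otherwise (`dist_step`) `dist v w'' = dist u w'' + 1`, while `dist u w = dist v w + 1`; as distances along the edge `w w''`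
change by one, `dist v w'' = dist v w + 1` and `dist u w'' = dist v w`, so `dist w'' v ≤ a + 1`. Both `w` and the next vertex of a geodesic from `w''` to `u` followed by `v` (i.e. a neighbour `z` of `w''` with
`dist u z = dist u w'' - 1`, if `w'' ≠ u`) are closer to `v` than `w''`; by `uniq_pred` `z = w`, but `dist u w = dist v w + 1 > dist u z`. If `w'' = u` then `dist v w = 0`, `w = v`. -/
theorem geo6 (G : SimpleGraph V) (c : V → Bool) (hp : Prp G c) (a : ℕ)
    (hg : ((2 * (a + 1) + 1 : ℕ) : ℕ∞) ≤ G.egirth) (u v w w' : V) (huv : G.Adj u v)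
    (hw : w ∈ SS G a v u) (hwv : w ≠ v) (hww : G.Adj w w') : w' ∈ SS G (a + 1) v u := by
  simp only [SS, mem_filter, mem_univ, true_and] at hw ⊢
  obtain ⟨hr, hd, hlt⟩ := hw
  have hrw' : G.Reachable v w' := hr.trans hww.reachable
  have hruw : G.Reachable u w := huv.reachable.trans hr
  have hruw' : G.Reachable u w' := hruw.trans hww.reachable
  have e1 := GeoB_aux1 G w w' v hww hr.symm
  rw [SimpleGraph.dist_comm (u := w') (v := v), SimpleGraph.dist_comm (u := w) (v := v)] at e1
  refine ⟨hrw', by omega, ?_⟩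
  by_contra hcon
  have a1 := dist_step G c hp u v w' huv hruw'
  have a2 := dist_step G c hp u v w huv hruw
  have a3 := dist_step G c hp w w' v hww hr.symm
  have a4 := dist_step G c hp w w' u hww hruw.symm
  rw [SimpleGraph.dist_comm (u := w') (v := v), SimpleGraph.dist_comm (u := w) (v := v)] at a3
  rw [SimpleGraph.dist_comm (u := w') (v := u), SimpleGraph.dist_comm (u := w) (v := u)] at a4
  have hpos : 0 < G.dist v w := hr.pos_dist_of_ne (Ne.symm hwv)
  have hne : w' ≠ u := by
    rintro rfl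
    rw [SimpleGraph.dist_self] at a1 a4
    omega
  obtain ⟨z, z1, z2, z3⟩ := GeoB_aux2 G w' u hruw'.symm hne
  rw [SimpleGraph.dist_comm (u := z) (v := u), SimpleGraph.dist_comm (u := w') (v := u)] at z3
  have z4 := GeoB_aux1 G u v z huv z2.symm
  have hzw : w = z := by
    refine uniq_pred G (a + 1) hg w' v w z hrw'.symm ?_ hww.symm z1 ?_ ?_
    · rw [SimpleGraph.dist_comm]; omega
    · rw [SimpleGraph.dist_comm (u := w) (v := v), SimpleGraph.dist_comm (u := w') (v := v)]
      omega
    · rw [SimpleGraph.dist_comm (u := z) (v := v), SimpleGraph.dist_comm (u := w') (v := v)]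
      omega
  subst hzw
  omega

end TPB
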