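import Pool.Agent.W_5dd92e_h55.GeoB
import Pool.Agent.W_5dd92e_h55.AbsB

/-! # Bipartite graphs of large girth: counting pairs -/

set_option autoImplicit false

open Finset
open scoped Classical

namespace TPB

variable {V : Type*} [Fintype V]

omit [Fintype V] in
theorem GeoC_pred (G : SimpleGraph V) (y w : V) (n : ℕ) (hr : G.Reachable y w)
    (hd : G.dist y w = n + 1) : ∃ z, G.Adj w z ∧ G.dist y z = n ∧ G.Reachable y z := by
  obtain ⟨p, hp⟩ := hr.symm.exists_walk_length_eq_dist
  rw [SimpleGraph.dist_comm] at hp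
  cases p with
  | nil =>
    rw [SimpleGraph.Walk.length_nil] at hp
    omega
  | @cons _ z _ h q =>
    rw [SimpleGraph.Walk.length_cons] at hp
    have h1 := SimpleGraph.dist_le q
    have h2 := (q.reachable).symm.dist_triangle_left w
    have h3 : G.dist z w = 1 := SimpleGraph.dist_eq_one_iff_adj.2 h.symm
    rw [SimpleGraph.dist_comm] at h1
    refine ⟨z, h, ?_, q.reachable.symm⟩
    omega

theorem GeoC_side (G : SimpleGraph V) (c : V → Bool) (hp : Prp G c) (x y w' z : V)
    (hxy : G.Adj x y) (hr : G.Reachable y w') (hw' : G.dist y w' < G.dist x w') (n : ℕ)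
    (hn : G.dist y w' = n + 1) (hz : G.Adj w' z) (hz1 : G.dist y z = n)
    (hz2 : G.Reachable y z) : G.dist y z < G.dist x z := by
  have h1 := dist_step G c hp x y w' hxy (hxy.reachable.trans hr)
  have h2 := (hxy.reachable.trans hz2).dist_triangle_left w'
  have h3 : G.dist z w' = 1 := SimpleGraph.dist_eq_one_iff_adj.2 hz.symm
  omega

/-- uniqueness of the points of a geodesic -/
theorem GeoC_uniq (G : SimpleGraph V) (L : ℕ) (hg : ((2 * L + 1 : ℕ) : ℕ∞) ≤ G.egirth)
    (w : V) (n : ℕ) : ∀ (w' y y' : V), G.Reachable y w' → G.Reachable y' w' →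
    G.Reachable w y → G.Reachable w y' →
    G.dist y w' = n → G.dist y' w' = n → G.dist w w' = G.dist w y + n →
    G.dist w w' = G.dist w y' + n → G.dist w w' ≤ L → y = y' := by
  induction n with
  | zero =>
    intro w' y y' hr hr' _ _ h1 h2 _ _ _
    rw [hr.dist_eq_zero_iff] at h1
    rw [hr'.dist_eq_zero_iff] at h2
    rw [h1, h2]
  | succ n ih =>
    intro w' y y' hr hr' hwy hwy' h1 h2 h3 h4 h5
    obtain ⟨z, hz, hz1, hz2⟩ := GeoC_pred G y w' n hr h1
    obtain ⟨z', hz', hz1', hz2'⟩ := GeoC_pred G y' w' n hr' h2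
    have e1 := hwy.dist_triangle_left z
    have e2 := hwy'.dist_triangle_left z'
    have e3 := (hwy.trans hz2).dist_triangle_left w'
    have e4 : G.dist z w' = 1 := SimpleGraph.dist_eq_one_iff_adj.2 hz.symm
    have e5 : G.dist w' w = G.dist w w' := SimpleGraph.dist_comm
    have e6 : G.dist z w = G.dist w z := SimpleGraph.dist_comm
    have e7 : G.dist z' w = G.dist w z' := SimpleGraph.dist_comm
    have hzz : z = z' := by
      apply uniq_pred G L hg w' w z z' (hr.symm.trans hwy.symm) (by omega) hz hz'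
      · omega
      · omega
    subst hzz
    exact ih z y y' hz2 hz2' hwy hwy' hz1 hz1' (by omega) (by omega) (by omega)

/-- ADDITIVITY: if `w` is on the side of `x` and `w'` on the side of `y` of the edge `x y`, then `dist w w' = dist w x + 1 + dist y w'` (total at most `L`).
PROOF. induction on `dist y w'`: let `z` be the neighbour of `w'` closer to `y` (for `w' ≠ y`), `z` is again on the side of `y`, `dist w z = dist w x + 1 + dist y z`; by `dist_step` `dist w w' = dist w z ± 1`;
in the case `- 1` both `w'` and the predecessor of `z` (towards `y`, resp. `x` if `z = y`) are neighbours of `z` closer to `w`, so they are equal by `uniq_pred`, but the predecessor has smaller distance to `y` (resp. `w' ≠ x` because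
`w'` is on the side of `y`). -/
theorem geo_add (G : SimpleGraph V) (c : V → Bool) (hp : Prp G c) (L : ℕ)
    (hg : ((2 * L + 1 : ℕ) : ℕ∞) ≤ G.egirth) (x y w w' : V) (hxy : G.Adj x y)
    (hr : G.Reachable x w) (hr' : G.Reachable y w') (hw : G.dist x w < G.dist y w)
    (hw' : G.dist y w' < G.dist x w') (hL : G.dist x w + 1 + G.dist y w' ≤ L) :
    G.dist w w' = G.dist x w + 1 + G.dist y w' := by
  have key : ∀ n : ℕ, ∀ w' : V, G.Reachable y w' → G.dist y w' < G.dist x w' →
      G.dist y w' = n → G.dist x w + 1 + n ≤ L → G.dist w w' = G.dist x w + 1 + n := by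
    intro n
    induction n using Nat.strong_induction_on with
    | _ n ih =>
      intro w' hr' hw' hn hL
      have a1 : G.dist y w = G.dist x w + 1 := by
        rcases dist_step G c hp x y w hxy hr with h | h
        · exact h
        · omega
      rcases n with _ | n
      · rw [hr'.dist_eq_zero_iff] at hn
        subst hn
        rw [SimpleGraph.dist_comm, a1]
      · obtain ⟨z, hz, hz1, hz2⟩ := GeoC_pred G y w' n hr' hn
        have b1 := GeoC_side G c hp x y w' z hxy hr' hw' n hn hz hz1 hz2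
        have b2 := ih n (by omega) z hz2 b1 hz1 (by omega)
        have hzw : G.Reachable z w := hz2.symm.trans (hxy.symm.reachable.trans hr)
        have c1 : G.dist w' w = G.dist w w' := SimpleGraph.dist_comm
        have c2 : G.dist z w = G.dist w z := SimpleGraph.dist_comm
        rcases dist_step G c hp z w' w hz.symm hzw with h | h
        · omega
        · exfalso
          rcases n with _ | n
          · rw [hz2.dist_eq_zero_iff] at hz1
            subst hz1
            have d1 := uniq_pred G L hg y w w' x hzw (by omega) hz.symm hxy.symm (by omega) hw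
            rw [d1, SimpleGraph.dist_self] at hw'
            omega
          · obtain ⟨p, hp0, hp1, hp2⟩ := GeoC_pred G y z n hz2 hz1
            have d0 := GeoC_side G c hp x y z p hxy hz2 b1 n hz1 hp0 hp1 hp2
            have d1 := ih n (by omega) p hp2 d0 hp1 (by omega)
            have c3 : G.dist p w = G.dist w p := SimpleGraph.dist_comm
            have d2 := uniq_pred G L hg z w w' p hzw (by omega) hz.symm hp0 (by omega)
              (by omega)
            rw [d2] at hn
            omega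
  exact key _ w' hr' hw' rfl hL

/-- COUNTING. `r + 1 = R`. PROOF. For `p = (x,y) ∈ adp`, `w ∈ S_r(x,y)`, `w' ∈ S_{r+1}(y,x) \ S_r(y,x)`: `dist y w' = r + 1`, `dist x w ≤ r`, and by `geo_add` `dist w w' = dist x w + 1 + (r + 1)`, so
`(w,w') ∈ Pr G (r + 1)`. The map `(x,y,w,w') ↦ (w,w')` is injective: for given `(w,w')`, `y` is the vertex with `dist y w' = r + 1`, `dist w y = dist w w' - (r + 1)`: unique, by induction from `w'` (`uniq_pred` towards `w`: the geodesic from `w'` to `w`
is unique), and `x` is the neighbour of `y` which is closer to `w` (`uniq_pred`). -/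
theorem geo_count (G : SimpleGraph V) (c : V → Bool) (hp : Prp G c) (r : ℕ)
    (hg : ((4 * (r + 1) + 1 : ℕ) : ℕ∞) ≤ G.egirth) (f : V → V → ℝ) (hf : ∀ w w', 0 ≤ f w w') :
    ∑ p ∈ adp G, ∑ w ∈ SS G r p.1 p.2, ∑ w' ∈ SS G (r + 1) p.2 p.1 \ SS G r p.2 p.1, f w w' ≤
      ∑ q ∈ Pr G (r + 1), f q.1 q.2 := by
  obtain ⟨T, hT⟩ : ∃ T : V × V → Finset (V × V), ∀ p, T p = SS G r p.1 p.2 ×ˢ
      (SS G (r + 1) p.2 p.1 \ SS G r p.2 p.1) := ⟨_, fun _ => rfl⟩
  have hg' : ((2 * (2 * (r + 1)) + 1 : ℕ) : ℕ∞) ≤ G.egirth := by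
    have h : 2 * (2 * (r + 1)) + 1 = 4 * (r + 1) + 1 := by omega
    rw [h]
    exact hg
  have hmem : ∀ p q, p ∈ adp G → q ∈ T p → G.Adj p.1 p.2 ∧ G.Reachable p.1 q.1 ∧
      G.Reachable p.2 q.2 ∧ G.dist p.1 q.1 ≤ r ∧ G.dist p.1 q.1 < G.dist p.2 q.1 ∧
      G.dist p.2 q.2 = r + 1 ∧ G.dist q.1 q.2 = G.dist p.1 q.1 + 1 + (r + 1) := by
    intro p q hp' hq
    rw [hT, Finset.mem_product, Finset.mem_sdiff] at hq
    obtain ⟨h1, h2, h3⟩ := hq
    unfold adp at hp'
    rw [Finset.mem_filter] at hp'
    unfold SS at h1 h2 h3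
    rw [Finset.mem_filter] at h1 h2 h3
    obtain ⟨_, h1a, h1b, h1c⟩ := h1
    obtain ⟨_, h2a, h2b, h2c⟩ := h2
    have h4 : G.dist p.2 q.2 = r + 1 := by
      by_contra hne
      exact h3 ⟨Finset.mem_univ _, h2a, by omega, h2c⟩
    refine ⟨hp'.2, h1a, h2a, h1b, h1c, h4, ?_⟩
    have h5 := geo_add G c hp (2 * (r + 1)) hg' p.1 p.2 q.1 q.2 hp'.2 h1a h2a h1c h2c (by omega)
    omega
  have h1 : ∀ p ∈ adp G, ∑ w ∈ SS G r p.1 p.2, ∑ w' ∈ SS G (r + 1) p.2 p.1 \ SS G r p.2 p.1,
      f w w' = ∑ q ∈ T p, f q.1 q.2 := by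
    intro p _
    rw [hT, Finset.sum_product]
  rw [Finset.sum_congr rfl h1, ← Finset.sum_biUnion]
  · apply Finset.sum_le_sum_of_subset_of_nonneg
    · intro q hq
      rw [Finset.mem_biUnion] at hq
      obtain ⟨p, hp', hq⟩ := hq
      obtain ⟨a1, a2, a3, a4, a5, a6, a7⟩ := hmem p q hp' hq
      unfold Pr
      rw [Finset.mem_filter]
      refine ⟨Finset.mem_univ _, a2.symm.trans (a1.reachable.trans a3), by omega, by omega⟩
    · intro q _ _
      exact hf _ _
  · intro p hp' p' hp'' hne
    rw [Function.onFun, Finset.disjoint_left]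
    intro q hq hq'
    apply hne
    obtain ⟨a1, a2, a3, a4, a5, a6, a7⟩ := hmem p q hp' hq
    obtain ⟨b1, b2, b3, b4, b5, b6, b7⟩ := hmem p' q hp'' hq'
    have e1 : G.dist p.2 q.1 = G.dist p.1 q.1 + 1 := by
      rcases dist_step G c hp p.1 p.2 q.1 a1 a2 with h | h
      · exact h
      · omega
    have e2 : G.dist p'.2 q.1 = G.dist p'.1 q.1 + 1 := by
      rcases dist_step G c hp p'.1 p'.2 q.1 b1 b2 with h | h
      · exact h
      · omega
    have e3 : G.dist q.1 p.2 = G.dist p.2 q.1 := SimpleGraph.dist_comm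
    have e4 : G.dist q.1 p'.2 = G.dist p'.2 q.1 := SimpleGraph.dist_comm
    have hy : p.2 = p'.2 := by
      apply GeoC_uniq G (2 * (r + 1)) hg' q.1 (r + 1) q.2 p.2 p'.2 a3 b3
        (a2.symm.trans a1.reachable) (b2.symm.trans b1.reachable) a6 b6
      · omega
      · omega
      · omega
    have hx : p.1 = p'.1 := by
      apply uniq_pred G (2 * (r + 1)) hg' p.2 q.1 p.1 p'.1 (a1.symm.reachable.trans a2)
        (by omega) a1.symm (by rw [hy]; exact b1.symm) a5
      rw [hy]
      exact b5
    exact Prod.ext hx hy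

end TPB
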