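import Pool.Agent.W_5dd92e_h55.Defs

/-! # Marginals and products of TP2 matrices -/

set_option autoImplicit false

open Finset
open scoped Classical

namespace TPB

/-- MARGINALS ON TWO SITES.
PROOF. `four_functions_theorem f f f f` with `s = {σ r = a, σ t = b'}`, `t = {σ r = a', σ t = b}` (`a ≤ a'`, `b ≤ b'`):
`s ⊼ t ⊆ {σ r = a, σ t = b}` and `s ⊻ t ⊆ {σ r = a', σ t = b'}`, and `f ≥ 0`. -/
theorem tp2_marg {q : ℕ} {V : Type*} [Fintype V] (f : (V → Fin q) → ℝ) (h0 : ∀ σ, 0 ≤ f σ)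
    (hf : LSM f) (r t : V) :
    TP2 (fun a b => ∑ σ ∈ univ.filter (fun σ : V → Fin q => σ r = a ∧ σ t = b), f σ) := by
  intro a a' b b' ha hb
  have h := four_functions_theorem f f f f h0 h0 h0 h0 hf
    (univ.filter (fun σ : V → Fin q => σ r = a ∧ σ t = b'))
    (univ.filter (fun σ : V → Fin q => σ r = a' ∧ σ t = b))
  refine h.trans ?_
  refine mul_le_mul (sum_le_sum_of_subset_of_nonneg ?_ fun σ _ _ => h0 σ)
    (sum_le_sum_of_subset_of_nonneg ?_ fun σ _ _ => h0 σ) (sum_nonneg fun σ _ => h0 σ)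
    (sum_nonneg fun σ _ => h0 σ)
  · intro σ hσ
    obtain ⟨x, hx, y, hy, rfl⟩ := mem_infs.1 hσ
    rw [mem_filter] at hx hy ⊢
    refine ⟨mem_univ _, ?_, ?_⟩
    · rw [Pi.inf_apply, hx.2.1, hy.2.1, inf_eq_left.2 ha]
    · rw [Pi.inf_apply, hx.2.2, hy.2.2, inf_eq_right.2 hb]
  · intro σ hσ
    obtain ⟨x, hx, y, hy, rfl⟩ := mem_sups.1 hσ
    rw [mem_filter] at hx hy ⊢
    refine ⟨mem_univ _, ?_, ?_⟩
    · rw [Pi.sup_apply, hx.2.1, hy.2.1, sup_eq_right.2 ha]
    · rw [Pi.sup_apply, hx.2.2, hy.2.2, sup_eq_left.2 hb]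

/-- CAUCHY-BINET for 2 x 2 minors.
PROOF. `(∑_k A i k C k j)(∑_l A i' l C l j') - (∑_k A i k C k j')(∑_l A i' l C l j) = ∑_{k,l} A i k A i' l (C k j C l j' - C k j' C l j)`;
add the same sum with `k, l` exchanged: `2 * (..) = ∑_{k,l} (A i k A i' l - A i l A i' k)(C k j C l j' - C k j' C l j)`, and both
factors have the sign of `l - k`. -/
theorem tp2_mul {q : ℕ} (A C : Fin q → Fin q → ℝ) (hA : TP2 A) (hC : TP2 C) :
    TP2 (fun i j => ∑ k, A i k * C k j) := by
  intro i i' j j' hi hj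
  have key : ∑ k, ∑ l, (A i k * A i' l - A i l * A i' k) * (C k j * C l j' - C k j' * C l j) =
      2 * ((∑ k, A i k * C k j) * (∑ k, A i' k * C k j') -
        (∑ k, A i k * C k j') * (∑ k, A i' k * C k j)) := by
    calc ∑ k, ∑ l, (A i k * A i' l - A i l * A i' k) * (C k j * C l j' - C k j' * C l j)
        = ∑ k, ∑ l, ((A i k * C k j) * (A i' l * C l j') - (A i k * C k j') * (A i' l * C l j) -
          (A i' k * C k j) * (A i l * C l j') + (A i' k * C k j') * (A i l * C l j)) := by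
          refine sum_congr rfl fun k _ => sum_congr rfl fun l _ => ?_
          ring
      _ = (∑ k, A i k * C k j) * (∑ k, A i' k * C k j') -
          (∑ k, A i k * C k j') * (∑ k, A i' k * C k j) -
          (∑ k, A i' k * C k j) * (∑ k, A i k * C k j') +
          (∑ k, A i' k * C k j') * (∑ k, A i k * C k j) := by
          simp only [sum_add_distrib, sum_sub_distrib, sum_mul_sum]
      _ = _ := by ring
  have hpos : 0 ≤ ∑ k, ∑ l,
      (A i k * A i' l - A i l * A i' k) * (C k j * C l j' - C k j' * C l j) := by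
    refine sum_nonneg fun k _ => sum_nonneg fun l _ => ?_
    rcases le_total k l with h | h
    · have h1 := hA i i' k l hi h
      have h2 := hC k l j j' h hj
      exact mul_nonneg (by linarith) (by linarith)
    · have h1 := hA i i' l k hi h
      have h2 := hC l k j j' h hj
      refine mul_nonneg_of_nonpos_of_nonpos (by linarith) (by linarith)
  rw [key] at hpos
  show (∑ k, A i k * C k j') * (∑ k, A i' k * C k j) ≤
    (∑ k, A i k * C k j) * (∑ k, A i' k * C k j')
  linarith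

/-- LSM functions are closed under products -/
theorem lsm_mul {q : ℕ} {V : Type*} (f g : (V → Fin q) → ℝ) (h0 : ∀ σ, 0 ≤ f σ)
    (h1 : ∀ σ, 0 ≤ g σ) (hf : LSM f) (hg : LSM g) : LSM (fun σ => f σ * g σ) := by
  intro σ τ
  have h := mul_le_mul (hf σ τ) (hg σ τ) (mul_nonneg (h1 _) (h1 _)) (mul_nonneg (h0 _) (h0 _))
  calc f σ * g σ * (f τ * g τ) = f σ * f τ * (g σ * g τ) := by ring
    _ ≤ _ := h
    _ = _ := by ring

/-- products of single site functions are log-supermodular (with equality).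
PROOF. for every `v ∈ S` one of `σ v, τ v` is the minimum and the other the maximum. -/
theorem lsm_site {q : ℕ} {V : Type*} [Fintype V] (S : Finset V) (a : V → Fin q → ℝ) :
    LSM (fun σ : V → Fin q => ∏ v ∈ S, a v (σ v)) := by
  intro σ τ
  show (∏ v ∈ S, a v (σ v)) * (∏ v ∈ S, a v (τ v)) ≤
    (∏ v ∈ S, a v ((σ ⊓ τ) v)) * (∏ v ∈ S, a v ((σ ⊔ τ) v))
  rw [← prod_mul_distrib, ← prod_mul_distrib]
  refine le_of_eq (prod_congr rfl fun v _ => ?_)
  rw [Pi.inf_apply, Pi.sup_apply]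
  rcases le_total (σ v) (τ v) with h | h
  · rw [inf_eq_left.2 h, sup_eq_right.2 h]
  · rw [inf_eq_right.2 h, sup_eq_left.2 h, mul_comm]

/-- an edge factor is log-supermodular (any two sites) -/
theorem lsm_edge {q : ℕ} {V : Type*} (C : Fin q → Fin q → ℝ) (hC : TP2 C) (r t : V) :
    LSM (fun σ : V → Fin q => C (σ r) (σ t)) := by
  intro σ τ
  show C (σ r) (σ t) * C (τ r) (τ t) ≤
    C ((σ ⊓ τ) r) ((σ ⊓ τ) t) * C ((σ ⊔ τ) r) ((σ ⊔ τ) t)
  rw [Pi.inf_apply, Pi.sup_apply, Pi.inf_apply, Pi.sup_apply]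
  rcases le_total (σ r) (τ r) with h | h <;> rcases le_total (σ t) (τ t) with h' | h'
  · rw [inf_eq_left.2 h, sup_eq_right.2 h, inf_eq_left.2 h', sup_eq_right.2 h']
  · rw [inf_eq_left.2 h, sup_eq_right.2 h, inf_eq_right.2 h', sup_eq_left.2 h']
    exact hC _ _ _ _ h h'
  · rw [inf_eq_right.2 h, sup_eq_left.2 h, inf_eq_left.2 h', sup_eq_right.2 h']
    rw [mul_comm]
    exact hC _ _ _ _ h h'
  · rw [inf_eq_right.2 h, sup_eq_left.2 h, inf_eq_right.2 h', sup_eq_left.2 h', mul_comm]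

/-- finite products of log-supermodular functions (from `lsm_mul` by induction) -/
theorem lsm_prod {q : ℕ} {V ι : Type*} (s : Finset ι) (f : ι → (V → Fin q) → ℝ)
    (h0 : ∀ i ∈ s, ∀ σ, 0 ≤ f i σ) (hf : ∀ i ∈ s, LSM (f i)) : LSM (fun σ => ∏ i ∈ s, f i σ) := by
  induction s using Finset.induction_on with
  | empty =>
    intro σ τ
    simp
  | insert i s his ih =>
    have h := lsm_mul (f i) (fun σ => ∏ j ∈ s, f j σ) (h0 i (mem_insert_self i s))
      (fun σ => prod_nonneg fun j hj => h0 j (mem_insert_of_mem hj) σ) (hf i (mem_insert_self i s))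
      (ih (fun j hj => h0 j (mem_insert_of_mem hj)) fun j hj => hf j (mem_insert_of_mem hj))
    intro σ τ
    have h2 := h σ τ
    simp only [prod_insert his]
    exact h2

end TPB
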