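import Pool.Agent.W_5dd92e_h55.Field
import Pool.Agent.W_5dd92e_h55.LowA

/-! # Gibbs measures: positivity, log-supermodularity, single site bound -/

set_option autoImplicit false

open Finset
open scoped Classical

namespace TPB

variable {q : ℕ} {V : Type*} [Fintype V]

theorem wt_pos (G : SimpleGraph V) (c : V → Bool) (B : Fin q → Fin q → ℝ)
    (hB : ∀ i j, 0 < B i j) (σ : V → Fin q) : 0 < wt G c B σ :=
  Finset.prod_pos fun _ _ => hB _ _

/-- (`lsm_prod`, `lsm_edge`) -/
theorem wt_lsm (G : SimpleGraph V) (c : V → Bool) (B : Fin q → Fin q → ℝ)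
    (hB : ∀ i j, 0 < B i j) (hTP : TP2 B) : LSM (wt G c B) := by
  unfold wt
  exact lsm_prod (ed G c) (fun e σ => B (σ e.1) (σ e.2))
    (fun _ _ _ => (hB _ _).le) (fun e _ => lsm_edge B hTP e.1 e.2)

theorem GibA_card (G : SimpleGraph V) (c : V → Bool) (hP : Prp G c) {d : ℕ} (hR : Rgl G d) (w : V) :
    ((ed G c).filter (fun e => e.1 = w ∨ e.2 = w)).card ≤ d := by
  rw [← hR w]
  refine Finset.card_le_card_of_injOn (fun e => if c w = true then e.2 else e.1) ?_ ?_
  · intro e he
    simp only [ed, coe_filter, mem_filter, mem_univ, true_and, Set.mem_setOf_eq] at he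
    obtain ⟨⟨h1, h2⟩, h3⟩ := he
    simp only [coe_filter, mem_univ, true_and, Set.mem_setOf_eq]
    have h4 := hP _ _ h1
    split_ifs with hc
    · rcases h3 with h3 | h3
      · rw [← h3]; exact h1
      · rw [h3, hc, h2] at h4
        exact absurd rfl h4
    · rcases h3 with h3 | h3
      · rw [h3] at h2
        exact absurd h2 hc
      · rw [← h3]; exact h1.symm
  · intro e he e' he' hee
    simp only [ed, coe_filter, mem_filter, mem_univ, true_and, Set.mem_setOf_eq] at he he'
    obtain ⟨⟨h1, h2⟩, h3⟩ := he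
    obtain ⟨⟨h1', h2'⟩, h3'⟩ := he'
    have h4 := hP _ _ h1
    have h4' := hP _ _ h1'
    simp only at hee
    split_ifs at hee with hc
    · have e1 : e.1 = w := by
        rcases h3 with h3 | h3
        · exact h3
        · rw [h3, hc, h2] at h4
          exact absurd rfl h4
      have e1' : e'.1 = w := by
        rcases h3' with h3' | h3'
        · exact h3'
        · rw [h3', hc, h2'] at h4'
          exact absurd rfl h4'
      exact Prod.ext (e1.trans e1'.symm) hee
    · have e1 : e.2 = w := by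
        rcases h3 with h3 | h3
        · rw [h3] at h2
          exact absurd h2 hc
        · exact h3
      have e1' : e'.2 = w := by
        rcases h3' with h3' | h3'
        · rw [h3'] at h2'
          exact absurd h2' hc
        · exact h3'
      exact Prod.ext hee (e1.trans e1'.symm)

theorem GibA_wt (G : SimpleGraph V) (c : V → Bool) (hP : Prp G c) {d : ℕ} (hR : Rgl G d)
    (B : Fin q → Fin q → ℝ) {b M : ℝ} (hb : 0 < b) (hbB : ∀ i j, b ≤ B i j)
    (hBM : ∀ i j, B i j ≤ M) (hbM : b ≤ M) (w : V) (σ : V → Fin q) (i : Fin q) :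
    (b / M) ^ d * wt G c B σ ≤ wt G c B (Function.update σ w i) := by
  have hM : 0 < M := lt_of_lt_of_le hb hbM
  have hr0 : 0 ≤ b / M := by positivity
  have hr1 : b / M ≤ 1 := (div_le_one hM).2 hbM
  unfold wt
  rw [← Finset.prod_filter_mul_prod_filter_not (ed G c) (fun e => e.1 = w ∨ e.2 = w)
    (fun e => B (σ e.1) (σ e.2)),
    ← Finset.prod_filter_mul_prod_filter_not (ed G c) (fun e => e.1 = w ∨ e.2 = w)
    (fun e => B (Function.update σ w i e.1) (Function.update σ w i e.2)), ← mul_assoc]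
  have hpos : ∀ i j, 0 < B i j := fun i j => lt_of_lt_of_le hb (hbB i j)
  refine mul_le_mul ?_ (le_of_eq ?_) (Finset.prod_nonneg fun e _ => (hpos _ _).le)
    (Finset.prod_nonneg fun e _ => (hpos _ _).le)
  · calc (b / M) ^ d * ∏ e ∈ (ed G c).filter (fun e => e.1 = w ∨ e.2 = w), B (σ e.1) (σ e.2)
        ≤ (b / M) ^ ((ed G c).filter (fun e => e.1 = w ∨ e.2 = w)).card *
          ∏ e ∈ (ed G c).filter (fun e => e.1 = w ∨ e.2 = w), B (σ e.1) (σ e.2) := by
          refine mul_le_mul_of_nonneg_right ?_ (Finset.prod_nonneg fun e _ => (hpos _ _).le)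
          exact pow_le_pow_of_le_one hr0 hr1 (GibA_card G c hP hR w)
      _ = ∏ e ∈ (ed G c).filter (fun e => e.1 = w ∨ e.2 = w), (b / M * B (σ e.1) (σ e.2)) := by
          rw [Finset.prod_mul_distrib, Finset.prod_const]
      _ ≤ _ := by
          refine Finset.prod_le_prod (fun e _ => mul_nonneg hr0 (hpos _ _).le) fun e _ => ?_
          calc b / M * B (σ e.1) (σ e.2) ≤ b / M * M :=
                mul_le_mul_of_nonneg_left (hBM _ _) hr0
            _ = b := by field_simp
            _ ≤ _ := hbB _ _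
  · refine Finset.prod_congr rfl fun e he => ?_
    rw [mem_filter, not_or] at he
    rw [Function.update_of_ne he.2.1, Function.update_of_ne he.2.2]

theorem GibA_XX (w : V) (σ : V → Fin q) (i : Fin q) :
    XX σ - q ≤ XX (Function.update σ w i) := by
  unfold XX
  rw [← Finset.add_sum_erase univ _ (mem_univ w),
    ← Finset.add_sum_erase univ (fun v => ((Function.update σ w i v : ℕ) : ℝ)) (mem_univ w)]
  have h1 : ∑ v ∈ univ.erase w, ((Function.update σ w i v : ℕ) : ℝ) =
      ∑ v ∈ univ.erase w, ((σ v : ℕ) : ℝ) := by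
    refine Finset.sum_congr rfl fun v hv => ?_
    rw [Function.update_of_ne (Finset.ne_of_mem_erase hv)]
  rw [h1]
  have h2 : ((σ w : ℕ) : ℝ) ≤ q := by exact_mod_cast (σ w).2.le
  have h3 : (0 : ℝ) ≤ ((Function.update σ w i w : ℕ) : ℝ) := Nat.cast_nonneg _
  linarith

theorem GibA_sum (F : (V → Fin q) → ℝ) (hF : ∀ σ, 0 ≤ F σ) (S : Finset V) (w : V) (hw : w ∉ S)
    (τ : V → Fin q) :
    ∑ σ ∈ cyl S τ, F (Function.update σ w (τ w)) ≤ q * ∑ σ ∈ cyl (insert w S) τ, F σ := by
  have hmaps : ∀ σ ∈ cyl S τ, Function.update σ w (τ w) ∈ cyl (insert w S) τ := by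
    intro σ hσ
    simp only [cyl, mem_filter, mem_univ, true_and] at hσ ⊢
    intro v hv
    rcases Finset.mem_insert.1 hv with rfl | hv2
    · rw [Function.update_self]
    · have hvw : v ≠ w := by
        rintro rfl
        exact hw hv2
      rw [Function.update_of_ne hvw]
      exact hσ v hv2
  rw [← Finset.sum_fiberwise_of_maps_to hmaps, Finset.mul_sum]
  refine Finset.sum_le_sum fun σ' _ => ?_
  have h1 : ∑ σ ∈ (cyl S τ).filter (fun σ => Function.update σ w (τ w) = σ'),
      F (Function.update σ w (τ w)) =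
      ((cyl S τ).filter (fun σ => Function.update σ w (τ w) = σ')).card * F σ' := by
    rw [← nsmul_eq_mul, ← Finset.sum_const]
    refine Finset.sum_congr rfl fun σ hσ => ?_
    rw [(mem_filter.1 hσ).2]
  rw [h1]
  refine mul_le_mul_of_nonneg_right ?_ (hF _)
  have h2 : (cyl S τ).filter (fun σ => Function.update σ w (τ w) = σ') ⊆
      univ.image (fun i : Fin q => Function.update σ' w i) := by
    intro σ hσ
    rw [mem_image]
    refine ⟨σ w, mem_univ _, ?_⟩
    rw [← (mem_filter.1 hσ).2, Function.update_idem, Function.update_eq_self]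
  have h3 := (Finset.card_le_card h2).trans Finset.card_image_le
  rw [Finset.card_univ, Fintype.card_fin] at h3
  exact_mod_cast h3

/-- SINGLE SITE BOUND, uniform in the graph.
PROOF. `b = min B`, `M = max B`, `c0 = (b / M)^d exp (-δ q) / q`. For `σ` and `σ' = update σ w i`: only the at most `d` edges at `w` change, so `wt σ' ≥ (b/M)^d wt σ`, and
`exp (h XX σ') ≥ exp (- δ q) exp (h XX σ)`. So `muh σ' ≥ q c0 muh σ`. Sum over `σ ∈ cyl S τ` with `i = τ w`: the map `σ ↦ update σ w (τ w)` sends `cyl S τ` to `cyl (insert w S) τ` and every fibre has `q` elements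
(`w ∉ S`), so `q * mg (insert w S) τ ≥ ∑_{σ ∈ cyl S τ} muh (update σ w (τ w)) ≥ q c0 mg S τ`. The edges at `w`: those `e ∈ ed G c` with `e.1 = w` or `e.2 = w`, at most `d` (by the colouring only one of the two cases can occur,
and the edge is determined by the other end, a neighbour of `w`). -/
theorem ssb (d : ℕ) (hq : 0 < q) (B : Fin q → Fin q → ℝ) (hB : ∀ i j, 0 < B i j) (δ : ℝ)
    (hδ : 0 ≤ δ) : ∃ c0 : ℝ, 0 < c0 ∧ ∀ (W : Type*) [Fintype W] (G : SimpleGraph W)
      (c : W → Bool) (_ : Prp G c) (_ : Rgl G d) (h : ℝ) (_ : 0 ≤ h) (_ : h ≤ δ),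
      SSB (muh (wt G c B) h) c0 := by
  have hne : (univ : Finset (Fin q × Fin q)).Nonempty :=
    ⟨(⟨0, hq⟩, ⟨0, hq⟩), mem_univ _⟩
  obtain ⟨m, -, hm⟩ := Finset.exists_min_image univ (fun x : Fin q × Fin q => B x.1 x.2) hne
  obtain ⟨m', -, hm'⟩ := Finset.exists_max_image univ (fun x : Fin q × Fin q => B x.1 x.2) hne
  have hb : 0 < B m.1 m.2 := hB _ _
  have hbB : ∀ i j, B m.1 m.2 ≤ B i j := fun i j => hm (i, j) (mem_univ _)
  have hBM : ∀ i j, B i j ≤ B m'.1 m'.2 := fun i j => hm' (i, j) (mem_univ _)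
  have hbM : B m.1 m.2 ≤ B m'.1 m'.2 := hbB _ _
  have hM : 0 < B m'.1 m'.2 := hB _ _
  have hq' : (0 : ℝ) < q := by exact_mod_cast hq
  set r : ℝ := B m.1 m.2 / B m'.1 m'.2 with hr
  have hr0 : 0 < r := div_pos hb hM
  refine ⟨r ^ d * Real.exp (-(δ * q)) / q, by positivity, ?_⟩
  intro W _ G c hP hR h h0 hδ' S w τ hw
  have hwt : ∀ σ : W → Fin q, 0 < wt G c B σ := fun σ => Finset.prod_pos fun _ _ => hB _ _
  have hZ : 0 ≤ Zh (wt G c B) h :=
    Finset.sum_nonneg fun σ _ => mul_nonneg (hwt σ).le (Real.exp_pos _).le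
  have hmu : ∀ σ : W → Fin q, 0 ≤ muh (wt G c B) h σ := fun σ =>
    div_nonneg (mul_nonneg (hwt σ).le (Real.exp_pos _).le) hZ
  have key : ∀ (σ : W → Fin q) (i : Fin q), r ^ d * Real.exp (-(δ * q)) * muh (wt G c B) h σ ≤
      muh (wt G c B) h (Function.update σ w i) := by
    intro σ i
    unfold muh
    rw [← mul_div_assoc]
    refine div_le_div_of_nonneg_right ?_ hZ
    have e1 := GibA_wt G c hP hR B hb hbB hBM hbM w σ i
    have e2 : Real.exp (-(δ * q)) * Real.exp (h * XX σ) ≤
        Real.exp (h * XX (Function.update σ w i)) := by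
      rw [← Real.exp_add]
      apply Real.exp_le_exp.2
      have := GibA_XX w σ i
      nlinarith
    calc r ^ d * Real.exp (-(δ * q)) * (wt G c B σ * Real.exp (h * XX σ))
        = (r ^ d * wt G c B σ) * (Real.exp (-(δ * q)) * Real.exp (h * XX σ)) := by ring
      _ ≤ _ := mul_le_mul e1 e2 (by positivity) (hwt _).le
  have h1 : r ^ d * Real.exp (-(δ * q)) * mg (muh (wt G c B) h) S τ ≤
      q * mg (muh (wt G c B) h) (insert w S) τ := by
    unfold mg
    rw [Finset.mul_sum]
    exact (Finset.sum_le_sum fun σ _ => key σ (τ w)).trans (GibA_sum _ hmu S w hw τ)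
  rw [div_mul_eq_mul_div, div_le_iff₀ hq', mul_comm (mg _ (insert w S) τ)]
  exact h1

end TPB
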