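import Pool.Agent.W_5dd92e_h55.Field
import Pool.Agent.W_5dd92e_h55.EntM
import Pool.Agent.W_5dd92e_h55.GibA

/-! # Gibbs measures: the Markov property -/

set_option autoImplicit false

open Finset
open scoped Classical

namespace TPB

variable {q : ℕ} {V : Type*} [Fintype V]

/-- MARKOV PROPERTY OF THE GIBBS MEASURE: no edges between `Q` and the complement of `Q ∪ C`.
PROOF. `Hs_markov` with `g` = product of the edge factors of the edges which touch `Q` times `exp (h ∑_{v ∈ Q} σ v)`, `f` = the rest (with the constant `1 / Zh`). -/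
theorem markov (G : SimpleGraph V) (c : V → Bool) (B : Fin q → Fin q → ℝ)
    (hB : ∀ i j, 0 < B i j) (h : ℝ) (hne : Nonempty (V → Fin q)) (X Q C : Finset V)
    (hXQ : Disjoint X Q) (hQC : Disjoint Q C)
    (hN : ∀ w ∈ Q, ∀ w', G.Adj w w' → w' ∈ Q ∪ C) :
    Hs (muh (wt G c B) h) (X ∪ C) + Hs (muh (wt G c B) h) (Q ∪ C) =
      Hs (muh (wt G c B) h) (X ∪ Q ∪ C) + Hs (muh (wt G c B) h) C := by
  have hpw : PW (muh (wt G c B) h) := muh_pw _ (wt_pos G c B hB) h hne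
  refine Hs_markov hpw X Q C hXQ hQC
    (fun σ => (∏ e ∈ (ed G c).filter (fun e => ¬ (e.1 ∈ Q ∨ e.2 ∈ Q)), B (σ e.1) (σ e.2)) *
      Real.exp (h * ∑ v ∈ univ.filter (fun v => ¬ v ∈ Q), ((σ v : ℕ) : ℝ)) / Zh (wt G c B) h)
    (fun σ => (∏ e ∈ (ed G c).filter (fun e => e.1 ∈ Q ∨ e.2 ∈ Q), B (σ e.1) (σ e.2)) *
      Real.exp (h * ∑ v ∈ univ.filter (fun v => v ∈ Q), ((σ v : ℕ) : ℝ))) ?_ ?_ ?_
  · intro σ
    have h1 : wt G c B σ =
        (∏ e ∈ (ed G c).filter (fun e => e.1 ∈ Q ∨ e.2 ∈ Q), B (σ e.1) (σ e.2)) *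
        ∏ e ∈ (ed G c).filter (fun e => ¬ (e.1 ∈ Q ∨ e.2 ∈ Q)), B (σ e.1) (σ e.2) :=
      (Finset.prod_filter_mul_prod_filter_not _ _ _).symm
    have h2 : XX σ = ∑ v ∈ univ.filter (fun v => v ∈ Q), ((σ v : ℕ) : ℝ) +
        ∑ v ∈ univ.filter (fun v => ¬ v ∈ Q), ((σ v : ℕ) : ℝ) :=
      (Finset.sum_filter_add_sum_filter_not _ _ _).symm
    show wt G c B σ * Real.exp (h * XX σ) / Zh (wt G c B) h = _
    rw [h1, h2, mul_add, Real.exp_add]
    ring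
  · intro σ τ hστ
    have h1 : (∏ e ∈ (ed G c).filter (fun e => ¬ (e.1 ∈ Q ∨ e.2 ∈ Q)), B (σ e.1) (σ e.2)) =
        ∏ e ∈ (ed G c).filter (fun e => ¬ (e.1 ∈ Q ∨ e.2 ∈ Q)), B (τ e.1) (τ e.2) := by
      refine Finset.prod_congr rfl fun e he => ?_
      have h2 := (Finset.mem_filter.mp he).2
      push Not at h2
      rw [hστ _ h2.1, hστ _ h2.2]
    have h3 : (∑ v ∈ univ.filter (fun v => ¬ v ∈ Q), ((σ v : ℕ) : ℝ)) =
        ∑ v ∈ univ.filter (fun v => ¬ v ∈ Q), ((τ v : ℕ) : ℝ) := by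
      refine Finset.sum_congr rfl fun v hv => ?_
      rw [hστ _ (Finset.mem_filter.mp hv).2]
    simp only [h1, h3]
  · intro σ τ hστ
    have h1 : (∏ e ∈ (ed G c).filter (fun e => e.1 ∈ Q ∨ e.2 ∈ Q), B (σ e.1) (σ e.2)) =
        ∏ e ∈ (ed G c).filter (fun e => e.1 ∈ Q ∨ e.2 ∈ Q), B (τ e.1) (τ e.2) := by
      refine Finset.prod_congr rfl fun e he => ?_
      obtain ⟨he1, he2⟩ := Finset.mem_filter.mp he
      have hadj : G.Adj e.1 e.2 := ((Finset.mem_filter.mp he1).2).1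
      have h4 : e.1 ∈ Q ∪ C ∧ e.2 ∈ Q ∪ C := by
        rcases he2 with h5 | h5
        · exact ⟨Finset.mem_union_left _ h5, hN _ h5 _ hadj⟩
        · exact ⟨hN _ h5 _ hadj.symm, Finset.mem_union_left _ h5⟩
      rw [hστ _ h4.1, hστ _ h4.2]
    have h3 : (∑ v ∈ univ.filter (fun v => v ∈ Q), ((σ v : ℕ) : ℝ)) =
        ∑ v ∈ univ.filter (fun v => v ∈ Q), ((τ v : ℕ) : ℝ) := by
      refine Finset.sum_congr rfl fun v hv => ?_
      rw [hστ _ (Finset.mem_union_left _ (Finset.mem_filter.mp hv).2)]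
    simp only [h1, h3]

end TPB
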