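import Pool.Agent.W_5dd92e_h55.EntA

/-! # The local inequality at an edge -/

set_option autoImplicit false

open Finset
open scoped Classical

namespace TPB

variable {q : ℕ} {V : Type*} [Fintype V]

theorem GibC_t (d : ℕ) (hd : 1 ≤ d) : 0 ≤ ((d : ℝ) - 1) / d := by
  have : (1 : ℝ) ≤ d := by exact_mod_cast hd
  exact div_nonneg (by linarith) (by linarith)

theorem GibC_le_one {p : Fin q → ℝ} (hp : Pv p) (i : Fin q) : p i ≤ 1 := by
  rw [← hp.2]
  exact Finset.single_le_sum (fun j _ => hp.1 j) (Finset.mem_univ i)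

theorem GibC_bdd (d : ℕ) (hd : 1 ≤ d) (B : Fin q → Fin q → ℝ) (hB : ∀ i j, 0 ≤ B i j) :
    BddAbove {x : ℝ | ∃ p p' : Fin q → ℝ, Pv p ∧ Pv p' ∧ x = form d B p p'} := by
  refine ⟨∑ i, ∑ j, B i j, ?_⟩
  rintro x ⟨p, p', hp, hp', rfl⟩
  unfold form
  refine Finset.sum_le_sum fun i _ => Finset.sum_le_sum fun j _ => ?_
  have h0 : 0 ≤ p i * p' j := mul_nonneg (hp.1 i) (hp'.1 j)
  have h1 : p i * p' j ≤ 1 := mul_le_one₀ (GibC_le_one hp i) (hp'.1 j) (GibC_le_one hp' j)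
  exact mul_le_of_le_one_right (hB i j) (Real.rpow_le_one h0 h1 (GibC_t d hd))

theorem form_le_NN (d : ℕ) (hd : 1 ≤ d) (B : Fin q → Fin q → ℝ) (hB : ∀ i j, 0 ≤ B i j)
    (p p' : Fin q → ℝ) (hp : Pv p) (hp' : Pv p') : form d B p p' ≤ NN d B := by
  exact le_csSup (GibC_bdd d hd B hB) ⟨p, p', hp, hp', rfl⟩

theorem NN_pos (d : ℕ) (hd : 1 ≤ d) (hq : 0 < q) (B : Fin q → Fin q → ℝ)
    (hB : ∀ i j, 0 < B i j) : 0 < NN d B := by
  obtain ⟨s, hs⟩ : ∃ s : Fin q → ℝ, s = Pi.single (⟨0, hq⟩ : Fin q) (1 : ℝ) := ⟨_, rfl⟩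
  have hs0 : s ⟨0, hq⟩ = 1 := by rw [hs, Pi.single_eq_same]
  have hpv : Pv s := by
    refine ⟨fun i => ?_, ?_⟩
    · by_cases h : i = ⟨0, hq⟩
      · rw [h, hs0]
        exact zero_le_one
      · rw [hs, Pi.single_eq_of_ne h]
    · rw [hs, Finset.sum_pi_single']
      exact if_pos (Finset.mem_univ _)
  refine lt_of_lt_of_le ?_ (form_le_NN d hd B (fun i j => (hB i j).le) _ _ hpv hpv)
  unfold form
  have hnn : ∀ i j, 0 ≤ B i j * (s i * s j) ^ (((d : ℝ) - 1) / d) := fun i j =>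
    mul_nonneg (hB i j).le (Real.rpow_nonneg (mul_nonneg (hpv.1 i) (hpv.1 j)) _)
  refine lt_of_lt_of_le (hB ⟨0, hq⟩ ⟨0, hq⟩) ?_
  refine le_trans ?_ (Finset.single_le_sum (fun i _ => Finset.sum_nonneg fun j _ => hnn i j)
    (Finset.mem_univ (⟨0, hq⟩ : Fin q)))
  refine le_trans ?_ (Finset.single_le_sum (fun j _ => hnn ⟨0, hq⟩ j)
    (Finset.mem_univ (⟨0, hq⟩ : Fin q)))
  rw [hs0, mul_one, Real.one_rpow, mul_one]

/-- marginal at one site -/
noncomputable def GibC_p (μ : (V → Fin q) → ℝ) (u : V) (i : Fin q) : ℝ :=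
  ∑ τ ∈ univ.filter (fun τ : V → Fin q => τ u = i), μ τ

/-- marginal at two sites -/
noncomputable def GibC_P (μ : (V → Fin q) → ℝ) (u v : V) (i j : Fin q) : ℝ :=
  ∑ τ ∈ univ.filter (fun τ : V → Fin q => τ u = i ∧ τ v = j), μ τ

theorem GibC_mg_one (μ : (V → Fin q) → ℝ) (u : V) (τ : V → Fin q) :
    mg μ {u} τ = GibC_p μ u (τ u) := by
  unfold mg GibC_p cyl
  refine Finset.sum_congr ?_ fun _ _ => rfl
  ext σ
  simp

theorem GibC_mg_two (μ : (V → Fin q) → ℝ) (u v : V) (τ : V → Fin q) :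
    mg μ {u, v} τ = GibC_P μ u v (τ u) (τ v) := by
  unfold mg GibC_P cyl
  refine Finset.sum_congr ?_ fun _ _ => rfl
  ext σ
  simp

theorem GibC_Pv {μ : (V → Fin q) → ℝ} (hμ : PW μ) (u : V) : Pv (GibC_p μ u) := by
  refine ⟨fun i => Finset.sum_nonneg fun τ _ => (hμ.pos τ).le, ?_⟩
  unfold GibC_p
  rw [Finset.sum_fiberwise univ (fun τ : V → Fin q => τ u) μ]
  exact hμ.sum

theorem GibC_Ppos {μ : (V → Fin q) → ℝ} (hμ : PW μ) (u v : V) (huv : u ≠ v) (i j : Fin q) :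
    0 < GibC_P μ u v i j := by
  unfold GibC_P
  refine Finset.sum_pos (fun τ _ => hμ.pos τ) ?_
  refine ⟨Function.update (fun _ => i) v j, ?_⟩
  rw [Finset.mem_filter]
  refine ⟨Finset.mem_univ _, ?_, Function.update_self _ _ _⟩
  rw [Function.update_of_ne huv]

/-- sum over the values at two sites -/
theorem GibC_fiber (μ : (V → Fin q) → ℝ) (u v : V) (g : Fin q → Fin q → ℝ) :
    ∑ τ, μ τ * g (τ u) (τ v) = ∑ i, ∑ j, GibC_P μ u v i j * g i j := by
  have h : ∀ τ : V → Fin q, μ τ * g (τ u) (τ v) =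
      ∑ i, ∑ j, if τ u = i ∧ τ v = j then μ τ * g i j else 0 := by
    intro τ
    rw [Finset.sum_eq_single (τ u)]
    · rw [Finset.sum_eq_single (τ v)]
      · rw [if_pos ⟨rfl, rfl⟩]
      · intro j _ hj
        rw [if_neg]
        exact fun h => hj h.2.symm
      · intro h
        exact absurd (Finset.mem_univ _) h
    · intro i _ hi
      refine Finset.sum_eq_zero fun j _ => ?_
      rw [if_neg]
      exact fun h => hi h.1.symm
    · intro h
      exact absurd (Finset.mem_univ _) h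
  rw [Finset.sum_congr rfl fun τ _ => h τ, Finset.sum_comm]
  refine Finset.sum_congr rfl fun i _ => ?_
  rw [Finset.sum_comm]
  refine Finset.sum_congr rfl fun j _ => ?_
  unfold GibC_P
  rw [Finset.sum_mul, Finset.sum_filter]

/-- THE LOCAL INEQUALITY AT AN EDGE.
PROOF. Let `p i = ∑_{σ u = i} μ σ`, `p' j` the same at `v`, `P i j` at both. `mg μ {u} τ = p (τ u)`, `mg μ {v} τ = p' (τ v)`, `mg μ {u,v} τ = P (τ u) (τ v)` and `t = (d-1)/d`.
Left side `= Ex (log (B (τ u) (τ v) p(τ u)^t p'(τ v)^t / P (τ u) (τ v))) ≤ log (∑_τ μ τ B p^t p'^t / P) = log (∑_{i,j} B i j (p i p' j)^t)` (concavity of `log`) `≤ log (NN d B)`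
(the set in `NN` is bounded above by `∑ B i j`, as `(p i p' j)^t ≤ 1`). -/
theorem edge_ineq (d : ℕ) (hd : 1 ≤ d) (B : Fin q → Fin q → ℝ) (hB : ∀ i j, 0 < B i j)
    {μ : (V → Fin q) → ℝ} (hμ : PW μ) (u v : V) (huv : u ≠ v) :
    1 / (d : ℝ) * (Hs μ {u} + Hs μ {v}) - (Hs μ {u} + Hs μ {v} - Hs μ {u, v}) +
      Ex μ (fun σ => Real.log (B (σ u) (σ v))) ≤ Real.log (NN d B) := by
  have hd' : (1 : ℝ) ≤ d := by exact_mod_cast hd
  set t : ℝ := ((d : ℝ) - 1) / d with ht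
  have ht' : t = 1 - 1 / (d : ℝ) := by
    rw [ht, sub_div, div_self (by linarith)]
  have hppos : ∀ (w : V) (τ : V → Fin q), 0 < GibC_p μ w (τ w) := fun w τ => by
    rw [← GibC_mg_one]
    exact mg_pos hμ _ _
  have hPpos := GibC_Ppos hμ u v huv
  set g : Fin q → Fin q → ℝ := fun i j =>
    B i j * (GibC_p μ u i * GibC_p μ v j) ^ t / GibC_P μ u v i j with hg
  have hgpos : ∀ τ : V → Fin q, 0 < g (τ u) (τ v) := fun τ =>
    div_pos (mul_pos (hB _ _) (Real.rpow_pos_of_pos (mul_pos (hppos u τ) (hppos v τ)) _))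
      (hPpos _ _)
  have hlhs : 1 / (d : ℝ) * (Hs μ {u} + Hs μ {v}) - (Hs μ {u} + Hs μ {v} - Hs μ {u, v}) +
      Ex μ (fun σ => Real.log (B (σ u) (σ v))) = ∑ τ, μ τ * Real.log (g (τ u) (τ v)) := by
    have e1 : ∀ τ : V → Fin q, μ τ * Real.log (g (τ u) (τ v)) =
        t * (μ τ * Real.log (mg μ {u} τ)) + t * (μ τ * Real.log (mg μ {v} τ)) -
        μ τ * Real.log (mg μ {u, v} τ) + μ τ * Real.log (B (τ u) (τ v)) := by
      intro τ
      rw [GibC_mg_one, GibC_mg_one, GibC_mg_two]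
      have h1 := hppos u τ
      have h2 := hppos v τ
      rw [hg]
      simp only
      rw [Real.log_div (mul_pos (hB _ _) (Real.rpow_pos_of_pos (mul_pos h1 h2) _)).ne'
        (hPpos _ _).ne', Real.log_mul (hB _ _).ne' (Real.rpow_pos_of_pos (mul_pos h1 h2) _).ne',
        Real.log_rpow (mul_pos h1 h2), Real.log_mul h1.ne' h2.ne']
      ring
    rw [Finset.sum_congr rfl fun τ _ => e1 τ, Finset.sum_add_distrib, Finset.sum_sub_distrib,
      Finset.sum_add_distrib, ← Finset.mul_sum, ← Finset.mul_sum, ht']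
    unfold Hs Ex
    ring
  rw [hlhs]
  have hjen : ∑ τ, μ τ * Real.log (g (τ u) (τ v)) ≤ Real.log (∑ τ, μ τ * g (τ u) (τ v)) := by
    have h := (strictConcaveOn_log_Ioi.concaveOn).le_map_sum (t := univ) (w := μ)
      (p := fun τ : V → Fin q => g (τ u) (τ v)) (fun τ _ => (hμ.pos τ).le) hμ.sum
      (fun τ _ => hgpos τ)
    simpa [smul_eq_mul] using h
  refine hjen.trans ?_
  have hform : ∑ τ, μ τ * g (τ u) (τ v) = form d B (GibC_p μ u) (GibC_p μ v) := by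
    rw [GibC_fiber]
    unfold form
    refine Finset.sum_congr rfl fun i _ => Finset.sum_congr rfl fun j _ => ?_
    rw [hg]
    simp only
    rw [mul_div_cancel₀ _ (hPpos i j).ne']
  have hne : Nonempty (V → Fin q) := by
    by_contra h
    rw [not_nonempty_iff] at h
    have := hμ.sum
    rw [Finset.univ_eq_empty, Finset.sum_empty] at this
    exact zero_ne_one this
  have hpos : 0 < ∑ τ, μ τ * g (τ u) (τ v) :=
    Finset.sum_pos (fun τ _ => mul_pos (hμ.pos τ) (hgpos τ)) Finset.univ_nonempty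
  refine Real.log_le_log hpos ?_
  rw [hform]
  exact form_le_NN d hd B (fun i j => (hB i j).le) _ _ (GibC_Pv hμ u) (GibC_Pv hμ v)

end TPB
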