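import Pool.Agent.W_5dd92e_h55.Pot
import Pool.Agent.W_5dd92e_h55.LowA

/-! # Good weights: edge addition -/

set_option autoImplicit false

open Finset
open scoped Classical

namespace TPB

/-- Jensen -/
theorem LowB_jensen {q : ℕ} (p z : Fin q → ℝ) (hp : ∀ i, 0 ≤ p i) (hs : ∑ i, p i = 1)
    (hz : ∀ i, 0 < z i) : Real.exp (∑ i, p i * Real.log (z i)) ≤ ∑ i, p i * z i := by
  have h1 := Real.geom_mean_le_arith_mean_weighted univ p z (fun i _ => hp i) hs
    (fun i _ => (hz i).le)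
  refine le_trans (le_of_eq ?_) h1
  rw [Real.exp_sum]
  refine prod_congr rfl fun i _ => ?_
  rw [Real.rpow_def_of_pos (hz i), mul_comm]

theorem LowB_jensen_log {q : ℕ} (p z : Fin q → ℝ) (hp : ∀ i, 0 ≤ p i) (hs : ∑ i, p i = 1)
    (hz : ∀ i, 0 < z i) : ∑ i, p i * Real.log (z i) ≤ Real.log (∑ i, p i * z i) := by
  have h1 := LowB_jensen p z hp hs hz
  rw [Real.le_log_iff_exp_le (lt_of_lt_of_le (Real.exp_pos _) h1)]
  exact h1

theorem LowB_prod {V : Type*} [Fintype V] {r t : V} (hrt : r ≠ t) (φ : V → ℝ) :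
    ∏ v, φ v = φ r * φ t * ∏ v ∈ (univ.erase t).erase r, φ v := by
  rw [← mul_prod_erase univ φ (mem_univ t),
    ← mul_prod_erase (univ.erase t) φ (mem_erase.2 ⟨hrt, mem_univ r⟩)]
  ring

theorem LowB_sum {V : Type*} [Fintype V] {r t : V} (hrt : r ≠ t) (φ : V → ℝ) :
    ∑ v, φ v = φ r + φ t + ∑ v ∈ (univ.erase t).erase r, φ v := by
  rw [← add_sum_erase univ φ (mem_univ t),
    ← add_sum_erase (univ.erase t) φ (mem_erase.2 ⟨hrt, mem_univ r⟩)]
  ring

theorem LowB_split {q : ℕ} {V : Type*} [Fintype V] {r t : V} (hrt : r ≠ t)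
    (φ : V → Fin q → ℝ) (w : (V → Fin q) → ℝ) (g : Fin q → Fin q → ℝ) :
    ∑ σ : V → Fin q, (∏ v, φ v (σ v)) * (w σ * g (σ r) (σ t)) =
      ∑ a, ∑ b, φ r a * φ t b * g a b *
        ∑ σ ∈ univ.filter (fun σ : V → Fin q => σ r = a ∧ σ t = b),
          (∏ v ∈ (univ.erase t).erase r, φ v (σ v)) * w σ := by
  rw [← sum_fiberwise univ (fun σ : V → Fin q => (σ r, σ t)), Fintype.sum_prod_type]
  refine sum_congr rfl fun a _ => sum_congr rfl fun b _ => ?_
  rw [mul_sum]
  have h1 : univ.filter (fun σ : V → Fin q => (σ r, σ t) = (a, b)) =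
      univ.filter (fun σ : V → Fin q => σ r = a ∧ σ t = b) := by
    refine filter_congr fun σ _ => ?_
    rw [Prod.mk.injEq]
  rw [h1]
  refine sum_congr rfl fun σ hσ => ?_
  obtain ⟨h2, h3⟩ := (mem_filter.1 hσ).2
  rw [LowB_prod hrt (fun v => φ v (σ v)), h2, h3]
  ring

/-- the constant weight is good.
PROOF. `∑ σ, ∏ v, ν v (σ v) α v (σ v) = ∏ v, ∑ i, ν v i α v i` and Jensen `exp (∑ ν log α) ≤ ∑ ν α` at every vertex. -/
theorem good_one {q : ℕ} {V : Type*} [Fintype V] (ν : V → Fin q → ℝ) (hν : ∀ v, Pv (ν v)) :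
    Good ν (fun _ => 1) := by
  intro α hα
  have h1 : ∑ σ : V → Fin q, (∏ v, ν v (σ v) * α v (σ v)) * (1 : ℝ) =
      ∏ v, ∑ i, ν v i * α v i := by
    rw [prod_univ_sum, Fintype.piFinset_univ]
    exact sum_congr rfl fun σ _ => mul_one _
  rw [h1, Real.exp_sum]
  exact prod_le_prod (fun v _ => (Real.exp_pos _).le)
    fun v _ => LowB_jensen (ν v) (α v) (hν v).1 (hν v).2 (hα v)

/-- EDGE ADDITION.
PROOF. Fix `α`. `f σ = ∏ v ∉ {r,t} (ν v (σ v) α v (σ v)) w σ` is positive and LSM (`lsm_site`, `lsm_mul`), so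
`W a b = ∑_{σ r = a, σ t = b} f σ` is TP2 (`tp2_marg`) and positive (the set is nonempty as `r ≠ t`).
`M b b' = ∑ a, C a b (ν r a α r a) W a b'` is TP2 (`tp2_mul`, the transpose of `C` is TP2, scaling rows keeps TP2) and positive.
Let `F, G` be the potentials of `M` (`pot`) and `γ a = ∑ b, ν t b C a b / F b > 0`. Use that `w` is good with the weights
`α v` (`v ∉ {r,t}`), `α r * γ` at `r`, `1 / G` at `t`; the right side is
`∑_{a,b'} ν r a α r a γ a ν t b' / G b' W a b' = ∑_{b,b'} ν t b ν t b' M b b' / (F b G b') ≤ 1`, so the exponent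
`c0 + ∑ ν r log (α r) + ∑ ν r log γ - ∑ ν t log G ≤ 0`, where `c0 = ∑_{v ∉ {r,t}} ∑ ν log α`. Jensen:
`log γ a = log ∑ b, (ν t b C a b) (1 / F b) ≥ - ∑ b, ν t b C a b log (F b)` and `∑ a, ν r a C a b = 1` give
`∑ ν r log γ ≥ - ∑ ν t log F`. So `c0 + ∑ ν r log (α r) ≤ ∑ b, ν t b log (M b b)`. Finally
`∑ σ (∏ ν α) w σ C (σ r) (σ t) = ∑ b, ν t b α t b M b b ≥ exp (∑ b, ν t b (log (α t b) + log (M b b)))`. -/
theorem good_edge {q : ℕ} {V : Type*} [Fintype V] (ν : V → Fin q → ℝ) (hν : ∀ v, Pv (ν v))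
    (hν0 : ∀ v i, 0 < ν v i) (w : (V → Fin q) → ℝ) (hw : ∀ σ, 0 < w σ) (hl : LSM w)
    (hg : Good ν w) (r t : V) (hrt : r ≠ t) (C : Fin q → Fin q → ℝ) (hC : ∀ i j, 0 < C i j)
    (hTP : TP2 C) (h1 : ∀ a, ∑ b, ν t b * C a b = 1) (h2 : ∀ b, ∑ a, ν r a * C a b = 1) :
    Good ν (fun σ => w σ * C (σ r) (σ t)) := by
  intro α hα
  set S : Finset V := (univ.erase t).erase r with hS
  have htr : t ≠ r := hrt.symm
  have hSr : ∀ v ∈ S, v ≠ r := fun v hv => (mem_erase.1 hv).1
  have hSt : ∀ v ∈ S, v ≠ t := fun v hv => (mem_erase.1 (mem_erase.1 hv).2).1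
  set f : (V → Fin q) → ℝ := fun σ => (∏ v ∈ S, ν v (σ v) * α v (σ v)) * w σ with hf
  have hfpos : ∀ σ, 0 < f σ := fun σ =>
    mul_pos (prod_pos fun v _ => mul_pos (hν0 v _) (hα v _)) (hw σ)
  have hflsm : LSM f := lsm_mul (fun σ : V → Fin q => ∏ v ∈ S, ν v (σ v) * α v (σ v)) w
    (fun σ => (prod_pos fun v _ => mul_pos (hν0 v _) (hα v _)).le) (fun σ => (hw σ).le)
    (lsm_site S (fun v i => ν v i * α v i)) hl
  set W : Fin q → Fin q → ℝ := fun a b =>
    ∑ σ ∈ univ.filter (fun σ : V → Fin q => σ r = a ∧ σ t = b), f σ with hW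
  have hWTP : TP2 W := tp2_marg f (fun σ => (hfpos σ).le) hflsm r t
  have hWpos : ∀ a b, 0 < W a b := by
    intro a b
    refine sum_pos (fun σ _ => hfpos σ) ⟨fun v => if v = r then a else b, ?_⟩
    rw [mem_filter]
    exact ⟨mem_univ _, if_pos rfl, if_neg htr⟩
  set M : Fin q → Fin q → ℝ := fun b b' => ∑ a, (ν r a * α r a * C a b) * W a b' with hM
  have hMTP : TP2 M := by
    refine tp2_mul (fun b a => ν r a * α r a * C a b) W ?_ hWTP
    intro b b' a a' hb ha
    have h3 := hTP a a' b b' ha hb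
    have h4 : 0 ≤ (ν r a * α r a) * (ν r a' * α r a') :=
      (mul_pos (mul_pos (hν0 r a) (hα r a)) (mul_pos (hν0 r a') (hα r a'))).le
    have h5 := mul_le_mul_of_nonneg_left h3 h4
    beta_reduce
    nlinarith [h5]
  have hMpos : ∀ b b', 0 < M b b' := by
    intro b b'
    exact sum_pos (fun a _ => mul_pos (mul_pos (mul_pos (hν0 r a) (hα r a)) (hC a b))
      (hWpos a b')) ⟨b, mem_univ b⟩
  obtain ⟨F, G, hF, hG, hFG, hFG'⟩ := pot M hMpos hMTP
  set γ : Fin q → ℝ := fun a => ∑ b, (ν t b * C a b) * (1 / F b) with hγ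
  have hγpos : ∀ a, 0 < γ a := by
    intro a
    exact sum_pos (fun b _ => mul_pos (mul_pos (hν0 t b) (hC a b)) (one_div_pos.2 (hF b)))
      ⟨a, mem_univ a⟩
  set α' : V → Fin q → ℝ := fun v => if v = r then (fun a => α r a * γ a) else
    if v = t then (fun b => 1 / G b) else α v with hα'
  have hα'r : α' r = fun a => α r a * γ a := if_pos rfl
  have hα't : α' t = fun b => 1 / G b := by
    show (if t = r then _ else if t = t then _ else _) = _
    rw [if_neg htr, if_pos rfl]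
  have hα'S : ∀ v ∈ S, α' v = α v := by
    intro v hv
    show (if v = r then _ else if v = t then _ else _) = _
    rw [if_neg (hSr v hv), if_neg (hSt v hv)]
  have hα'pos : ∀ v i, 0 < α' v i := by
    intro v i
    by_cases h1 : v = r
    · rw [h1, hα'r]
      exact mul_pos (hα r i) (hγpos i)
    · by_cases h2 : v = t
      · rw [h2, hα't]
        exact one_div_pos.2 (hG i)
      · have h3 : α' v = α v := by
          show (if v = r then _ else if v = t then _ else _) = _
          rw [if_neg h1, if_neg h2]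
        rw [h3]
        exact hα v i
  have hgood := hg α' hα'pos
  have hνt : ∑ b, ν t b = 1 := (hν t).2
  -- the right side
  have hR : ∑ σ : V → Fin q, (∏ v, ν v (σ v) * α' v (σ v)) * w σ ≤ 1 := by
    have e1 : ∑ σ : V → Fin q, (∏ v, ν v (σ v) * α' v (σ v)) * w σ =
        ∑ σ : V → Fin q, (∏ v, ν v (σ v) * α' v (σ v)) * (w σ * (fun _ _ => (1 : ℝ)) (σ r) (σ t)) := by
      refine sum_congr rfl fun σ _ => ?_
      rw [mul_one]
    rw [e1, LowB_split hrt (fun v i => ν v i * α' v i) w (fun _ _ => (1 : ℝ))]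
    have e2 : ∀ a b', (∑ σ ∈ univ.filter (fun σ : V → Fin q => σ r = a ∧ σ t = b'),
        (∏ v ∈ S, ν v (σ v) * α' v (σ v)) * w σ) = W a b' := by
      intro a b'
      refine sum_congr rfl fun σ _ => ?_
      show _ = (∏ v ∈ S, ν v (σ v) * α v (σ v)) * w σ
      congr 1
      refine prod_congr rfl fun v hv => ?_
      rw [hα'S v hv]
    have e3 : ∑ a, ∑ b', (ν r a * α' r a) * (ν t b' * α' t b') * 1 *
        (∑ σ ∈ univ.filter (fun σ : V → Fin q => σ r = a ∧ σ t = b'),
          (∏ v ∈ S, ν v (σ v) * α' v (σ v)) * w σ) =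
        ∑ b', ∑ b, (ν t b * ν t b') * (M b b' / (F b * G b')) := by
      rw [sum_comm]
      refine sum_congr rfl fun b' _ => ?_
      have e4 : ∀ b, (ν t b * ν t b') * (M b b' / (F b * G b')) =
          ∑ a, (ν r a * α r a) * ((ν t b * C a b) * (1 / F b)) * (ν t b' * (1 / G b')) * W a b' := by
        intro b
        rw [hM]
        beta_reduce
        rw [sum_div, mul_sum]
        refine sum_congr rfl fun a _ => ?_
        have h6 := (hF b).ne'
        have h7 := (hG b').ne'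
        field_simp
      rw [sum_congr rfl fun b _ => e4 b, sum_comm]
      refine sum_congr rfl fun a _ => ?_
      rw [e2 a b', hα'r, hα't]
      beta_reduce
      rw [hγ]
      beta_reduce
      rw [← sum_mul, ← sum_mul, ← mul_sum]
      ring
    refine (le_of_eq e3).trans ?_
    have e5 : ∑ b', ∑ b, (ν t b * ν t b') * (M b b' / (F b * G b')) ≤
        ∑ b', ∑ b, (ν t b * ν t b') * 1 := by
      refine sum_le_sum fun b' _ => sum_le_sum fun b _ => ?_
      refine mul_le_mul_of_nonneg_left ?_ (mul_pos (hν0 t b) (hν0 t b')).le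
      rw [div_le_one (mul_pos (hF b) (hG b'))]
      exact hFG b b'
    refine e5.trans (le_of_eq ?_)
    have e6 : ∀ b', ∑ b, (ν t b * ν t b') * 1 = ν t b' := by
      intro b'
      rw [← sum_mul, ← sum_mul, hνt, one_mul, mul_one]
    rw [sum_congr rfl fun b' _ => e6 b', hνt]
  have hE : ∑ v, ∑ i, ν v i * Real.log (α' v i) ≤ 0 := by
    have h1 := hgood.trans hR
    rwa [← Real.exp_zero, Real.exp_le_exp] at h1
  set c0 : ℝ := ∑ v ∈ S, ∑ i, ν v i * Real.log (α v i) with hc0
  have hE2 : ∑ v, ∑ i, ν v i * Real.log (α' v i) =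
      (∑ a, ν r a * Real.log (α r a) + ∑ a, ν r a * Real.log (γ a)) +
      (-∑ b, ν t b * Real.log (G b)) + c0 := by
    rw [LowB_sum hrt]
    congr 1
    · congr 1
      · rw [hα'r, ← sum_add_distrib]
        refine sum_congr rfl fun a _ => ?_
        beta_reduce
        rw [Real.log_mul (hα r a).ne' (hγpos a).ne']
        ring
      · rw [hα't, ← sum_neg_distrib]
        refine sum_congr rfl fun b _ => ?_
        beta_reduce
        rw [one_div, Real.log_inv]
        ring
    · refine sum_congr rfl fun v hv => ?_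
      rw [hα'S v hv]
  have hJ : -∑ b, ν t b * Real.log (F b) ≤ ∑ a, ν r a * Real.log (γ a) := by
    have h1' : ∀ a, ν r a * (∑ b, (ν t b * C a b) * Real.log (1 / F b)) ≤
        ν r a * Real.log (γ a) := by
      intro a
      refine mul_le_mul_of_nonneg_left ?_ (hν0 r a).le
      exact LowB_jensen_log (fun b => ν t b * C a b) (fun b => 1 / F b)
        (fun b => (mul_pos (hν0 t b) (hC a b)).le) (h1 a) (fun b => one_div_pos.2 (hF b))
    refine le_trans (le_of_eq ?_) (sum_le_sum fun a _ => h1' a)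
    have h2' : ∑ a, ν r a * (∑ b, (ν t b * C a b) * Real.log (1 / F b)) =
        ∑ b, ν t b * Real.log (1 / F b) * ∑ a, ν r a * C a b := by
      simp_rw [mul_sum]
      rw [sum_comm]
      refine sum_congr rfl fun b _ => sum_congr rfl fun a _ => ?_
      ring
    rw [h2', ← sum_neg_distrib]
    refine sum_congr rfl fun b _ => ?_
    rw [h2 b, mul_one, one_div, Real.log_inv]
    ring
  have hMb : ∑ b, ν t b * Real.log (M b b) =
      ∑ b, ν t b * Real.log (F b) + ∑ b, ν t b * Real.log (G b) := by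
    rw [← sum_add_distrib]
    refine sum_congr rfl fun b _ => ?_
    rw [hFG' b, Real.log_mul (hF b).ne' (hG b).ne']
    ring
  have hfin : ∑ v, ∑ i, ν v i * Real.log (α v i) ≤
      ∑ b, ν t b * Real.log (α t b * M b b) := by
    rw [LowB_sum hrt]
    have h3 : ∑ b, ν t b * Real.log (α t b * M b b) =
        ∑ b, ν t b * Real.log (α t b) + ∑ b, ν t b * Real.log (M b b) := by
      rw [← sum_add_distrib]
      refine sum_congr rfl fun b _ => ?_
      rw [Real.log_mul (hα t b).ne' (hMpos b b).ne']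
      ring
    rw [h3, hMb]
    rw [hE2] at hE
    linarith
  have hRHS : ∑ σ : V → Fin q, (∏ v, ν v (σ v) * α v (σ v)) * (w σ * C (σ r) (σ t)) =
      ∑ b, ν t b * (α t b * M b b) := by
    rw [LowB_split hrt (fun v i => ν v i * α v i) w C, sum_comm]
    refine sum_congr rfl fun b _ => ?_
    rw [hM]
    beta_reduce
    rw [mul_sum, mul_sum]
    refine sum_congr rfl fun a _ => ?_
    rw [hW, hf]
    ring
  refine (Real.exp_le_exp.2 hfin).trans ?_
  refine (LowB_jensen (ν t) (fun b => α t b * M b b) (hν t).1 hνt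
    (fun b => mul_pos (hα t b) (hMpos b b))).trans (le_of_eq hRHS.symm)

end TPB
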