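import Pool.Agent.W_5dd92e_h55.LowP
import Pool.Agent.W_5dd92e_h55.Deg

/-! # The lower bound, positive vectors -/

set_option autoImplicit false

open Finset
open scoped Classical

namespace TPB

theorem LowC_gibbs {q : ℕ} (a b : Fin q → ℝ) (ha : ∀ i, 0 < a i) (hb : ∀ i, 0 < b i)
    (h1 : ∑ i, a i = ∑ i, b i) : 0 ≤ ∑ i, a i * Real.log (a i / b i) := by
  have h2 : ∀ i, a i - b i ≤ a i * Real.log (a i / b i) := by
    intro i
    have h3 := Real.one_sub_inv_le_log_of_pos (div_pos (ha i) (hb i))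
    have h4 := mul_le_mul_of_nonneg_left h3 (ha i).le
    refine le_trans (le_of_eq ?_) h4
    have := (ha i).ne'
    field_simp
  have h5 := sum_le_sum fun i (_ : i ∈ (univ : Finset (Fin q))) => h2 i
  rw [sum_sub_distrib, h1, sub_self] at h5
  exact h5

theorem LowC_pow (d : ℕ) (hd : 1 ≤ d) (t : ℝ) (ht : 0 < t) :
    (t ^ (((d : ℝ) - 1) / d)) ^ d = t ^ (d - 1) := by
  have hd0 : (d : ℝ) ≠ 0 := by
    have : (1 : ℝ) ≤ d := by exact_mod_cast hd
    linarith
  rw [← Real.rpow_natCast, ← Real.rpow_mul ht.le, div_mul_cancel₀ _ hd0, ← Real.rpow_natCast t,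
    Nat.cast_sub hd, Nat.cast_one]

/-- LOWER BOUND for positive vectors.
PROOF. `x i = p i ^ ((d-1)/d)`, `y j = p' j ^ ((d-1)/d)` (so `x i ^ d = p i ^ (d-1)`), `s = form d B p p' = ∑ x i B i j y j > 0`,
`π i j = x i B i j y j / s`, `ν i = ∑ j, π i j`, `ν' j = ∑ i, π i j`, `C i j = π i j / (ν i ν' j)` (positive, TP2: scaling rows and columns).
At a vertex `v` with `c v = true` let `ν v = ν`, otherwise `ν'`. `good_prod` with `E = ed G c` and
`α v i = (ν i / p i) ^ (d-1)` for `c v = true`, `(ν' i / p' i) ^ (d-1)` otherwise: every factor of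
`∏ v, ν v (σ v) α v (σ v) * ∏ e, C (σ e.1) (σ e.2)` is (use `prod_deg` for `a v = ν v (σ v)` and for `a v = x (σ v)` resp. `y (σ v)`)
`∏ v, ν^d / p^(d-1) * ∏ e, π / (ν ν') = ∏ e, π (σ e.1) (σ e.2) / (x (σ e.1) y (σ e.2)) = s^(-#ed) wt`. And
`∑ i, ν i log (ν i / p i) ≥ 0` (Gibbs inequality, `log t ≥ 1 - 1/t`), so `exp(..) ≥ 1`. -/
theorem lower_pos {q : ℕ} {V : Type*} [Fintype V] (G : SimpleGraph V) (c : V → Bool)
    (hc : Prp G c) (d : ℕ) (hd : 1 ≤ d) (hreg : Rgl G d) (B : Fin q → Fin q → ℝ)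
    (hB : ∀ i j, 0 < B i j) (hTP : TP2 B) (p p' : Fin q → ℝ) (hp : Pv p) (hp' : Pv p')
    (h0 : ∀ i, 0 < p i) (h0' : ∀ i, 0 < p' i) :
    form d B p p' ^ (ed G c).card ≤ ZB G c B := by
  have hq : 0 < q := by
    rcases Nat.eq_zero_or_pos q with h | h
    · subst h
      exact absurd hp.2 (by simp)
    · exact h
  have : Nonempty (Fin q) := ⟨⟨0, hq⟩⟩
  obtain ⟨x, hx⟩ : ∃ x : Fin q → ℝ, ∀ i, x i = p i ^ (((d : ℝ) - 1) / d) := ⟨_, fun _ => rfl⟩
  obtain ⟨y, hy⟩ : ∃ y : Fin q → ℝ, ∀ i, y i = p' i ^ (((d : ℝ) - 1) / d) := ⟨_, fun _ => rfl⟩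
  have hx0 : ∀ i, 0 < x i := fun i => by rw [hx]; exact Real.rpow_pos_of_pos (h0 i) _
  have hy0 : ∀ i, 0 < y i := fun i => by rw [hy]; exact Real.rpow_pos_of_pos (h0' i) _
  have hxd : ∀ i, x i ^ d = p i ^ (d - 1) := fun i => by rw [hx]; exact LowC_pow d hd _ (h0 i)
  have hyd : ∀ i, y i ^ d = p' i ^ (d - 1) := fun i => by rw [hy]; exact LowC_pow d hd _ (h0' i)
  have hform : form d B p p' = ∑ i, ∑ j, B i j * (x i * y j) := by
    unfold form
    refine sum_congr rfl fun i _ => sum_congr rfl fun j _ => ?_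
    rw [Real.mul_rpow (h0 i).le (h0' j).le, ← hx, ← hy]
  obtain ⟨s, hs⟩ : ∃ s, s = form d B p p' := ⟨_, rfl⟩
  have hs0 : 0 < s := by
    rw [hs, hform]
    exact sum_pos (fun i _ => sum_pos (fun j _ => mul_pos (hB i j) (mul_pos (hx0 i) (hy0 j)))
      univ_nonempty) univ_nonempty
  obtain ⟨π, hπ⟩ : ∃ π : Fin q → Fin q → ℝ, ∀ i j, π i j = B i j * (x i * y j) / s :=
    ⟨_, fun _ _ => rfl⟩
  have hπ0 : ∀ i j, 0 < π i j := fun i j => by
    rw [hπ]
    exact div_pos (mul_pos (hB i j) (mul_pos (hx0 i) (hy0 j))) hs0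
  obtain ⟨n, hn⟩ : ∃ n : Fin q → ℝ, ∀ i, n i = ∑ j, π i j := ⟨_, fun _ => rfl⟩
  obtain ⟨n', hn'⟩ : ∃ n' : Fin q → ℝ, ∀ j, n' j = ∑ i, π i j := ⟨_, fun _ => rfl⟩
  have hn0 : ∀ i, 0 < n i := fun i => by
    rw [hn]; exact sum_pos (fun j _ => hπ0 i j) univ_nonempty
  have hn0' : ∀ i, 0 < n' i := fun i => by
    rw [hn']; exact sum_pos (fun j _ => hπ0 j i) univ_nonempty
  have hπs : ∑ i, ∑ j, π i j = 1 := by
    simp only [hπ, ← sum_div]
    rw [← hform, ← hs, div_self hs0.ne']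
  have hn1 : ∑ i, n i = 1 := by
    simp only [hn]
    exact hπs
  have hn1' : ∑ i, n' i = 1 := by
    simp only [hn']
    rw [sum_comm]
    exact hπs
  obtain ⟨C, hC⟩ : ∃ C : Fin q → Fin q → ℝ, ∀ i j, C i j = π i j / (n i * n' j) :=
    ⟨_, fun _ _ => rfl⟩
  have hC0 : ∀ i j, 0 < C i j := fun i j => by
    rw [hC]
    exact div_pos (hπ0 i j) (mul_pos (hn0 i) (hn0' j))
  have hCTP : TP2 C := by
    intro i i' j j' hi hj
    have h1 := hTP i i' j j' hi hj
    have e : ∀ a b a' b', C a b * C a' b' = (B a b * B a' b') *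
        ((x a * x a' * (y b * y b')) / (s ^ 2 * (n a * n a' * (n' b * n' b')))) := by
      intro a b a' b'
      have := (hn0 a).ne'
      have := (hn0 a').ne'
      have := (hn0' b).ne'
      have := (hn0' b').ne'
      have := hs0.ne'
      rw [hC, hC, hπ, hπ]
      field_simp
    rw [e, e, mul_comm (y j') (y j), mul_comm (n' j') (n' j)]
    refine mul_le_mul_of_nonneg_right h1 (le_of_lt ?_)
    exact div_pos (mul_pos (mul_pos (hx0 _) (hx0 _)) (mul_pos (hy0 _) (hy0 _)))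
      (mul_pos (pow_pos hs0 2) (mul_pos (mul_pos (hn0 _) (hn0 _)) (mul_pos (hn0' _) (hn0' _))))
  obtain ⟨ν, hν⟩ : ∃ ν : V → Fin q → ℝ, ∀ v, ν v = if c v = true then n else n' :=
    ⟨_, fun _ => rfl⟩
  obtain ⟨P, hP⟩ : ∃ P : V → Fin q → ℝ, ∀ v, P v = if c v = true then p else p' :=
    ⟨_, fun _ => rfl⟩
  obtain ⟨X, hX⟩ : ∃ X : V → Fin q → ℝ, ∀ v, X v = if c v = true then x else y :=
    ⟨_, fun _ => rfl⟩
  have hν0 : ∀ v i, 0 < ν v i := fun v i => by
    rw [hν]; split_ifs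
    · exact hn0 i
    · exact hn0' i
  have hνs : ∀ v, ∑ i, ν v i = 1 := fun v => by
    rw [hν]; split_ifs
    · exact hn1
    · exact hn1'
  have hP0 : ∀ v i, 0 < P v i := fun v i => by
    rw [hP]; split_ifs
    · exact h0 i
    · exact h0' i
  have hPs : ∀ v, ∑ i, P v i = 1 := fun v => by
    rw [hP]; split_ifs
    · exact hp.2
    · exact hp'.2
  have hX0 : ∀ v i, 0 < X v i := fun v i => by
    rw [hX]; split_ifs
    · exact hx0 i
    · exact hy0 i
  have hXP : ∀ v i, X v i ^ d = P v i ^ (d - 1) := fun v i => by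
    rw [hX, hP]; split_ifs
    · exact hxd i
    · exact hyd i
  have hed : ∀ e ∈ ed G c, c e.1 = true ∧ c e.2 ≠ true := by
    intro e he
    simp only [ed, mem_filter, mem_univ, true_and] at he
    refine ⟨he.2, fun h => hc _ _ he.1 ?_⟩
    rw [he.2, h]
  have hE : ∀ e ∈ ed G c, e.1 ≠ e.2 := by
    intro e he h
    have h1 := hed e he
    rw [h] at h1
    exact h1.2 h1.1
  have hg := good_prod ν (fun v => ⟨fun i => (hν0 v i).le, hνs v⟩) hν0 (ed G c) hE C hC0 hCTP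
    (fun e he a => by
      rw [hν, if_neg (hed e he).2]
      have h1 : ∀ b, n' b * C a b = π a b / n a := fun b => by
        have := (hn0 a).ne'
        have := (hn0' b).ne'
        rw [hC]; field_simp
      simp only [h1]
      rw [← sum_div, ← hn, div_self (hn0 a).ne'])
    (fun e he b => by
      rw [hν, if_pos (hed e he).1]
      have h1 : ∀ a, n a * C a b = π a b / n' b := fun a => by
        have := (hn0 a).ne'
        have := (hn0' b).ne'
        rw [hC]; field_simp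
      simp only [h1]
      rw [← sum_div, ← hn', div_self (hn0' b).ne'])
  have key := hg (fun v i => (ν v i / P v i) ^ (d - 1)) fun v i =>
    pow_pos (div_pos (hν0 v i) (hP0 v i)) _
  have hexp : 1 ≤ Real.exp (∑ v, ∑ i, ν v i * Real.log ((ν v i / P v i) ^ (d - 1))) := by
    rw [← Real.exp_zero]
    refine Real.exp_le_exp.2 (sum_nonneg fun v _ => ?_)
    have h1 := LowC_gibbs (ν v) (P v) (hν0 v) (hP0 v) ((hνs v).trans (hPs v).symm)
    have h2 : ∑ i, ν v i * Real.log ((ν v i / P v i) ^ (d - 1)) =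
        ((d - 1 : ℕ) : ℝ) * ∑ i, ν v i * Real.log (ν v i / P v i) := by
      rw [mul_sum]
      refine sum_congr rfl fun i _ => ?_
      rw [Real.log_pow]
      ring
    rw [h2]
    exact mul_nonneg (Nat.cast_nonneg _) h1
  have hterm : ∀ σ : V → Fin q,
      (∏ v, ν v (σ v) * (ν v (σ v) / P v (σ v)) ^ (d - 1)) *
        (∏ e ∈ ed G c, C (σ e.1) (σ e.2)) * s ^ (ed G c).card = wt G c B σ := by
    intro σ
    have h1 : ∀ v, ν v (σ v) * (ν v (σ v) / P v (σ v)) ^ (d - 1) =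
        (ν v (σ v) / X v (σ v)) ^ d := by
      intro v
      rw [div_pow, div_pow, hXP]
      obtain ⟨m, rfl⟩ : ∃ m, d = m + 1 := ⟨d - 1, by omega⟩
      rw [Nat.add_sub_cancel, pow_succ]
      ring
    rw [prod_congr rfl fun v _ => h1 v, prod_deg G c hc d hreg (fun v => ν v (σ v) / X v (σ v)),
      ← prod_mul_distrib, ← prod_const, ← prod_mul_distrib]
    unfold wt
    refine prod_congr rfl fun e he => ?_
    rw [hν, hν, hX, hX, if_pos (hed e he).1, if_neg (hed e he).2, if_pos (hed e he).1,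
      if_neg (hed e he).2, hC, hπ]
    have := (hn0 (σ e.1)).ne'
    have := (hn0' (σ e.2)).ne'
    have := (hx0 (σ e.1)).ne'
    have := (hy0 (σ e.2)).ne'
    have := hs0.ne'
    field_simp
  have hZ : (∑ σ : V → Fin q, (∏ v, ν v (σ v) * (ν v (σ v) / P v (σ v)) ^ (d - 1)) *
      (∏ e ∈ ed G c, C (σ e.1) (σ e.2))) * s ^ (ed G c).card = ZB G c B := by
    rw [sum_mul]
    unfold ZB
    exact sum_congr rfl fun σ _ => hterm σ
  rw [← hs, ← hZ]
  have h3 := hexp.trans key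
  exact le_mul_of_one_le_left (pow_nonneg hs0.le _) h3

end TPB
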