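import Pool.Agent.W_5dd92e_h55.LowC

/-! # The lower bound -/

set_option autoImplicit false

open Finset
open scoped Classical

namespace TPB

/-- LOWER BOUND for all probability vectors.
PROOF. apply `lower_pos` to `(1 - t) p + t / q` and let `t → 0` (`x ↦ x ^ y` is continuous for `y ≥ 0`). `q > 0` because `∑ p = 1`. -/
theorem lower {q : ℕ} {V : Type*} [Fintype V] (G : SimpleGraph V) (c : V → Bool)
    (hc : Prp G c) (d : ℕ) (hd : 1 ≤ d) (hreg : Rgl G d) (B : Fin q → Fin q → ℝ)
    (hB : ∀ i j, 0 < B i j) (hTP : TP2 B) (p p' : Fin q → ℝ) (hp : Pv p) (hp' : Pv p') :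
    form d B p p' ^ (ed G c).card ≤ ZB G c B := by
  have hq : 0 < q := by
    rcases Nat.eq_zero_or_pos q with h | h
    · subst h
      exact absurd hp.2 (by simp)
    · exact h
  have hq' : (0 : ℝ) < q := by exact_mod_cast hq
  have hy : (0 : ℝ) ≤ ((d : ℝ) - 1) / d := by
    have h1 : (1 : ℝ) ≤ d := by exact_mod_cast hd
    apply div_nonneg <;> linarith
  have hcont : Continuous (fun t : ℝ => form d B (fun i => (1 - t) * p i + t / q)
      (fun i => (1 - t) * p' i + t / q) ^ (ed G c).card) := by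
    apply Continuous.pow
    unfold form
    apply continuous_finsetSum
    intro i _
    apply continuous_finsetSum
    intro j _
    apply Continuous.mul continuous_const
    have h2 : Continuous (fun t : ℝ => ((1 - t) * p i + t / q) * ((1 - t) * p' j + t / q)) := by
      fun_prop
    exact (Real.continuous_rpow_const hy).comp h2
  have hpv : ∀ r : Fin q → ℝ, Pv r → ∀ t : ℝ, 0 < t → t < 1 →
      Pv (fun i => (1 - t) * r i + t / q) ∧ ∀ i, 0 < (1 - t) * r i + t / q := by
    intro r hr t ht0 ht1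
    have hpos : ∀ i, 0 < (1 - t) * r i + t / q := by
      intro i
      have h3 := mul_nonneg (sub_nonneg.mpr ht1.le) (hr.1 i)
      have h4 := div_pos ht0 hq'
      linarith
    refine ⟨⟨fun i => (hpos i).le, ?_⟩, hpos⟩
    rw [sum_add_distrib, ← mul_sum, hr.2, sum_const, card_univ, Fintype.card_fin, nsmul_eq_mul]
    field_simp
    ring
  have hle : ∀ t : ℝ, t ∈ Set.Ioo (0 : ℝ) 1 → form d B (fun i => (1 - t) * p i + t / q)
      (fun i => (1 - t) * p' i + t / q) ^ (ed G c).card ≤ ZB G c B := by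
    intro t ht
    obtain ⟨ha, hb⟩ := hpv p hp t ht.1 ht.2
    obtain ⟨ha', hb'⟩ := hpv p' hp' t ht.1 ht.2
    exact lower_pos G c hc d hd hreg B hB hTP _ _ ha ha' hb hb'
  have hlim : Filter.Tendsto (fun t : ℝ => form d B (fun i => (1 - t) * p i + t / q)
      (fun i => (1 - t) * p' i + t / q) ^ (ed G c).card) (nhdsWithin 0 (Set.Ioi 0))
      (nhds (form d B p p' ^ (ed G c).card)) := by
    have h5 := (hcont.tendsto 0).mono_left (nhdsWithin_le_nhds (s := Set.Ioi (0 : ℝ)))
    simpa using h5
  refine le_of_tendsto hlim ?_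
  filter_upwards [Ioo_mem_nhdsGT (show (0 : ℝ) < 1 by norm_num)] with t ht
  exact hle t ht

end TPB
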