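import Pool.Agent.W_5dd92e_h55.LowB

/-! # Good weights: products over edges -/

set_option autoImplicit false

open Finset
open scoped Classical

namespace TPB

/-- products over finite sets of edges are good.
PROOF. induction on `E` with `good_one`, `good_edge`, `lsm_edge`, `lsm_prod`. -/
theorem good_prod {q : ℕ} {V : Type*} [Fintype V] (ν : V → Fin q → ℝ) (hν : ∀ v, Pv (ν v))
    (hν0 : ∀ v i, 0 < ν v i) (E : Finset (V × V)) (hE : ∀ e ∈ E, e.1 ≠ e.2)
    (C : Fin q → Fin q → ℝ) (hC : ∀ i j, 0 < C i j) (hTP : TP2 C)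
    (h1 : ∀ e ∈ E, ∀ a, ∑ b, ν e.2 b * C a b = 1) (h2 : ∀ e ∈ E, ∀ b, ∑ a, ν e.1 a * C a b = 1) :
    Good ν (fun σ => ∏ e ∈ E, C (σ e.1) (σ e.2)) := by
  induction E using Finset.induction_on with
  | empty =>
    have h := good_one ν hν
    intro α hα
    refine (h α hα).trans (le_of_eq ?_)
    refine sum_congr rfl fun σ _ => ?_
    beta_reduce
    rw [prod_empty]
  | insert e E he ih =>
    have hE' : ∀ e ∈ E, e.1 ≠ e.2 := fun a ha => hE a (mem_insert_of_mem ha)
    have hg := ih hE' (fun a ha => h1 a (mem_insert_of_mem ha))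
      (fun a ha => h2 a (mem_insert_of_mem ha))
    have hpos : ∀ σ : V → Fin q, 0 < ∏ e ∈ E, C (σ e.1) (σ e.2) := fun σ =>
      prod_pos fun a _ => hC _ _
    have hlsm : LSM (fun σ : V → Fin q => ∏ e ∈ E, C (σ e.1) (σ e.2)) :=
      lsm_prod E (fun (e : V × V) (σ : V → Fin q) => C (σ e.1) (σ e.2))
        (fun _ _ _ => (hC _ _).le) (fun a _ => lsm_edge C hTP a.1 a.2)
    have key := good_edge ν hν hν0 _ hpos hlsm hg e.1 e.2 (hE e (mem_insert_self e E)) C hC hTP
      (h1 e (mem_insert_self e E)) (h2 e (mem_insert_self e E))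
    intro α hα
    refine (key α hα).trans (le_of_eq ?_)
    refine sum_congr rfl fun σ _ => ?_
    beta_reduce
    rw [prod_insert he, mul_comm (C (σ e.1) (σ e.2))]

end TPB
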