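import Pool.Agent.W_5dd92e_h55.EntC
import Pool.Agent.W_5dd92e_h55.EntS
import Pool.Agent.W_5dd92e_h55.GeoC
import Pool.Agent.W_5dd92e_h55.GibA
import Pool.Agent.W_5dd92e_h55.GibB
import Pool.Agent.W_5dd92e_h55.GibC
import Pool.Agent.W_5dd92e_h55.Deg

/-! # The upper bound -/

set_option autoImplicit false

open Finset
open scoped Classical

namespace TPB

universe u

variable {q : ℕ} {V : Type u} [Fintype V]

/-- the entropy lemma for the Gibbs measure -/
theorem ent_graph (hq : 0 < q) (B : Fin q → Fin q → ℝ) (hB : ∀ i j, 0 < B i j) (hTP : TP2 B)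
    (G : SimpleGraph V) (c : V → Bool) (hp : Prp G c) (h : ℝ) (c0 : ℝ) (hc0 : 0 < c0)
    (hs : SSB (muh (wt G c B) h) c0) (r : ℕ)
    (hg : ((4 * (r + 1) + 1 : ℕ) : ℕ∞) ≤ G.egirth) :
    ∑ e ∈ ed G c, (Hs (muh (wt G c B) h) {e.1} + Hs (muh (wt G c B) h) {e.2} -
        Hs (muh (wt G c B) h) {e.1, e.2}) -
        2 * (4 / c0 ^ 2 * ∑ p ∈ Pr G (r + 1), Cv (muh (wt G c B) h) p.1 p.2) ≤
      ∑ v, Hs (muh (wt G c B) h) {v} - Hs (muh (wt G c B) h) univ := by
  have hne : Nonempty (V → Fin q) := ⟨fun _ => ⟨0, hq⟩⟩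
  set μ := muh (wt G c B) h with hμdef
  have hwp : ∀ σ, 0 < wt G c B σ := wt_pos G c B hB
  have hpw : PW μ := muh_pw _ hwp h hne
  have hl : LSM μ := muh_lsm _ hwp (wt_lsm G c B hB hTP) h
  have hg2 : ((2 * (r + 1) + 1 : ℕ) : ℕ∞) ≤ G.egirth := by
    refine le_trans ?_ hg
    exact_mod_cast (by omega : 2 * (r + 1) + 1 ≤ 4 * (r + 1) + 1)
  have key := abs_ent G c hp (Hs μ) (Hs_empty hpw) (Hs_submod hpw)
    (fun w w' => 4 / c0 ^ 2 * Cv μ w w')
    (fun w w' S hww hw hw' => mi_cov hpw hl c0 hc0 hs S w w' hww hw hw')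
    (fun x y => SS G r x y) (fun x y => SS G (r + 1) x y) (fun v => Bl G (r + 1) v)
    (fun x y hxy => geo1 G r x y hxy) (fun v => geo2 G r v) (fun v c h => geo3 G r v c h)
    (fun v c c' h h' hne => geo4 G r hg2 v c c' h h' hne)
    (fun v x h => geo5 G c hp r v x h)
    (by
      intro u v huv
      have hdis : Disjoint (SS G r u v) (SS G (r + 1) v u) := by
        rw [geo5 G c hp r v u huv.symm]
        exact disjoint_sdiff
      have hsub : SS G r v u ⊆ SS G (r + 1) v u := (geo1 G r v u huv.symm).2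
      have hu : u ∉ SS G r v u := geo3 G r u v huv
      refine (markov G c B hB h hne _ _ _ ?_ ?_ ?_).le
      · rw [Finset.disjoint_left] at hdis ⊢
        intro x hx hx'
        exact hdis (mem_of_mem_erase hx) (hsub (mem_of_mem_erase hx'))
      · rw [Finset.disjoint_left]
        intro x hx hx'
        rw [mem_union, mem_insert, mem_singleton, mem_sdiff] at hx'
        rcases hx' with (rfl | rfl) | ⟨_, h2⟩
        · exact hu (mem_of_mem_erase hx)
        · exact (Finset.notMem_erase _ _) hx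
        · exact h2 (mem_of_mem_erase hx)
      · intro w hw w' hww'
        rw [mem_erase] at hw
        have h3 := geo6 G c hp r hg2 u v w w' huv hw.2 hw.1 hww'
        rw [mem_union, mem_union, mem_erase, mem_insert, mem_singleton, mem_sdiff]
        by_cases hw'v : w' = v
        · exact Or.inr (Or.inl (Or.inr hw'v))
        · by_cases hw'T : w' ∈ SS G r v u
          · exact Or.inl ⟨hw'v, hw'T⟩
          · exact Or.inr (Or.inr ⟨h3, hw'T⟩))
  have hcount := geo_count G c hp r hg (fun w w' => 4 / c0 ^ 2 * Cv μ w w')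
    (fun w w' => mul_nonneg (by positivity) (cv_nonneg hpw hl w w'))
  rw [← Finset.mul_sum] at hcount
  linarith

/-- dyadic pigeonhole -/
theorem pig (G : SimpleGraph V) (f : V → V → ℝ) (hf : ∀ u v, 0 ≤ f u v) (J : ℕ) (hJ : 0 < J) :
    ∃ j, j < J ∧ ∑ p ∈ Pr G (2 ^ j), f p.1 p.2 ≤ (∑ u, ∑ v, f u v) / J := by
  by_contra hcon
  push Not at hcon
  have h1 : ∑ j ∈ range J, ((∑ u, ∑ v, f u v) / J) <
      ∑ j ∈ range J, ∑ p ∈ Pr G (2 ^ j), f p.1 p.2 := by
    apply Finset.sum_lt_sum_of_nonempty ⟨0, mem_range.mpr hJ⟩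
    intro j hj
    exact hcon j (mem_range.mp hj)
  rw [Finset.sum_const, card_range, nsmul_eq_mul, mul_div_cancel₀ _ (by positivity)] at h1
  have hdis : ∀ i ∈ range J, ∀ j ∈ range J, i ≠ j → Disjoint (Pr G (2 ^ i)) (Pr G (2 ^ j)) := by
    have aux : ∀ i j, i < j → Disjoint (Pr G (2 ^ i)) (Pr G (2 ^ j)) := by
      intro i j hij
      rw [Finset.disjoint_left]
      intro p hp hp'
      unfold Pr at hp hp'
      rw [mem_filter] at hp hp'
      have : 2 ^ (i + 1) ≤ 2 ^ j := Nat.pow_le_pow_right (by norm_num) hij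
      rw [pow_succ] at this
      omega
    intro i _ j _ hij
    rcases lt_or_gt_of_ne hij with h | h
    · exact aux i j h
    · exact (aux j i h).symm
  rw [← Finset.sum_biUnion hdis] at h1
  have h2 : ∑ p ∈ (range J).biUnion (fun j => Pr G (2 ^ j)), f p.1 p.2 ≤
      ∑ p : V × V, f p.1 p.2 :=
    Finset.sum_le_sum_of_subset_of_nonneg (subset_univ _) (fun p _ _ => hf _ _)
  rw [Fintype.sum_prod_type] at h2
  linarith

/-- UPPER BOUND, positive matrices -/
theorem upper (d : ℕ) (hd : 1 ≤ d) (hq : 0 < q) (B : Fin q → Fin q → ℝ)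
    (hB : ∀ i j, 0 < B i j) (hTP : TP2 B) (ε : ℝ) (hε : 0 < ε) :
    ∃ g : ℕ, ∀ (W : Type u) [Fintype W] (G : SimpleGraph W) (c : W → Bool), Prp G c →
      Rgl G d → (g : ℕ∞) ≤ G.egirth →
      ZB G c B ≤ NN d B ^ (ed G c).card * Real.exp (ε * Fintype.card W) := by
  have hq' : (0 : ℝ) < q := by exact_mod_cast hq
  set δ : ℝ := ε / (2 * q) with hδ
  have hδ0 : 0 < δ := by positivity
  obtain ⟨c0, hc0, hssb⟩ := ssb.{u} (q := q) d hq B hB δ hδ0.le
  set K : ℝ := 4 / c0 ^ 2 with hK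
  have hK0 : 0 < K := by positivity
  obtain ⟨J, hJ⟩ := exists_nat_gt (2 * K * q / δ / (ε / 2))
  have hJ0 : (0 : ℝ) < J := lt_of_le_of_lt (by positivity) hJ
  have hJ1 : 0 < J := by exact_mod_cast hJ0
  have hJ2 : 2 * K * q / δ / J ≤ ε / 2 := by
    rw [div_lt_iff₀ (by positivity)] at hJ
    rw [div_le_iff₀ hJ0]
    linarith
  refine ⟨4 * 2 ^ J + 1, fun W _ G c hp hr hg => ?_⟩
  have hne : Nonempty (W → Fin q) := ⟨fun _ => ⟨0, hq⟩⟩
  have hwp : ∀ σ, 0 < wt G c B σ := wt_pos G c B hB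
  obtain ⟨h, hh0, hhδ, hcov⟩ := exists_field (wt G c B) hwp hne δ hδ0
  set μ := muh (wt G c B) h with hμ
  have hpw : PW μ := muh_pw _ hwp h hne
  have hl : LSM μ := muh_lsm _ hwp (wt_lsm G c B hB hTP) h
  obtain ⟨j, hj, hpig⟩ := pig G (fun u v => Cv μ u v) (fun u v => cv_nonneg hpw hl u v) J hJ1
  have h2j : 0 < 2 ^ j := by positivity
  obtain ⟨r, hr1⟩ : ∃ r, 2 ^ j = r + 1 := ⟨2 ^ j - 1, by omega⟩
  have hgr : ((4 * (r + 1) + 1 : ℕ) : ℕ∞) ≤ G.egirth := by
    refine le_trans ?_ hg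
    rw [← hr1]
    have : 2 ^ j ≤ 2 ^ J := Nat.pow_le_pow_right (by norm_num) hj.le
    exact_mod_cast (by omega : 4 * 2 ^ j + 1 ≤ 4 * 2 ^ J + 1)
  have hent := ent_graph hq B hB hTP G c hp h c0 hc0 (hssb W G c hp hr h hh0 hhδ) r hgr
  rw [← hr1, ← hμ, ← hK] at hent
  -- number of vertices
  set n : ℝ := (Fintype.card W : ℝ) with hn
  have hn0 : 0 ≤ n := Nat.cast_nonneg _
  have hd' : (0 : ℝ) < d := by exact_mod_cast hd
  have hcovn : (∑ u, ∑ v, Cv μ u v) / J ≤ q * n / δ / J := by gcongr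
  have herr : 2 * (K * ∑ p ∈ Pr G (2 ^ j), Cv μ p.1 p.2) ≤ ε / 2 * n := by
    have h1 : K * ∑ p ∈ Pr G (2 ^ j), Cv μ p.1 p.2 ≤ K * (q * n / δ / J) :=
      mul_le_mul_of_nonneg_left (hpig.trans hcovn) hK0.le
    have h2 : 2 * (K * (q * n / δ / J)) = 2 * K * q / δ / J * n := by
      field_simp
    have h3 := mul_le_mul_of_nonneg_right hJ2 hn0
    linarith
  -- edges
  have hdeg := sum_deg G c hp d hr (fun v => Hs μ {v})
  have hsumH : ∑ v, Hs μ {v} = ∑ e ∈ ed G c, 1 / (d : ℝ) * (Hs μ {e.1} + Hs μ {e.2}) := by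
    rw [← Finset.mul_sum, ← hdeg]
    field_simp
  have hlogw : Ex μ (fun σ => Real.log (wt G c B σ)) =
      ∑ e ∈ ed G c, Ex μ (fun σ => Real.log (B (σ e.1) (σ e.2))) := by
    unfold Ex wt
    rw [Finset.sum_comm]
    refine Finset.sum_congr rfl fun σ _ => ?_
    change μ σ * Real.log (∏ e ∈ ed G c, B (σ e.1) (σ e.2)) =
      ∑ x ∈ ed G c, μ σ * Real.log (B (σ x.1) (σ x.2))
    rw [Real.log_prod (fun e _ => (hB _ _).ne'), Finset.mul_sum]
  have hloc : ∑ e ∈ ed G c, (1 / (d : ℝ) * (Hs μ {e.1} + Hs μ {e.2}) -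
      (Hs μ {e.1} + Hs μ {e.2} - Hs μ {e.1, e.2}) +
      Ex μ (fun σ => Real.log (B (σ e.1) (σ e.2)))) ≤
      (ed G c).card * Real.log (NN d B) := by
    rw [← nsmul_eq_mul]
    refine Finset.sum_le_card_nsmul _ _ _ (fun e he => ?_)
    refine edge_ineq d hd B hB hpw e.1 e.2 ?_
    unfold ed at he
    rw [mem_filter] at he
    exact he.2.1.ne
  rw [Finset.sum_add_distrib, Finset.sum_sub_distrib, ← hsumH, ← hlogw] at hloc
  -- field
  have hX : h * Ex μ XX ≤ ε / 2 * n := by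
    have h1 : Ex μ XX ≤ q * n := by
      unfold Ex
      calc ∑ τ, μ τ * XX τ ≤ ∑ τ, μ τ * (q * n) :=
            Finset.sum_le_sum fun τ _ => mul_le_mul_of_nonneg_left (XX_le τ) (hpw.pos τ).le
        _ = q * n := by rw [← Finset.sum_mul, hpw.sum, one_mul]
    have h2 : 0 ≤ Ex μ XX := Finset.sum_nonneg fun τ _ =>
      mul_nonneg (hpw.pos τ).le (XX_nonneg τ)
    calc h * Ex μ XX ≤ δ * (q * n) := mul_le_mul hhδ h1 h2 hδ0.le
      _ = ε / 2 * n := by rw [hδ]; field_simp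
  have hZ := log_Zh (wt G c B) hwp h hne
  rw [← hμ] at hZ
  have hlog : Real.log (Zh (wt G c B) h) ≤
      (ed G c).card * Real.log (NN d B) + ε * n := by
    linarith
  have hZ0 : 0 < Zh (wt G c B) h :=
    Finset.sum_pos (fun σ _ => mul_pos (hwp σ) (Real.exp_pos _)) (Finset.univ_nonempty)
  have hNp : 0 < NN d B := NN_pos d hd hq B hB
  have hle : ZB G c B ≤ Zh (wt G c B) h := by
    unfold ZB Zh
    refine Finset.sum_le_sum fun σ _ => ?_
    have : 1 ≤ Real.exp (h * XX σ) := Real.one_le_exp (mul_nonneg hh0 (XX_nonneg σ))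
    nlinarith [hwp σ]
  refine hle.trans ?_
  have h5 : Zh (wt G c B) h = Real.exp (Real.log (Zh (wt G c B) h)) := (Real.exp_log hZ0).symm
  rw [h5]
  have h6 : NN d B ^ (ed G c).card = Real.exp ((ed G c).card * Real.log (NN d B)) := by
    rw [Real.exp_nat_mul, Real.exp_log hNp]
  rw [h6, ← Real.exp_add]
  exact Real.exp_le_exp.mpr hlog

end TPB
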