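import Pool.Agent.W_5dd92e_h55.Defs

/-! # Potentials of TP2 matrices -/

set_option autoImplicit false

open Finset
open scoped Classical

namespace TPB

/-- the version for matrices indexed by the natural numbers -/
theorem Pot_nat (N : ℕ → ℕ → ℝ) (hN : ∀ i j, 0 < N i j)
    (hTP : ∀ i i' j j', i ≤ i' → j ≤ j' → N i j' * N i' j ≤ N i j * N i' j') :
    ∃ F G : ℕ → ℝ, (∀ i, 0 < F i) ∧ (∀ i, 0 < G i) ∧ (∀ i j, N i j ≤ F i * G j) ∧
      ∀ i, N i i = F i * G i := by
  obtain ⟨F, hF⟩ : ∃ F : ℕ → ℝ, F = fun b => ∏ i ∈ range b, N (i + 1) i / N i i := ⟨_, rfl⟩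
  have hF0 : ∀ i, 0 < F i := by
    intro i
    rw [hF]
    exact Finset.prod_pos (fun j _ => div_pos (hN _ _) (hN _ _))
  have hFs : ∀ b, F (b + 1) * N b b = F b * N (b + 1) b := by
    intro b
    have h1 : F (b + 1) = F b * (N (b + 1) b / N b b) := by
      rw [hF]
      exact Finset.prod_range_succ _ _
    have h2 := (hN b b).ne'
    rw [h1]
    field_simp
  obtain ⟨G, hG⟩ : ∃ G : ℕ → ℝ, G = fun b => N b b / F b := ⟨_, rfl⟩
  have hG0 : ∀ i, 0 < G i := by
    intro i
    rw [hG]
    exact div_pos (hN _ _) (hF0 _)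
  have hFG : ∀ i, N i i = F i * G i := by
    intro i
    have h1 : G i = N i i / F i := by rw [hG]
    have h2 := (hF0 i).ne'
    rw [h1]
    field_simp
  have hGs : ∀ b, G (b + 1) * N (b + 1) b = G b * N (b + 1) (b + 1) := by
    intro b
    have h1 := hFG b
    have h2 := hFG (b + 1)
    have h3 := hFs b
    rw [h1, h2] at *
    have h4 := (hF0 b).ne'
    have h5 : F b * (G (b + 1) * N (b + 1) b) = F b * (G b * (F (b + 1) * G (b + 1))) := by
      calc F b * (G (b + 1) * N (b + 1) b) = (F b * N (b + 1) b) * G (b + 1) := by ring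
        _ = (F (b + 1) * (F b * G b)) * G (b + 1) := by rw [h3]
        _ = _ := by ring
    exact mul_left_cancel₀ h4 h5
  refine ⟨F, G, hF0, hG0, ?_, hFG⟩
  have hA : ∀ b k, N (b + k) b ≤ F (b + k) * G b := by
    intro b k
    induction k with
    | zero => exact (hFG b).le
    | succ k ih =>
      have h1 := hTP (b + k) (b + k + 1) b (b + k) (by omega) (by omega)
      have h2 := hFs (b + k)
      have h3 : N (b + k) (b + k) * N (b + k + 1) b ≤
          N (b + k) (b + k) * (F (b + k + 1) * G b) := by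
        calc N (b + k) (b + k) * N (b + k + 1) b ≤ N (b + k) b * N (b + k + 1) (b + k) := h1
          _ ≤ (F (b + k) * G b) * N (b + k + 1) (b + k) :=
              mul_le_mul_of_nonneg_right ih (hN _ _).le
          _ = (F (b + k) * N (b + k + 1) (b + k)) * G b := by ring
          _ = (F (b + k + 1) * N (b + k) (b + k)) * G b := by rw [h2]
          _ = _ := by ring
      exact le_of_mul_le_mul_left h3 (hN _ _)
  have hB : ∀ a k, N a (a + k) ≤ F a * G (a + k) := by
    intro a k
    induction k with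
    | zero => exact (hFG a).le
    | succ k ih =>
      have h1 := hTP a (a + k + 1) (a + k) (a + k + 1) (by omega) (by omega)
      have h2 := hGs (a + k)
      have h3 : N a (a + k + 1) * N (a + k + 1) (a + k) ≤
          (F a * G (a + k + 1)) * N (a + k + 1) (a + k) := by
        calc N a (a + k + 1) * N (a + k + 1) (a + k) ≤
            N a (a + k) * N (a + k + 1) (a + k + 1) := h1
          _ ≤ (F a * G (a + k)) * N (a + k + 1) (a + k + 1) :=
              mul_le_mul_of_nonneg_right ih (hN _ _).le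
          _ = F a * (G (a + k) * N (a + k + 1) (a + k + 1)) := by ring
          _ = F a * (G (a + k + 1) * N (a + k + 1) (a + k)) := by rw [h2]
          _ = _ := by ring
      exact le_of_mul_le_mul_right h3 (hN _ _)
  intro i j
  rcases le_total j i with h | h
  · obtain ⟨k, rfl⟩ := Nat.exists_eq_add_of_le h
    exact hA j k
  · obtain ⟨k, rfl⟩ := Nat.exists_eq_add_of_le h
    exact hB i k

/-- POTENTIALS.
PROOF. `q = 0` is trivial. Define `F` recursively along `Fin q`: `F 0 = 1`, `F (b+1) = F b * M (b+1) b / M b b`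
(e.g. `F b = ∏ i < b, M (i+1) i / M i i`), and `G b = M b b / F b`. Let `D a b = F a * G b / M a b`; then `D b b = 1`, `D (b+1) b = 1` and
for `a ≤ a'`, `b ≤ b'`: `D a b * D a' b' ≤ D a b' * D a' b` (TP2 of `M`). Induction on `|a - b|`: `D a (a+1) ≥ D a a * D (a+1) (a+1) / D (a+1) a = 1`;
for `a > b + 1`: rows `b+1 < a`, columns `b < b+1`: `D (b+1) b * D a (b+1) ≤ D (b+1) (b+1) * D a b`, so `D a b ≥ D a (b+1) ≥ 1`;
for `b > a + 1`: rows `a < a+1`, columns `a+1 < b`: `D a (a+1) * D (a+1) b ≤ D a b * D (a+1) (a+1)`, so `D a b ≥ 1`. -/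
theorem pot {q : ℕ} (M : Fin q → Fin q → ℝ) (hM : ∀ i j, 0 < M i j) (hTP : TP2 M) :
    ∃ F G : Fin q → ℝ, (∀ i, 0 < F i) ∧ (∀ i, 0 < G i) ∧ (∀ i j, M i j ≤ F i * G j) ∧
      ∀ i, M i i = F i * G i := by
  rcases Nat.eq_zero_or_pos q with rfl | hq
  · exact ⟨fun _ => 1, fun _ => 1, fun i => i.elim0, fun i => i.elim0, fun i => i.elim0,
      fun i => i.elim0⟩
  obtain ⟨t, ht⟩ : ∃ t : ℕ → Fin q, ∀ a, t a = ⟨min a (q - 1), by omega⟩ :=
    ⟨fun a => ⟨min a (q - 1), by omega⟩, fun _ => rfl⟩
  have hmono : ∀ a b, a ≤ b → t a ≤ t b := by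
    intro a b hab
    rw [ht, ht, Fin.mk_le_mk]
    omega
  have hval : ∀ i : Fin q, t i.val = i := by
    intro i
    rw [ht]
    apply Fin.ext
    have := i.isLt
    change min i.val (q - 1) = i.val
    omega
  obtain ⟨F, G, hF, hG, h1, h2⟩ := Pot_nat (fun a b => M (t a) (t b)) (fun _ _ => hM _ _)
    (fun i i' j j' hi hj => hTP _ _ _ _ (hmono _ _ hi) (hmono _ _ hj))
  refine ⟨fun i => F i.val, fun i => G i.val, fun i => hF _, fun i => hG _, fun i j => ?_,
    fun i => ?_⟩
  · have h := h1 i.val j.val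
    simp only [hval] at h
    exact h
  · have h := h2 i.val
    simp only [hval] at h
    exact h

end TPB
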