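import Pool.Agent.W_5dd92e_h55.MainU
import Pool.Agent.W_5dd92e_h55.LowD

/-! # Matrices with zero entries -/

set_option autoImplicit false

open Finset Filter Topology
open scoped Classical

namespace TPB

universe u

variable {q : ℕ}

/-- Gaussian kernel -/
noncomputable def Kt (q : ℕ) (t : ℝ) (i j : Fin q) : ℝ :=
  Real.exp (-(((i : ℕ) : ℝ) - ((j : ℕ) : ℝ)) ^ 2 / t)

/-- smoothed matrix -/
noncomputable def Bt (B : Fin q → Fin q → ℝ) (t : ℝ) (i j : Fin q) : ℝ :=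
  ∑ k, Kt q t i k * ∑ l, B k l * Kt q t l j

theorem Kt_tp2 (t : ℝ) (ht : 0 < t) : TP2 (Kt q t) := by
  intro i i' j j' hi hj
  unfold Kt
  rw [← Real.exp_add, ← Real.exp_add]
  apply Real.exp_le_exp.mpr
  have hi' : ((i : ℕ) : ℝ) ≤ ((i' : ℕ) : ℝ) := by exact_mod_cast hi
  have hj' : ((j : ℕ) : ℝ) ≤ ((j' : ℕ) : ℝ) := by exact_mod_cast hj
  rw [← add_div, ← add_div]
  apply div_le_div_of_nonneg_right _ ht.le
  nlinarith [mul_nonneg (sub_nonneg.mpr hi') (sub_nonneg.mpr hj')]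

theorem Kt_pos (t : ℝ) (i j : Fin q) : 0 < Kt q t i j := Real.exp_pos _

theorem Kt_diag (t : ℝ) (i : Fin q) : Kt q t i i = 1 := by
  unfold Kt
  simp

theorem Bt_tp2 (B : Fin q → Fin q → ℝ) (hTP : TP2 B) (t : ℝ) (ht : 0 < t) : TP2 (Bt B t) := by
  unfold Bt
  exact tp2_mul _ _ (Kt_tp2 t ht) (tp2_mul _ _ hTP (Kt_tp2 t ht))

theorem Bt_ge (B : Fin q → Fin q → ℝ) (h0 : ∀ i j, 0 ≤ B i j) (t : ℝ) (i j k l : Fin q) :
    Kt q t i k * (B k l * Kt q t l j) ≤ Bt B t i j := by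
  unfold Bt
  have h1 : B k l * Kt q t l j ≤ ∑ l, B k l * Kt q t l j :=
    Finset.single_le_sum (f := fun l => B k l * Kt q t l j)
      (fun l _ => mul_nonneg (h0 k l) (Kt_pos t l j).le) (mem_univ l)
  have h2 : Kt q t i k * ∑ l, B k l * Kt q t l j ≤ ∑ k, Kt q t i k * ∑ l, B k l * Kt q t l j :=
    Finset.single_le_sum (f := fun k => Kt q t i k * ∑ l, B k l * Kt q t l j)
      (fun k _ => mul_nonneg (Kt_pos t i k).le
        (Finset.sum_nonneg fun l _ => mul_nonneg (h0 k l) (Kt_pos t l j).le)) (mem_univ k)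
  exact (mul_le_mul_of_nonneg_left h1 (Kt_pos t i k).le).trans h2

theorem Bt_le (B : Fin q → Fin q → ℝ) (h0 : ∀ i j, 0 ≤ B i j) (t : ℝ) (i j : Fin q) :
    B i j ≤ Bt B t i j := by
  have := Bt_ge B h0 t i j i j
  rwa [Kt_diag, Kt_diag, one_mul, mul_one] at this

theorem Bt_pos (B : Fin q → Fin q → ℝ) (h0 : ∀ i j, 0 ≤ B i j) (k l : Fin q) (hkl : 0 < B k l)
    (t : ℝ) (i j : Fin q) : 0 < Bt B t i j :=
  lt_of_lt_of_le (mul_pos (Kt_pos t i k) (mul_pos hkl (Kt_pos t l j))) (Bt_ge B h0 t i j k l)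

theorem Kt_tendsto (i j : Fin q) :
    Tendsto (fun t => Kt q t i j) (𝓝[>] 0) (𝓝 (if i = j then 1 else 0)) := by
  split_ifs with h
  · subst h
    simp only [Kt_diag]
    exact tendsto_const_nhds
  · unfold Kt
    have hne : (((i : ℕ) : ℝ) - ((j : ℕ) : ℝ)) ≠ 0 := by
      intro h'
      apply h
      have : ((i : ℕ) : ℝ) = ((j : ℕ) : ℝ) := by linarith
      exact Fin.ext (by exact_mod_cast this)
    have hpos : 0 < (((i : ℕ) : ℝ) - ((j : ℕ) : ℝ)) ^ 2 := by positivity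
    apply Real.tendsto_exp_atBot.comp
    have h1 : Tendsto (fun t : ℝ => t⁻¹) (𝓝[>] 0) atTop := tendsto_inv_nhdsGT_zero
    have h2 := h1.const_mul_atTop hpos
    have h3 := tendsto_neg_atTop_atBot.comp h2
    refine h3.congr fun t => ?_
    simp only [Function.comp]
    rw [neg_div, div_eq_mul_inv]

theorem Bt_tendsto (B : Fin q → Fin q → ℝ) (i j : Fin q) :
    Tendsto (fun t => Bt B t i j) (𝓝[>] 0) (𝓝 (B i j)) := by
  unfold Bt
  have h : B i j = ∑ k, (if i = k then (1 : ℝ) else 0) * ∑ l, B k l * (if l = j then (1 : ℝ) else 0) := by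
    simp
  rw [h]
  exact tendsto_finsetSum _ fun k _ => (Kt_tendsto i k).mul
    (tendsto_finsetSum _ fun l _ => (Kt_tendsto l j).const_mul _)

theorem form_mono (d : ℕ) (B B' : Fin q → Fin q → ℝ) (h : ∀ i j, B i j ≤ B' i j)
    (p p' : Fin q → ℝ) (hp : Pv p) (hp' : Pv p') : form d B p p' ≤ form d B' p p' := by
  unfold form
  refine Finset.sum_le_sum fun i _ => Finset.sum_le_sum fun j _ => ?_
  exact mul_le_mul_of_nonneg_right (h i j)
    (Real.rpow_nonneg (mul_nonneg (hp.1 i) (hp'.1 j)) _)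

theorem form_nonneg (d : ℕ) (B : Fin q → Fin q → ℝ) (h : ∀ i j, 0 ≤ B i j)
    (p p' : Fin q → ℝ) (hp : Pv p) (hp' : Pv p') : 0 ≤ form d B p p' := by
  unfold form
  refine Finset.sum_nonneg fun i _ => Finset.sum_nonneg fun j _ => ?_
  exact mul_nonneg (h i j) (Real.rpow_nonneg (mul_nonneg (hp.1 i) (hp'.1 j)) _)

theorem Pv_le_one {p : Fin q → ℝ} (hp : Pv p) (i : Fin q) : p i ≤ 1 := by
  rw [← hp.2]
  exact Finset.single_le_sum (f := p) (fun j _ => hp.1 j) (mem_univ i)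

/-- forms of nearby matrices -/
theorem form_diff (d : ℕ) (hd : 1 ≤ d) (B B' : Fin q → Fin q → ℝ) (h : ∀ i j, B i j ≤ B' i j)
    (p p' : Fin q → ℝ) (hp : Pv p) (hp' : Pv p') :
    form d B' p p' ≤ form d B p p' + ∑ i, ∑ j, (B' i j - B i j) := by
  unfold form
  rw [← Finset.sum_add_distrib]
  refine Finset.sum_le_sum fun i _ => ?_
  rw [← Finset.sum_add_distrib]
  refine Finset.sum_le_sum fun j _ => ?_
  have h1 : (p i * p' j) ^ (((d : ℝ) - 1) / d) ≤ 1 := by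
    apply Real.rpow_le_one (mul_nonneg (hp.1 i) (hp'.1 j))
    · exact mul_le_one₀ (Pv_le_one hp i) (hp'.1 j) (Pv_le_one hp' j)
    · have : (1 : ℝ) ≤ d := by exact_mod_cast hd
      exact div_nonneg (by linarith) (by linarith)
  nlinarith [h i j]

theorem NN_le (d : ℕ) (hq : 0 < q) (B : Fin q → Fin q → ℝ) (x : ℝ)
    (h : ∀ p p' : Fin q → ℝ, Pv p → Pv p' → form d B p p' ≤ x) : NN d B ≤ x := by
  unfold NN
  apply csSup_le
  · have hq' : (q : ℝ) ≠ 0 := by positivity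
    have hu : Pv (fun _ : Fin q => (1 : ℝ) / q) := by
      refine ⟨fun _ => by positivity, ?_⟩
      rw [Finset.sum_const, Finset.card_univ, Fintype.card_fin, nsmul_eq_mul]
      field_simp
    exact ⟨_, _, _, hu, hu, rfl⟩
  · rintro y ⟨p, p', hp, hp', rfl⟩
    exact h p p' hp hp'

theorem NN_nonneg (d : ℕ) (B : Fin q → Fin q → ℝ) (h0 : ∀ i j, 0 ≤ B i j) : 0 ≤ NN d B := by
  unfold NN
  apply Real.sSup_nonneg
  rintro y ⟨p, p', hp, hp', rfl⟩
  exact form_nonneg d B h0 p p' hp hp'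

/-- positivity of the norm when some entry is positive -/
theorem NN_pos0 (d : ℕ) (hd : 1 ≤ d) (hq : 0 < q) (B : Fin q → Fin q → ℝ)
    (h0 : ∀ i j, 0 ≤ B i j) (k l : Fin q) (hkl : 0 < B k l) : 0 < NN d B := by
  have hq' : (q : ℝ) ≠ 0 := by positivity
  have hu : Pv (fun _ : Fin q => (1 : ℝ) / q) := by
    refine ⟨fun _ => by positivity, ?_⟩
    rw [Finset.sum_const, Finset.card_univ, Fintype.card_fin, nsmul_eq_mul]
    field_simp
  refine lt_of_lt_of_le ?_ (form_le_NN d hd B h0 _ _ hu hu)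
  unfold form
  have hx : (0 : ℝ) < (1 / q * (1 / q)) ^ (((d : ℝ) - 1) / d) :=
    Real.rpow_pos_of_pos (by positivity) _
  have hnn : ∀ i j, 0 ≤ B i j * ((1 : ℝ) / q * (1 / q)) ^ (((d : ℝ) - 1) / d) :=
    fun i j => mul_nonneg (h0 i j) hx.le
  have h1 : B k l * ((1 : ℝ) / q * (1 / q)) ^ (((d : ℝ) - 1) / d) ≤
      ∑ j, B k j * ((1 : ℝ) / q * (1 / q)) ^ (((d : ℝ) - 1) / d) :=
    Finset.single_le_sum (f := fun j => B k j * ((1 : ℝ) / q * (1 / q)) ^ (((d : ℝ) - 1) / d))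
      (fun j _ => hnn k j) (mem_univ l)
  have h2 : ∑ j, B k j * ((1 : ℝ) / q * (1 / q)) ^ (((d : ℝ) - 1) / d) ≤
      ∑ i, ∑ j, B i j * ((1 : ℝ) / q * (1 / q)) ^ (((d : ℝ) - 1) / d) :=
    Finset.single_le_sum
      (f := fun i => ∑ j, B i j * ((1 : ℝ) / q * (1 / q)) ^ (((d : ℝ) - 1) / d))
      (fun i _ => Finset.sum_nonneg fun j _ => hnn i j) (mem_univ k)
  exact lt_of_lt_of_le (mul_pos hkl hx) (h1.trans h2)

theorem ZB_mono {V : Type*} [Fintype V] (G : SimpleGraph V) (c : V → Bool)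
    (B B' : Fin q → Fin q → ℝ) (h0 : ∀ i j, 0 ≤ B i j) (h : ∀ i j, B i j ≤ B' i j) :
    ZB G c B ≤ ZB G c B' := by
  unfold ZB wt
  exact Finset.sum_le_sum fun σ _ => Finset.prod_le_prod (fun e _ => h0 _ _) (fun e _ => h _ _)

theorem ZB_tendsto {V : Type*} [Fintype V] (G : SimpleGraph V) (c : V → Bool)
    (B : Fin q → Fin q → ℝ) : Tendsto (fun t => ZB G c (Bt B t)) (𝓝[>] 0) (𝓝 (ZB G c B)) := by
  unfold ZB wt
  exact tendsto_finsetSum _ fun σ _ => tendsto_finsetProd _ fun e _ => Bt_tendsto B _ _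

/-- lower bound, nonnegative nonzero matrices -/
theorem lower0 {V : Type*} [Fintype V] (G : SimpleGraph V) (c : V → Bool)
    (hc : Prp G c) (d : ℕ) (hd : 1 ≤ d) (hreg : Rgl G d) (B : Fin q → Fin q → ℝ)
    (h0 : ∀ i j, 0 ≤ B i j) (hTP : TP2 B) (k l : Fin q) (hkl : 0 < B k l) :
    NN d B ^ (ed G c).card ≤ ZB G c B := by
  have hq : 0 < q := lt_of_le_of_lt (Nat.zero_le _) k.2
  have key : ∀ p p' : Fin q → ℝ, Pv p → Pv p' → form d B p p' ^ (ed G c).card ≤ ZB G c B := by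
    intro p p' hp hp'
    refine ge_of_tendsto (ZB_tendsto G c B) ?_
    filter_upwards [self_mem_nhdsWithin] with t ht
    refine le_trans ?_ (lower G c hc d hd hreg (Bt B t) (Bt_pos B h0 k l hkl t)
      (Bt_tp2 B hTP t ht) p p' hp hp')
    exact pow_le_pow_left₀ (form_nonneg d B h0 p p' hp hp')
      (form_mono d B _ (fun i j => Bt_le B h0 t i j) p p' hp hp') _
  by_contra hcon
  push Not at hcon
  -- continuity of the power
  have hcont : Tendsto (fun x : ℝ => x ^ (ed G c).card) (𝓝 (NN d B))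
      (𝓝 (NN d B ^ (ed G c).card)) := (continuous_pow _).continuousAt
  have hev := hcont.eventually (lt_mem_nhds hcon)
  obtain ⟨ε, hε, hball⟩ := Metric.eventually_nhds_iff.mp hev
  have hbdd : ∃ p p' : Fin q → ℝ, Pv p ∧ Pv p' ∧ NN d B - ε < form d B p p' := by
    by_contra hno
    push Not at hno
    have := NN_le d hq B (NN d B - ε) (fun p p' hp hp' => hno p p' hp hp')
    linarith
  obtain ⟨p, p', hp, hp', hlt⟩ := hbdd
  have hle := form_le_NN d hd B h0 p p' hp hp'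
  have h1 := hball (y := form d B p p') (by rw [Real.dist_eq, abs_lt]; constructor <;> linarith)
  have h2 := key p p' hp hp'
  linarith

/-- upper bound, nonnegative nonzero matrices -/
theorem upper0 (d : ℕ) (hd : 1 ≤ d) (B : Fin q → Fin q → ℝ)
    (h0 : ∀ i j, 0 ≤ B i j) (hTP : TP2 B) (k l : Fin q) (hkl : 0 < B k l) (ε : ℝ) (hε : 0 < ε) :
    ∃ g : ℕ, ∀ (W : Type u) [Fintype W] (G : SimpleGraph W) (c : W → Bool), Prp G c →
      Rgl G d → (g : ℕ∞) ≤ G.egirth →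
      ZB G c B ≤ NN d B ^ (ed G c).card * Real.exp (ε * Fintype.card W) := by
  have hq : 0 < q := lt_of_le_of_lt (Nat.zero_le _) k.2
  have hd' : (0 : ℝ) < d := by exact_mod_cast hd
  have hN : 0 < NN d B := NN_pos0 d hd hq B h0 k l hkl
  -- choice of t
  have hlim : Tendsto (fun t => ∑ i, ∑ j, (Bt B t i j - B i j)) (𝓝[>] 0)
      (𝓝 (∑ i, ∑ j, (B i j - B i j))) :=
    tendsto_finsetSum _ fun i _ => tendsto_finsetSum _ fun j _ =>
      (Bt_tendsto B i j).sub tendsto_const_nhds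
  have hz : ∑ i, ∑ j, (B i j - B i j) = 0 := by simp
  rw [hz] at hlim
  have hpos : 0 < NN d B * (Real.exp (ε / d) - 1) := by
    apply mul_pos hN
    have : 1 < Real.exp (ε / d) := Real.one_lt_exp_iff.mpr (by positivity)
    linarith
  have hev := hlim.eventually (gt_mem_nhds hpos)
  obtain ⟨t, ht, ht0⟩ := (hev.and self_mem_nhdsWithin).exists
  have hNt : NN d (Bt B t) ≤ NN d B * Real.exp (ε / d) := by
    apply NN_le d hq
    intro p p' hp hp'
    have h1 := form_diff d hd B (Bt B t) (fun i j => Bt_le B h0 t i j) p p' hp hp'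
    have h2 := form_le_NN d hd B h0 p p' hp hp'
    linarith
  obtain ⟨g, hg⟩ := upper.{u} d hd hq (Bt B t) (Bt_pos B h0 k l hkl t) (Bt_tp2 B hTP t ht0)
    (ε / 2) (by positivity)
  refine ⟨g, fun W _ G c hp hr hgg => ?_⟩
  have h1 := hg W G c hp hr hgg
  have h2 := ZB_mono G c B (Bt B t) h0 (fun i j => Bt_le B h0 t i j)
  have hcard := two_card_ed G c hp d hr
  have hN0 : 0 ≤ NN d (Bt B t) := NN_nonneg d _ (fun i j => (Bt_pos B h0 k l hkl t i j).le)
  calc ZB G c B ≤ NN d (Bt B t) ^ (ed G c).card * Real.exp (ε / 2 * Fintype.card W) := h2.trans h1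
    _ ≤ (NN d B * Real.exp (ε / d)) ^ (ed G c).card * Real.exp (ε / 2 * Fintype.card W) := by
        gcongr
    _ = NN d B ^ (ed G c).card * Real.exp (ε * Fintype.card W) := by
        rw [mul_pow, mul_assoc, ← Real.exp_nat_mul, ← Real.exp_add]
        congr 2
        have h3 : ((ed G c).card : ℝ) = d * (Fintype.card W : ℝ) / 2 := by linarith
        rw [h3]
        field_simp
        ring

end TPB
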